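import Pool.Agent.H601.GV.Main

/-!
# Asymptotic bases of order `h` have infinite essential maxima of the orders `> h`
-/

set_option autoImplicit false

namespace Pool.Agent.H601.GV

open Finset Pool.Agent.H601

/-- the elements `≤ N` -/
noncomputable def upTo (A : Set ℕ) (N : ℕ) : Finset ℕ :=
  ((Set.finite_Iic N).inter_of_right A).toFinset

theorem mem_upTo {A : Set ℕ} {N a : ℕ} : a ∈ upTo A N ↔ a ∈ A ∧ a ≤ N := by
  unfold upTo
  rw [Set.Finite.mem_toFinset]
  rfl

/-- bases have many elements -/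
theorem le_card_upTo {A : Set ℕ} {h n₀ : ℕ} (hA : ∀ n, n₀ ≤ n → 1 ≤ rep A h n) (N : ℕ) :
    N ≤ (upTo A (n₀ + N)).card ^ h := by
  classical
  have h1 : ∀ n : ℕ, ∃ s : Multiset ℕ, n₀ ≤ n → Multiset.card s = h ∧ (∀ a ∈ s, a ∈ A) ∧
      s.sum = n := by
    intro n
    by_cases hn : n₀ ≤ n
    · obtain ⟨s, hs⟩ := exists_of_rep_pos (hA n hn)
      exact ⟨s, fun _ => hs⟩
    · exact ⟨0, fun h => absurd h hn⟩
  choose f hf using h1
  have h2 : ((Finset.Ico n₀ (n₀ + N)).image f).card = N := by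
    rw [Finset.card_image_of_injOn, Nat.card_Ico]
    · omega
    · intro a ha b hb hab
      rw [Finset.mem_coe, Finset.mem_Ico] at ha hb
      rw [← (hf a ha.1).2.2, ← (hf b hb.1).2.2, hab]
  obtain ⟨h3, h4⟩ := msets_finite (upTo A (n₀ + N)) h
  have h5 : (((Finset.Ico n₀ (n₀ + N)).image f : Finset (Multiset ℕ)) : Set (Multiset ℕ)) ⊆
      {s : Multiset ℕ | Multiset.card s = h ∧ ∀ a ∈ s, a ∈ upTo A (n₀ + N)} := by
    intro s hs
    rw [Finset.mem_coe, Finset.mem_image] at hs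
    obtain ⟨n, hn, rfl⟩ := hs
    rw [Finset.mem_Ico] at hn
    obtain ⟨g1, g2, g3⟩ := hf n hn.1
    refine ⟨g1, fun a ha => mem_upTo.2 ⟨g2 a ha, ?_⟩⟩
    have := Multiset.le_sum_of_mem ha
    omega
  have h6 := Set.ncard_le_ncard h5 h3
  rw [Set.ncard_coe_finset, h2] at h6
  exact h6.trans h4

/-- sets with few representations have few elements -/
theorem choose_le {A : Set ℕ} {k c : ℕ} (hA : ∀ n, rep A k n ≤ c) (N : ℕ) :
    (upTo A N).card.choose k ≤ (k * N + 1) * c := by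
  classical
  rw [← Finset.card_powersetCard]
  have h1 : ∀ S ∈ (upTo A N).powersetCard k, ∑ a ∈ S, a ∈ Finset.range (k * N + 1) := by
    intro S hS
    rw [Finset.mem_powersetCard] at hS
    rw [Finset.mem_range, Nat.lt_succ_iff]
    calc ∑ a ∈ S, a ≤ ∑ _a ∈ S, N := Finset.sum_le_sum fun a ha => (mem_upTo.1 (hS.1 ha)).2
      _ = k * N := by rw [Finset.sum_const, hS.2, smul_eq_mul]
  have h2 := Finset.card_le_mul_card_image_of_maps_to h1 c (by
    intro n _
    refine le_trans ?_ (hA n)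
    have h3 : ((((upTo A N).powersetCard k).filter (fun S => ∑ a ∈ S, a = n)).image
        (fun S : Finset ℕ => S.val)).card =
        (((upTo A N).powersetCard k).filter (fun S => ∑ a ∈ S, a = n)).card := by
      apply Finset.card_image_of_injective
      intro S T hST
      exact Finset.val_injective hST
    rw [← h3]
    unfold rep
    rw [← Set.ncard_coe_finset]
    apply Set.ncard_le_ncard _ (reps_finite _ _ _)
    intro s hs
    rw [Finset.mem_coe, Finset.mem_image] at hs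
    obtain ⟨S, hS, rfl⟩ := hs
    rw [Finset.mem_filter, Finset.mem_powersetCard] at hS
    obtain ⟨⟨g1, g2⟩, g3⟩ := hS
    refine ⟨g2, fun a ha => (mem_upTo.1 (g1 ha)).1, ?_⟩
    rw [← g3, Finset.sum_val]
    rfl)
  rw [Finset.card_range, mul_comm] at h2
  exact h2

theorem essMax_top {A : Set ℕ} {h k n₀ : ℕ} (hh : 1 ≤ h) (hk : h < k)
    (hA : ∀ n, n₀ ≤ n → 1 ≤ rep A h n) : essMax A k = ⊤ := by
  classical
  by_contra htop
  obtain ⟨c, hc⟩ : ∃ c : ℕ, essMax A k = c := ⟨_, (ENat.natCast_toNat htop).symm⟩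
  obtain ⟨F, hF⟩ := essMax_le.1 hc.le
  -- constants
  set K := k.factorial * ((k * (n₀ + 1) + 1) * (c + 1)) with hK
  set M := 2 ^ k * K + 2 * (F.card + k) + 1 with hM
  have hM1 : 1 ≤ M := by omega
  set N := n₀ + M ^ h with hN
  have h1 : M ^ h ≤ (upTo A N).card ^ h := le_card_upTo hA (M ^ h)
  have h2 : M ≤ (upTo A N).card := (Nat.pow_le_pow_iff_left (by omega)).1 h1
  have h3 : (upTo A N).card ≤ (upTo (A \ F) N).card + F.card := by
    have : upTo A N ⊆ upTo (A \ F) N ∪ F := by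
      intro a ha
      rw [Finset.mem_union]
      by_cases haF : a ∈ F
      · exact Or.inr haF
      · exact Or.inl (mem_upTo.2 ⟨⟨(mem_upTo.1 ha).1, haF⟩, (mem_upTo.1 ha).2⟩)
    exact (Finset.card_le_card this).trans (Finset.card_union_le _ _)
  have h4 := choose_le hF N
  set a := (upTo (A \ F) N).card with ha
  have h5 : (a + 1 - k) ^ k ≤ k.factorial * a.choose k := by
    have := Nat.pow_sub_le_descFactorial a k
    rwa [Nat.descFactorial_eq_factorial_mul_choose] at this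
  have h6 : M ≤ 2 * (a + 1 - k) := by omega
  have h7 : M ^ k ≤ 2 ^ k * (a + 1 - k) ^ k := by
    rw [← mul_pow]
    exact Nat.pow_le_pow_left h6 k
  have hMh : 1 ≤ M ^ h := Nat.one_le_pow _ _ hM1
  have h8 : (k * N + 1) * c ≤ ((k * (n₀ + 1) + 1) * (c + 1)) * M ^ h := by
    have e1 : k * N + 1 ≤ (k * (n₀ + 1) + 1) * M ^ h := by
      rw [hN]
      have : k * n₀ ≤ k * n₀ * M ^ h := Nat.le_mul_of_pos_right _ hMh
      nlinarith
    calc (k * N + 1) * c ≤ ((k * (n₀ + 1) + 1) * M ^ h) * (c + 1) :=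
          Nat.mul_le_mul e1 (Nat.le_succ c)
      _ = ((k * (n₀ + 1) + 1) * (c + 1)) * M ^ h := by ring
  have h9 : M ^ k ≤ 2 ^ k * K * M ^ h := by
    calc M ^ k ≤ 2 ^ k * (a + 1 - k) ^ k := h7
      _ ≤ 2 ^ k * (k.factorial * a.choose k) := Nat.mul_le_mul_left _ h5
      _ ≤ 2 ^ k * (k.factorial * (((k * (n₀ + 1) + 1) * (c + 1)) * M ^ h)) :=
          Nat.mul_le_mul_left _ (Nat.mul_le_mul_left _ (h4.trans h8))
      _ = 2 ^ k * K * M ^ h := by rw [hK]; ring
  have h10 : M ^ (h + 1) ≤ M ^ k := Nat.pow_le_pow_right hM1 hk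
  have h11 : M * M ^ h ≤ 2 ^ k * K * M ^ h := by
    rw [mul_comm M (M ^ h), ← pow_succ]
    exact h10.trans h9
  have h12 : M ≤ 2 ^ k * K := Nat.le_of_mul_le_mul_right h11 hMh
  omega

end Pool.Agent.H601.GV
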