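import Pool.Agent.H601.GV.Basis

/-!
# `r_{A,h}` is bounded if and only if its essential maximum is finite
-/

set_option autoImplicit false

namespace Pool.Agent.H601.GV

open Finset Pool.Agent.H601

theorem rep_le_of_le {A : Set ℕ} {h c : ℕ} (hA : ∀ n, rep A h n ≤ c) {j : ℕ} (hj : j ≤ h) (n : ℕ) :
    rep A j n ≤ c + 1 := by
  classical
  rcases Set.eq_empty_or_nonempty A with h0 | ⟨a, ha⟩
  · subst h0
    have h1 : {s : Multiset ℕ | Multiset.card s = j ∧ (∀ a ∈ s, a ∈ (∅ : Set ℕ)) ∧ s.sum = n} ⊆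
        {0} := by
      rintro s ⟨_, h2, _⟩
      exact Multiset.eq_zero_of_forall_notMem fun a ha => h2 a ha
    have h2 := (Set.ncard_le_ncard h1 (Set.finite_singleton _)).trans (Set.ncard_singleton _).le
    unfold rep
    omega
  · have h1 := rep_add_le ha j (h - j) n
    rw [Nat.add_sub_cancel' hj] at h1
    have := hA (n + (h - j) * a)
    omega

theorem bounded_of_essMax {A : Set ℕ} {h : ℕ} (hA : essMax A h ≠ ⊤) :
    ∃ C, ∀ n, rep A h n ≤ C := by
  classical
  obtain ⟨c, hc⟩ : ∃ c : ℕ, essMax A h = c := ⟨_, (ENat.natCast_toNat hA).symm⟩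
  obtain ⟨F, hF⟩ := essMax_le.1 hc.le
  set T : Finset (Multiset ℕ) :=
    (Finset.range (h + 1)).biUnion (fun j => (msets_finite F j).1.toFinset) with hT
  refine ⟨T.card * (c + 1), fun n => ?_⟩
  unfold rep
  rw [Set.ncard_eq_toFinset_card _ (reps_finite A h n)]
  have h1 : (reps_finite A h n).toFinset ⊆ T.biUnion (fun t =>
      (reps_finite (A \ F) (h - Multiset.card t) (n - t.sum)).toFinset.image (fun u => t + u)) := by
    intro s hs
    rw [Set.Finite.mem_toFinset] at hs
    obtain ⟨g1, g2, g3⟩ := hs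
    have e1 : s.filter (· ∈ F) + s.filter (fun a => ¬ a ∈ F) = s :=
      Multiset.filter_add_not _ s
    have e2 : Multiset.card (s.filter (· ∈ F)) + Multiset.card (s.filter (fun a => ¬ a ∈ F)) = h := by
      rw [← Multiset.card_add, e1, g1]
    have e3 : (s.filter (· ∈ F)).sum + (s.filter (fun a => ¬ a ∈ F)).sum = n := by
      rw [← Multiset.sum_add, e1, g3]
    rw [Finset.mem_biUnion]
    refine ⟨s.filter (· ∈ F), ?_, ?_⟩
    · rw [hT, Finset.mem_biUnion]
      refine ⟨Multiset.card (s.filter (· ∈ F)), ?_, ?_⟩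
      · rw [Finset.mem_range]; omega
      · rw [Set.Finite.mem_toFinset]
        exact ⟨rfl, fun a ha => (Multiset.mem_filter.1 ha).2⟩
    · rw [Finset.mem_image]
      refine ⟨s.filter (fun a => ¬ a ∈ F), ?_, e1⟩
      rw [Set.Finite.mem_toFinset]
      refine ⟨by omega, fun a ha => ?_, by omega⟩
      obtain ⟨b1, b2⟩ := Multiset.mem_filter.1 ha
      exact ⟨g2 a b1, b2⟩
  refine (Finset.card_le_card h1).trans ?_
  refine Finset.card_biUnion_le_card_mul _ _ (c + 1) fun t _ => Finset.card_image_le.trans ?_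
  rw [← Set.ncard_eq_toFinset_card _ (reps_finite (A \ F) (h - Multiset.card t) (n - t.sum))]
  exact rep_le_of_le hF (Nat.sub_le _ _) _

theorem bounded_iff (A : Set ℕ) (h : ℕ) : (∃ C, ∀ n, rep A h n ≤ C) ↔ essMax A h ≠ ⊤ := by
  constructor
  · rintro ⟨C, hC⟩
    refine ne_top_of_le_ne_top (ENat.natCast_ne_top C) (essMax_le.2 ⟨∅, fun n => ?_⟩)
    rw [Finset.coe_empty, Set.sdiff_empty]
    exact hC n
  · exact bounded_of_essMax

end Pool.Agent.H601.GV
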