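import Mathlib

/-! Parseval on the `M`-th roots of unity -/

set_option autoImplicit false

namespace Pool.Agent.H601.GV

open Finset ComplexConjugate

theorem orth {M : ℕ} {ζ : ℂ} (hζ : IsPrimitiveRoot ζ M) (hM : M ≠ 0) {n m : ℕ} (hn : n < M)
    (hm : m < M) :
    ∑ j ∈ range M, (ζ ^ j) ^ n * conj ((ζ ^ j) ^ m) = if n = m then (M : ℂ) else 0 := by
  have h1 : ‖ζ‖ = 1 := hζ.norm'_eq_one hM
  have h0 : ζ ≠ 0 := hζ.ne_zero hM
  have hc : conj ζ = ζ⁻¹ := (Complex.inv_eq_conj h1).symm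
  have e : ∀ j, (ζ ^ j) ^ n * conj ((ζ ^ j) ^ m) = (ζ ^ n * (ζ⁻¹) ^ m) ^ j := by
    intro j
    rw [map_pow, map_pow, hc, mul_pow, ← pow_mul, ← pow_mul, ← pow_mul, ← pow_mul, mul_comm j n,
      mul_comm j m]
  rw [sum_congr rfl fun j _ => e j]
  by_cases h : n = m
  · subst h
    have : ζ ^ n * (ζ⁻¹) ^ n = 1 := by rw [← mul_pow, mul_inv_cancel₀ h0, one_pow]
    simp only [this]
    simp
  · rw [if_neg h]
    have hω : ζ ^ n * (ζ⁻¹) ^ m ≠ 1 := by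
      intro hω
      apply h
      apply hζ.pow_inj hn hm
      rw [inv_pow] at hω
      exact (mul_inv_eq_one₀ (pow_ne_zero _ h0)).1 hω
    have hωM : (ζ ^ n * (ζ⁻¹) ^ m) ^ M = 1 := by
      rw [mul_pow, ← pow_mul, ← pow_mul, mul_comm n, mul_comm m, pow_mul, pow_mul, inv_pow,
        hζ.pow_eq_one]
      simp
    have := mul_geom_sum (ζ ^ n * (ζ⁻¹) ^ m) M
    rw [hωM, sub_self, mul_eq_zero] at this
    exact this.resolve_left (sub_ne_zero.2 hω)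

theorem parseval {M : ℕ} {ζ : ℂ} (hζ : IsPrimitiveRoot ζ M) (hM : M ≠ 0) (g : ℕ → ℂ) :
    ∑ j ∈ range M, ‖∑ n ∈ range M, g n * (ζ ^ j) ^ n‖ ^ 2 = M * ∑ n ∈ range M, ‖g n‖ ^ 2 := by
  have key : ((∑ j ∈ range M, ‖∑ n ∈ range M, g n * (ζ ^ j) ^ n‖ ^ 2 : ℝ) : ℂ)
      = ((M * ∑ n ∈ range M, ‖g n‖ ^ 2 : ℝ) : ℂ) := by
    push_cast
    have e : ∀ j, ((‖∑ n ∈ range M, g n * (ζ ^ j) ^ n‖ : ℂ)) ^ 2
        = ∑ n ∈ range M, ∑ m ∈ range M, (g n * conj (g m)) * ((ζ ^ j) ^ n * conj ((ζ ^ j) ^ m)) := by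
      intro j
      rw [← Complex.mul_conj', map_sum, sum_mul_sum]
      refine sum_congr rfl fun n _ => sum_congr rfl fun m _ => ?_
      rw [map_mul]
      ring
    rw [sum_congr rfl fun j _ => e j, sum_comm, mul_sum]
    refine sum_congr rfl fun n hn => ?_
    rw [sum_comm]
    have : ∀ m ∈ range M, ∑ j ∈ range M, (g n * conj (g m)) * ((ζ ^ j) ^ n * conj ((ζ ^ j) ^ m))
        = if n = m then (M : ℂ) * (g n * conj (g n)) else 0 := by
      intro m hm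
      rw [← mul_sum, orth hζ hM (mem_range.1 hn) (mem_range.1 hm)]
      by_cases h : n = m
      · subst h; simp [mul_comm]
      · simp [h]
    rw [sum_congr rfl this, sum_ite_eq, if_pos hn, Complex.mul_conj']
  exact_mod_cast key

end Pool.Agent.H601.GV
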