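import Mathlib

/-! Powers of `∑ w ^ b` -/

set_option autoImplicit false

namespace Pool.Agent.H601.GV

open Finset

theorem map_pow_prod {R : Type*} [CommSemiring R] (w : R) (s : Multiset ℕ) :
    (s.map (fun b => w ^ b)).prod = w ^ s.sum := by
  induction s using Multiset.induction_on with
  | empty => simp
  | cons a s ih => rw [Multiset.map_cons, Multiset.prod_cons, ih, Multiset.sum_cons, pow_add]

/-- the ordered representation function of a finite set -/
noncomputable def tt (S : Finset ℕ) (h n : ℕ) : ℕ :=
  ∑ k ∈ (S.sym h).filter (fun k => k.val.sum = n), k.val.countPerms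

theorem sum_le {L h : ℕ} (s : Multiset ℕ) (hs : ∀ b ∈ s, b < L) (hc : Multiset.card s = h) :
    s.sum ≤ h * L := by
  have := Multiset.sum_le_card_nsmul s L fun b hb => (hs b hb).le
  rw [hc] at this
  simpa using this

theorem pow_eq {R : Type*} [CommSemiring R] {S : Finset ℕ} {h L M : ℕ} (hS : ∀ b ∈ S, b < L)
    (hM : h * L < M) (w : R) :
    (∑ b ∈ S, w ^ b) ^ h = ∑ n ∈ range M, (tt S h n : R) * w ^ n := by
  rw [Finset.sum_pow]
  rw [← Finset.sum_fiberwise_of_maps_to (s := S.sym h) (t := range M) (g := fun k => k.val.sum)]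
  · refine sum_congr rfl fun n _ => ?_
    unfold tt
    rw [Nat.cast_sum, sum_mul]
    refine sum_congr rfl fun k hk => ?_
    rw [mem_filter] at hk
    rw [map_pow_prod, hk.2]
  · intro k hk
    rw [mem_range]
    refine lt_of_le_of_lt (sum_le k.val (fun b hb => hS b ?_) k.2) hM
    exact Finset.mem_sym_iff.1 hk b hb

theorem countPerms_le (m : Multiset ℕ) : m.countPerms ≤ (Multiset.card m).factorial := by
  unfold Multiset.countPerms Finsupp.multinomial
  refine (Nat.div_le_self _ _).trans (le_of_eq ?_)
  congr 1
  rw [← Finsupp.card_toMultiset, Multiset.toFinsupp_toMultiset]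

theorem countPerms_pos (m : Multiset ℕ) : 1 ≤ m.countPerms := by
  unfold Multiset.countPerms
  rw [Finsupp.multinomial_eq]
  exact Nat.multinomial_pos _ _

theorem countPerms_nodup {m : Multiset ℕ} (hm : m.Nodup) :
    m.countPerms = (Multiset.card m).factorial := by
  unfold Multiset.countPerms Finsupp.multinomial
  have h1 : (m.toFinsupp.prod fun _ n => n.factorial) = 1 := by
    refine prod_eq_one fun a _ => ?_
    have : m.toFinsupp a ≤ 1 := by
      rw [Multiset.toFinsupp_apply]
      exact Multiset.nodup_iff_count_le_one.1 hm a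
    interval_cases h : m.toFinsupp a <;> rfl
  rw [h1, Nat.div_one]
  congr 1
  rw [← Finsupp.card_toMultiset, Multiset.toFinsupp_toMultiset]

end Pool.Agent.H601.GV
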