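import Pool.Agent.H601.GV.Fa
import Pool.Agent.H601.GV.Fb

/-! The main inequality -/

set_option autoImplicit false

namespace Pool.Agent.H601.GV

open Finset ComplexConjugate

/-- the coefficients of `(1 - z) ∑ (x z) ^ b` -/
noncomputable def gg (S : Finset ℕ) (x : ℝ) (n : ℕ) : ℝ :=
  (if n ∈ S then x ^ n else 0) - (if 1 ≤ n ∧ n - 1 ∈ S then x ^ (n - 1) else 0)

theorem gg_eq {S : Finset ℕ} {L M' : ℕ} (hS : ∀ b ∈ S, b < L) (hM : L ≤ M') (x : ℝ) (z : ℂ) :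
    (1 - z) * ∑ b ∈ S, ((x : ℂ) * z) ^ b = ∑ n ∈ range (M' + 1), ((gg S x n : ℝ) : ℂ) * z ^ n := by
  have hsub : ∀ K, L ≤ K → S ⊆ range K := fun K hK b hb =>
    mem_range.2 (lt_of_lt_of_le (hS b hb) hK)
  have e1 : ∀ K, L ≤ K → ∀ F : ℕ → ℂ, ∑ n ∈ range K, (if n ∈ S then F n else 0) = ∑ b ∈ S, F b := by
    intro K hK F
    rw [← sum_filter]
    congr 1
    ext b
    simp only [mem_filter, and_iff_right_iff_imp]
    exact fun hb => hsub K hK hb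
  have e2 : ∀ n, ((gg S x n : ℝ) : ℂ) * z ^ n
      = (if n ∈ S then ((x : ℂ) * z) ^ n else 0)
        - (if 1 ≤ n ∧ n - 1 ∈ S then (x : ℂ) ^ (n - 1) * z ^ n else 0) := by
    intro n
    unfold gg
    push_cast
    split_ifs <;> simp [mul_pow] <;> ring
  rw [sum_congr rfl fun n _ => e2 n, sum_sub_distrib, e1 _ (by omega), sum_range_succ']
  simp only [Nat.add_sub_cancel, show ¬ (1 ≤ 0 ∧ 0 - 1 ∈ S) by omega, if_false, add_zero,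
    show ∀ n, 1 ≤ n + 1 by omega, true_and]
  rw [e1 _ hM, sub_mul, one_mul, mul_sum]
  congr 1
  refine sum_congr rfl fun b _ => ?_
  rw [mul_pow, pow_succ]
  ring

theorem gg_lower {S : Finset ℕ} {L M : ℕ} (hS : ∀ b ∈ S, b < L) (hM : L ≤ M) {x : ℝ} (hx : 0 ≤ x)
    (hx1 : x ≤ 1)
    (hP : ∀ n m, n ∈ S → n + 1 ∈ S → m ∈ S → m + 1 ∈ S → n = m) :
    ∑ b ∈ S, x ^ (2 * b) ≤ ∑ n ∈ range M, gg S x n ^ 2 + 1 := by
  have hsub : S ⊆ range M := fun b hb => mem_range.2 (lt_of_lt_of_le (hS b hb) hM)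
  rw [← sum_filter_add_sum_filter_not S (fun n => ¬ (1 ≤ n ∧ n - 1 ∈ S))]
  refine add_le_add ?_ ?_
  · calc ∑ b ∈ S with ¬ (1 ≤ b ∧ b - 1 ∈ S), x ^ (2 * b)
        = ∑ b ∈ S with ¬ (1 ≤ b ∧ b - 1 ∈ S), gg S x b ^ 2 := by
          refine sum_congr rfl fun b hb => ?_
          rw [mem_filter] at hb
          unfold gg
          rw [if_pos hb.1, if_neg hb.2, sub_zero, ← pow_mul, mul_comm]
      _ ≤ _ := by
          apply sum_le_sum_of_subset_of_nonneg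
          · exact (filter_subset _ _).trans hsub
          · intros; positivity
  · have hcard : (S.filter (fun n => ¬ ¬ (1 ≤ n ∧ n - 1 ∈ S))).card ≤ 1 := by
      rw [card_le_one]
      intro a ha b hb
      rw [mem_filter, not_not] at ha hb
      have := hP (a - 1) (b - 1) ha.2.2 (by rw [Nat.sub_add_cancel ha.2.1]; exact ha.1) hb.2.2
        (by rw [Nat.sub_add_cancel hb.2.1]; exact hb.1)
      omega
    calc ∑ b ∈ S with ¬ ¬ (1 ≤ b ∧ b - 1 ∈ S), x ^ (2 * b)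
        ≤ ∑ b ∈ S with ¬ ¬ (1 ≤ b ∧ b - 1 ∈ S), (1 : ℝ) :=
          sum_le_sum fun b _ => pow_le_one₀ hx hx1
      _ ≤ 1 := by
          rw [sum_const, nsmul_eq_mul, mul_one]
          exact_mod_cast hcard

/-- the pointwise upper bound -/
theorem upper_pt {S : Finset ℕ} {h L M : ℕ} (hS : ∀ b ∈ S, b < L) (hM : h * L < M) (hLM : L ≤ M)
    {x c : ℝ} (hx : 0 ≤ x) (hx1 : x < 1) (hc : 0 ≤ c) {z : ℂ} (hz : ‖z‖ = 1) :
    ‖1 - z‖ ^ 2 * ‖∑ b ∈ S, ((x : ℂ) * z) ^ b‖ ^ h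
      ≤ 8 * c + 4 * ‖∑ n ∈ range M, ((if n < L then ((tt S h n : ℝ) - c) * x ^ n else 0 : ℝ) : ℂ)
          * z ^ n‖ + 4 * ∑ n ∈ Ico L M, (tt S h n : ℝ) * x ^ n := by
  have hw : ‖1 - z‖ ≤ 2 := by
    calc ‖1 - z‖ ≤ ‖(1 : ℂ)‖ + ‖z‖ := norm_sub_le _ _
      _ = 2 := by rw [hz, norm_one]; norm_num
  have hw4 : ‖1 - z‖ ^ 2 ≤ 4 := by nlinarith [norm_nonneg (1 - z)]
  have hxz : ‖(x : ℂ) * z‖ = x := by
    rw [norm_mul, hz, mul_one, Complex.norm_real, Real.norm_of_nonneg hx]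
  -- the geometric sum
  have hgeo : ‖1 - z‖ ^ 2 * ‖∑ n ∈ range L, ((x : ℂ) * z) ^ n‖ ≤ 8 := by
    have h1 : ‖1 - z‖ ≤ 2 * ‖1 - (x : ℂ) * z‖ := by
      have a1 : 1 - x ≤ ‖1 - (x : ℂ) * z‖ := by
        have := norm_sub_norm_le (1 : ℂ) ((x : ℂ) * z)
        rw [norm_one, hxz] at this
        exact this
      have a2 : ‖1 - z‖ ≤ ‖1 - (x : ℂ) * z‖ + (1 - x) := by
        have e : (1 : ℂ) - z = (1 - (x : ℂ) * z) - ((1 - x : ℝ) : ℂ) * z := by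
          push_cast; ring
        rw [e]
        refine (norm_sub_le _ _).trans ?_
        rw [norm_mul, hz, mul_one, Complex.norm_real, Real.norm_of_nonneg (by linarith)]
      linarith
    have h2 : ‖1 - (x : ℂ) * z‖ * ‖∑ n ∈ range L, ((x : ℂ) * z) ^ n‖ ≤ 2 := by
      rw [← norm_mul, mul_neg_geom_sum]
      refine (norm_sub_le _ _).trans ?_
      rw [norm_one, norm_pow, hxz]
      have := pow_le_one₀ hx hx1.le (n := L)
      linarith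
    calc ‖1 - z‖ ^ 2 * ‖∑ n ∈ range L, ((x : ℂ) * z) ^ n‖
        = ‖1 - z‖ * (‖1 - z‖ * ‖∑ n ∈ range L, ((x : ℂ) * z) ^ n‖) := by ring
      _ ≤ 2 * (2 * ‖1 - (x : ℂ) * z‖ * ‖∑ n ∈ range L, ((x : ℂ) * z) ^ n‖) := by gcongr
      _ = 4 * (‖1 - (x : ℂ) * z‖ * ‖∑ n ∈ range L, ((x : ℂ) * z) ^ n‖) := by ring
      _ ≤ 8 := by linarith
  have hdec : (∑ b ∈ S, ((x : ℂ) * z) ^ b) ^ h
      = (c : ℂ) * ∑ n ∈ range L, ((x : ℂ) * z) ^ n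
        + ∑ n ∈ range M, ((if n < L then ((tt S h n : ℝ) - c) * x ^ n else 0 : ℝ) : ℂ) * z ^ n
        + ∑ n ∈ Ico L M, (tt S h n : ℂ) * ((x : ℂ) * z) ^ n := by
    rw [pow_eq hS hM, ← sum_range_add_sum_Ico _ hLM]
    congr 1
    rw [← sum_range_add_sum_Ico (fun n => ((if n < L then ((tt S h n : ℝ) - c) * x ^ n else 0 : ℝ) : ℂ)
      * z ^ n) hLM]
    have e0 : ∑ n ∈ Ico L M, ((if n < L then ((tt S h n : ℝ) - c) * x ^ n else 0 : ℝ) : ℂ)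
        * z ^ n = 0 := by
      refine sum_eq_zero fun n hn => ?_
      rw [if_neg (by rw [mem_Ico] at hn; omega)]
      simp
    rw [e0, add_zero, mul_sum, ← sum_add_distrib]
    refine sum_congr rfl fun n hn => ?_
    rw [if_pos (mem_range.1 hn), mul_pow]
    push_cast
    ring
  rw [← norm_pow (∑ b ∈ S, ((x : ℂ) * z) ^ b) h, hdec]
  set U := (c : ℂ) * ∑ n ∈ range L, ((x : ℂ) * z) ^ n with hU
  set V := ∑ n ∈ range M, ((if n < L then ((tt S h n : ℝ) - c) * x ^ n else 0 : ℝ) : ℂ) * z ^ n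
    with hV
  set W := ∑ n ∈ Ico L M, (tt S h n : ℂ) * ((x : ℂ) * z) ^ n with hW
  have h3 : ‖U + V + W‖ ≤ ‖U‖ + ‖V‖ + ‖W‖ := norm_add₃_le
  have h4 : ‖1 - z‖ ^ 2 * ‖U‖ ≤ 8 * c := by
    rw [hU, norm_mul, Complex.norm_real, Real.norm_of_nonneg hc]
    calc _ = c * (‖1 - z‖ ^ 2 * ‖∑ n ∈ range L, ((x : ℂ) * z) ^ n‖) := by ring
      _ ≤ c * 8 := by gcongr
      _ = _ := by ring
  have h5 : ‖W‖ ≤ ∑ n ∈ Ico L M, (tt S h n : ℝ) * x ^ n := by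
    refine (norm_sum_le _ _).trans (sum_le_sum fun n _ => ?_)
    rw [norm_mul, norm_pow, hxz]
    simp
  calc ‖1 - z‖ ^ 2 * ‖U + V + W‖ ≤ ‖1 - z‖ ^ 2 * (‖U‖ + ‖V‖ + ‖W‖) := by gcongr
    _ = ‖1 - z‖ ^ 2 * ‖U‖ + ‖1 - z‖ ^ 2 * ‖V‖ + ‖1 - z‖ ^ 2 * ‖W‖ := by ring
    _ ≤ 8 * c + 4 * ‖V‖ + 4 * ∑ n ∈ Ico L M, (tt S h n : ℝ) * x ^ n := by
        refine add_le_add (add_le_add h4 ?_) ?_
        · gcongr
        · calc ‖1 - z‖ ^ 2 * ‖W‖ ≤ 4 * ‖W‖ := by gcongr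
            _ ≤ _ := by linarith

theorem lower_pt {w u T : ℝ} (hw : 0 ≤ w) (hw4 : w ≤ 4) (hu : 0 ≤ u) (hT : 0 ≤ T) {h : ℕ}
    (hh : 2 ≤ h) : T ^ (h - 2) * (w * u ^ 2 - 4 * T ^ 2) ≤ w * u ^ h := by
  have e : h = (h - 2) + 2 := by omega
  rcases le_total T u with h1 | h1
  · have h2 : T ^ (h - 2) * u ^ 2 ≤ u ^ h := by
      calc T ^ (h - 2) * u ^ 2 ≤ u ^ (h - 2) * u ^ 2 := by gcongr
        _ = u ^ h := by rw [← pow_add, ← e]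
    have h3 : 0 ≤ T ^ (h - 2) * (4 * T ^ 2) := by positivity
    nlinarith
  · have h2 : w * u ^ 2 ≤ 4 * T ^ 2 := by gcongr
    have h3 : T ^ (h - 2) * (w * u ^ 2 - 4 * T ^ 2) ≤ 0 :=
      mul_nonpos_of_nonneg_of_nonpos (by positivity) (by linarith)
    have h4 : 0 ≤ w * u ^ h := by positivity
    linarith

end Pool.Agent.H601.GV
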