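import Pool.Agent.H601.GV.Fc

/-! Averaging over the roots of unity -/

set_option autoImplicit false

namespace Pool.Agent.H601.GV

open Finset ComplexConjugate

theorem avg_ineq {S : Finset ℕ} {h L M' : ℕ} (hh : 2 ≤ h) (hS : ∀ b ∈ S, b < L)
    (hM : h * L < M' + 1) (hL : L ≤ M') {x c T : ℝ} (hx : 0 ≤ x) (hx1 : x < 1) (hc : 0 ≤ c)
    (hT : 0 ≤ T) (hTs : 8 * T ^ 2 ≤ ∑ n ∈ range (M' + 1), gg S x n ^ 2) :
    4 * T ^ h ≤ 8 * c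
      + 4 * √(∑ n ∈ range (M' + 1), (if n < L then ((tt S h n : ℝ) - c) * x ^ n else 0) ^ 2)
      + 4 * ∑ n ∈ Ico L (M' + 1), (tt S h n : ℝ) * x ^ n := by
  have hM0 : M' + 1 ≠ 0 := by omega
  obtain ⟨ζ, hζ⟩ : ∃ ζ : ℂ, IsPrimitiveRoot ζ (M' + 1) :=
    ⟨_, Complex.isPrimitiveRoot_exp (M' + 1) hM0⟩
  have h1 : ‖ζ‖ = 1 := hζ.norm'_eq_one hM0
  have hz : ∀ j, ‖ζ ^ j‖ = 1 := fun j => by rw [norm_pow, h1, one_pow]
  have hMpos : (0 : ℝ) < ((M' + 1 : ℕ) : ℝ) := by positivity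
  set D := ∑ n ∈ range (M' + 1), (if n < L then ((tt S h n : ℝ) - c) * x ^ n else 0) ^ 2 with hD
  set R := ∑ n ∈ Ico L (M' + 1), (tt S h n : ℝ) * x ^ n with hR
  have hD0 : 0 ≤ D := sum_nonneg fun _ _ => sq_nonneg _
  -- lower bound
  have hlow : ((M' + 1 : ℕ) : ℝ) * (4 * T ^ h)
      ≤ ∑ j ∈ range (M' + 1), ‖1 - ζ ^ j‖ ^ 2 * ‖∑ b ∈ S, ((x : ℂ) * ζ ^ j) ^ b‖ ^ h := by
    have e1 : ∑ j ∈ range (M' + 1), ‖1 - ζ ^ j‖ ^ 2 * ‖∑ b ∈ S, ((x : ℂ) * ζ ^ j) ^ b‖ ^ 2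
        = ((M' + 1 : ℕ) : ℝ) * ∑ n ∈ range (M' + 1), gg S x n ^ 2 := by
      have := parseval hζ hM0 (fun n => ((gg S x n : ℝ) : ℂ))
      have e : ∀ n, ‖((gg S x n : ℝ) : ℂ)‖ ^ 2 = gg S x n ^ 2 := by
        intro n
        rw [Complex.norm_real, Real.norm_eq_abs, sq_abs]
      rw [sum_congr rfl fun n _ => e n] at this
      rw [← this]
      refine sum_congr rfl fun j _ => ?_
      rw [← mul_pow, ← norm_mul, gg_eq hS hL]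
    have e2 : ∑ j ∈ range (M' + 1), T ^ (h - 2)
        * (‖1 - ζ ^ j‖ ^ 2 * ‖∑ b ∈ S, ((x : ℂ) * ζ ^ j) ^ b‖ ^ 2 - 4 * T ^ 2)
        ≤ ∑ j ∈ range (M' + 1), ‖1 - ζ ^ j‖ ^ 2 * ‖∑ b ∈ S, ((x : ℂ) * ζ ^ j) ^ b‖ ^ h := by
      refine sum_le_sum fun j _ => ?_
      refine lower_pt (by positivity) ?_ (norm_nonneg _) hT hh
      have hw : ‖1 - ζ ^ j‖ ≤ 2 := by
        calc ‖1 - ζ ^ j‖ ≤ ‖(1 : ℂ)‖ + ‖ζ ^ j‖ := norm_sub_le _ _
          _ = 2 := by rw [hz, norm_one]; norm_num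
      nlinarith [norm_nonneg (1 - ζ ^ j)]
    refine le_trans ?_ e2
    rw [← mul_sum, sum_sub_distrib, e1, sum_const, card_range, nsmul_eq_mul]
    have e3 : T ^ h = T ^ (h - 2) * T ^ 2 := by rw [← pow_add]; congr 1; omega
    rw [e3]
    have e4 : 0 ≤ T ^ (h - 2) := by positivity
    calc ((M' + 1 : ℕ) : ℝ) * (4 * (T ^ (h - 2) * T ^ 2))
        = T ^ (h - 2) * (((M' + 1 : ℕ) : ℝ) * (8 * T ^ 2) - ((M' + 1 : ℕ) : ℝ) * (4 * T ^ 2)) := by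
          ring
      _ ≤ _ := by gcongr
  -- upper bound
  have hup : ∑ j ∈ range (M' + 1), ‖1 - ζ ^ j‖ ^ 2 * ‖∑ b ∈ S, ((x : ℂ) * ζ ^ j) ^ b‖ ^ h
      ≤ ((M' + 1 : ℕ) : ℝ) * (8 * c + 4 * √D + 4 * R) := by
    have e1 : ∑ j ∈ range (M' + 1), ‖1 - ζ ^ j‖ ^ 2 * ‖∑ b ∈ S, ((x : ℂ) * ζ ^ j) ^ b‖ ^ h
        ≤ ∑ j ∈ range (M' + 1), (8 * c + 4 * ‖∑ n ∈ range (M' + 1),
          ((if n < L then ((tt S h n : ℝ) - c) * x ^ n else 0 : ℝ) : ℂ) * (ζ ^ j) ^ n‖ + 4 * R) :=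
      sum_le_sum fun j _ => upper_pt hS hM (by omega) hx hx1 hc (hz j)
    refine e1.trans ?_
    rw [sum_add_distrib, sum_add_distrib, sum_const, sum_const, card_range,
      nsmul_eq_mul, nsmul_eq_mul, ← mul_sum]
    set E := ∑ j ∈ range (M' + 1), ‖∑ n ∈ range (M' + 1),
          ((if n < L then ((tt S h n : ℝ) - c) * x ^ n else 0 : ℝ) : ℂ) * (ζ ^ j) ^ n‖ with hE
    have hE1 : E ≤ ((M' + 1 : ℕ) : ℝ) * √D := by
      have a1 : E ^ 2 ≤ (((M' + 1 : ℕ) : ℝ) * √D) ^ 2 := by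
        have := sq_sum_le_card_mul_sum_sq (s := range (M' + 1)) (f := fun j =>
          ‖∑ n ∈ range (M' + 1),
          ((if n < L then ((tt S h n : ℝ) - c) * x ^ n else 0 : ℝ) : ℂ) * (ζ ^ j) ^ n‖)
        rw [parseval hζ hM0, card_range] at this
        rw [mul_pow, Real.sq_sqrt hD0]
        refine this.trans (le_of_eq ?_)
        have e : ∀ n, ‖((if n < L then ((tt S h n : ℝ) - c) * x ^ n else 0 : ℝ) : ℂ)‖ ^ 2
            = (if n < L then ((tt S h n : ℝ) - c) * x ^ n else 0) ^ 2 := by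
          intro n
          rw [Complex.norm_real, Real.norm_eq_abs, sq_abs]
        rw [sum_congr rfl fun n _ => e n, hD]
        ring
      exact (abs_le_of_sq_le_sq' a1 (by positivity)).2
    nlinarith
  have := hlow.trans hup
  exact le_of_mul_le_mul_left this hMpos

end Pool.Agent.H601.GV
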