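import Pool.Agent.H601.GV.Low

/-!
# Essential maxima of the representation functions
-/

set_option autoImplicit false

namespace Pool.Agent.H601.GV

open Finset Pool.Agent.H601

/-- the essential maximum of `r_{A,k}`: the least upper bound of its values which the removal of
finitely many elements of `A` cannot lower -/
noncomputable def essMax (A : Set ℕ) (k : ℕ) : ℕ∞ :=
  ⨅ F : Finset ℕ, ⨆ n : ℕ, (rep (A \ F) k n : ℕ∞)

theorem le_essMax {A : Set ℕ} {k g : ℕ} : (g : ℕ∞) ≤ essMax A k ↔ Ess A k g := by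
  constructor
  · intro h F
    by_contra hno
    push Not at hno
    have h1 : (g : ℕ∞) ≤ ⨆ n : ℕ, (rep (A \ F) k n : ℕ∞) := h.trans (iInf_le _ F)
    have hg : g ≠ 0 := by
      intro h0
      have := hno 0
      omega
    have h2 : (⨆ n : ℕ, (rep (A \ F) k n : ℕ∞)) ≤ ((g - 1 : ℕ) : ℕ∞) := by
      refine iSup_le fun n => ?_
      have := hno n
      exact_mod_cast (show rep (A \ F) k n ≤ g - 1 by omega)
    have h3 := h1.trans h2
    have h4 : g ≤ g - 1 := by exact_mod_cast h3
    omega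
  · intro h
    refine le_iInf fun F => ?_
    obtain ⟨n, hn⟩ := h F
    exact le_iSup_of_le n (by exact_mod_cast hn)

theorem essMax_le {A : Set ℕ} {k g : ℕ} :
    essMax A k ≤ g ↔ ∃ F : Finset ℕ, ∀ n, rep (A \ F) k n ≤ g := by
  constructor
  · intro h
    by_contra hno
    push Not at hno
    have h1 : ((g + 1 : ℕ) : ℕ∞) ≤ essMax A k :=
      le_essMax.2 (fun F => (hno F).imp fun n hn => hn)
    have h2 := h1.trans h
    have h3 : g + 1 ≤ g := by exact_mod_cast h2
    omega
  · rintro ⟨F, hF⟩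
    refine (iInf_le _ F).trans (iSup_le fun n => ?_)
    exact_mod_cast hF n

theorem enat_mul_le {x y z : ℕ∞} (h : ∀ a b : ℕ, (a : ℕ∞) ≤ x → (b : ℕ∞) ≤ y →
    ((a * b : ℕ) : ℕ∞) ≤ z) : x * y ≤ z := by
  induction z using ENat.recTopCoe with
  | top => exact le_top
  | coe c =>
    induction x using ENat.recTopCoe with
    | top =>
      induction y using ENat.recTopCoe with
      | top =>
        have h1 := h (c + 1) 1 le_top le_top
        have h2 : (c + 1) * 1 ≤ c := by exact_mod_cast h1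
        omega
      | coe b =>
        rcases Nat.eq_zero_or_pos b with h0 | h0
        · rw [h0]
          simp
        · have h1 := h (c + 1) b le_top le_rfl
          have h2 : (c + 1) * b ≤ c := by exact_mod_cast h1
          nlinarith
    | coe a =>
      induction y using ENat.recTopCoe with
      | top =>
        rcases Nat.eq_zero_or_pos a with h0 | h0
        · rw [h0]
          simp
        · have h1 := h a (c + 1) le_rfl le_top
          have h2 : a * (c + 1) ≤ c := by exact_mod_cast h1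
          nlinarith
      | coe b => exact_mod_cast h a b le_rfl le_rfl

theorem enat_le {x y : ℕ∞} (h : ∀ a : ℕ, (a : ℕ∞) ≤ x → (a : ℕ∞) ≤ y) : x ≤ y := by
  induction x using ENat.recTopCoe with
  | top =>
    rw [top_le_iff, ENat.eq_top_iff_forall_ge]
    exact fun m => h m le_top
  | coe a => exact h a le_rfl

theorem essMax_mul (A : Set ℕ) (k l : ℕ) : essMax A k * essMax A l ≤ essMax A (k + l) :=
  enat_mul_le fun _ _ ha hb => le_essMax.2 (ess_mul (le_essMax.1 ha) (le_essMax.1 hb))

theorem infinite_of_ess {A : Set ℕ} {k : ℕ} (hk : 1 ≤ k) (h : Ess A k 1) : A.Infinite := by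
  intro hfin
  obtain ⟨n, hn⟩ := h hfin.toFinset
  rw [Set.Finite.coe_toFinset, Set.sdiff_self] at hn
  obtain ⟨a, ha, _⟩ := exists_mem_of_rep_pos hk hn
  exact ha

theorem ess_of_infinite {A : Set ℕ} (hA : A.Infinite) (l : ℕ) : Ess A l 1 := by
  intro F
  obtain ⟨a, ha⟩ := (hA.sdiff F.finite_toSet).nonempty
  refine ⟨0 + l * a, ?_⟩
  have h2 := rep_add_le ha 0 l 0
  rw [zero_add] at h2
  refine le_trans ?_ h2
  unfold rep
  rw [Nat.one_le_iff_ne_zero, ← Nat.pos_iff_ne_zero, Set.ncard_pos (reps_finite _ _ _)]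
  exact ⟨0, by simp⟩

theorem rep_one_le (A : Set ℕ) (n : ℕ) : rep A 1 n ≤ 1 := by
  unfold rep
  have h1 : {s : Multiset ℕ | Multiset.card s = 1 ∧ (∀ a ∈ s, a ∈ A) ∧ s.sum = n} ⊆ {{n}} := by
    rintro s ⟨h1, _, h3⟩
    obtain ⟨a, rfl⟩ := Multiset.card_eq_one.1 h1
    rw [Multiset.sum_singleton] at h3
    rw [h3]
    rfl
  exact (Set.ncard_le_ncard h1 (Set.finite_singleton _)).trans (Set.ncard_singleton _).le

theorem essMax_one {A : Set ℕ} (hA : A.Infinite) : essMax A 1 = 1 := by
  apply le_antisymm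
  · have h : essMax A 1 ≤ ((1 : ℕ) : ℕ∞) := essMax_le.2 ⟨∅, fun n => rep_one_le _ n⟩
    simpa using h
  · have h : ((1 : ℕ) : ℕ∞) ≤ essMax A 1 := le_essMax.2 (ess_of_infinite hA 1)
    simpa using h

/-- bounded representation functions of order `h` -/
theorem essMax_pow_le {A : Set ℕ} {h k C n₀ : ℕ} (hk : 1 ≤ k) (hkh : k ≤ h)
    (hA : ∀ n, n₀ ≤ n → rep A h n ≤ C) : essMax A k ^ (h / k) ≤ C := by
  have hpos : 1 ≤ h / k := (Nat.one_le_div_iff (by omega)).2 hkh
  have hC : essMax A k ≤ (C : ℕ∞) := by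
    refine essMax_le.2 (almost hk hkh ?_ hA)
    calc C < C + 1 := Nat.lt_succ_self C
      _ = (C + 1) ^ 1 := (pow_one _).symm
      _ ≤ (C + 1) ^ (h / k) := Nat.pow_le_pow_right (by omega) hpos
  obtain ⟨g, hg⟩ : ∃ g : ℕ, essMax A k = g :=
    ⟨_, (ENat.natCast_toNat (ne_top_of_le_ne_top (ENat.natCast_ne_top C) hC)).symm⟩
  rw [hg]
  have h2 : Ess A k g := le_essMax.1 hg.ge
  by_cases hg0 : g = 0
  · rw [hg0]
    simp only [Nat.cast_zero]
    rw [zero_pow (by omega)]
    exact zero_le
  · have h3 := ess_mul (ess_pow hk (by omega) h2 (h / k))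
      (ess_one hk (by omega) h2 (h - k * (h / k)))
    rw [Nat.add_sub_cancel' (Nat.mul_div_le h k), mul_one] at h3
    obtain ⟨n, h4, h5⟩ := ess_unb (by omega) (Nat.one_le_pow _ _ (by omega)) h3 n₀
    exact_mod_cast h5.trans (hA n h4)

/-- every supermultiplicative sequence occurs -/
theorem realize (γ : ℕ → ℕ∞) (h1 : γ 1 = 1)
    (hmul : ∀ k l, 1 ≤ k → 1 ≤ l → γ k * γ l ≤ γ (k + l)) :
    ∃ A : Set ℕ, A.Infinite ∧ ∀ k, 1 ≤ k → essMax A k = γ k := by
  classical
  have hpos : ∀ k, 1 ≤ k → 1 ≤ γ k := by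
    intro k hk
    induction k, hk using Nat.le_induction with
    | base => exact h1.ge
    | succ k hk ih =>
      have h2 := hmul k 1 hk le_rfl
      rw [h1, mul_one] at h2
      exact ih.trans h2
  have hfinite : ∀ k, γ k ≠ ⊤ → ∀ m, 1 ≤ m → m ≤ k → γ m ≠ ⊤ := by
    intro k hk m hm hmk
    rcases Nat.eq_or_lt_of_le hmk with h0 | h0
    · rw [h0]; exact hk
    · have h2 := hmul m (k - m) hm (by omega)
      rw [Nat.add_sub_cancel' hmk] at h2
      have h3 : γ m ≤ γ m * γ (k - m) := by
        calc γ m = γ m * 1 := (mul_one _).symm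
          _ ≤ γ m * γ (k - m) := mul_le_mul_right (hpos (k - m) (by omega)) _
      exact ne_top_of_le_ne_top hk (h3.trans h2)
  set κ : ℕ → ℕ := fun i => (Nat.unpair i).1 + 1 with hκdef
  set G : ℕ → ℕ := fun i => (min (γ (κ i)) ((i + 1 : ℕ) : ℕ∞)).toNat with hGdef
  set B : ℕ → ℕ := fun i => 2 * κ i * (i + 1) + κ i + 1 with hBdef
  have hκ1 : ∀ i, 1 ≤ κ i := fun i => by rw [hκdef]; simp
  have hκ : ∀ i, 1 ≤ κ i ∧ κ i < B i := by
    intro i
    refine ⟨hκ1 i, ?_⟩
    rw [hBdef]
    simp only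
    omega
  have hGc : ∀ i, (G i : ℕ∞) = min (γ (κ i)) ((i + 1 : ℕ) : ℕ∞) := by
    intro i
    rw [hGdef]
    simp only
    apply ENat.natCast_toNat
    exact ne_top_of_le_ne_top (ENat.natCast_ne_top (i + 1)) (min_le_right _ _)
  have hess : ∀ k, 1 ≤ k → ∀ a : ℕ, (a : ℕ∞) ≤ γ k → Ess (GA B G κ 0) k a := by
    intro k hk a ha F
    set i := Nat.pair (k - 1) (F.sup id + 1 + a) with hi
    have h2 : κ i = k := by
      rw [hκdef]
      simp only
      rw [hi, Nat.unpair_pair]
      simp only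
      omega
    have h3 : F.sup id + 1 + a ≤ i := Nat.right_le_pair _ _
    have h4 := le_rep_GA (G := G) (i₀ := 0) hκ F i (by omega) (Nat.zero_le i) (by
      intro h5
      have h6 : (G i : ℕ∞) ≤ ((1 : ℕ) : ℕ∞) := by
        rw [hGc, h5, h1]
        simp
      exact_mod_cast h6)
    rw [h2] at h4
    refine ⟨_, le_trans ?_ h4⟩
    have h6 : (a : ℕ∞) ≤ (G i : ℕ∞) := by
      rw [hGc, h2]
      refine le_min ha ?_
      exact_mod_cast (show a ≤ i + 1 by omega)
    exact_mod_cast h6
  refine ⟨GA B G κ 0, infinite_of_ess le_rfl (hess 1 le_rfl 1 (by rw [h1]; simp)), ?_⟩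
  intro k hk
  apply le_antisymm
  · by_cases htop : γ k = ⊤
    · rw [htop]; exact le_top
    · obtain ⟨c, hc⟩ : ∃ c : ℕ, γ k = c := ⟨_, (ENat.natCast_toNat htop).symm⟩
      rw [hc]
      refine essMax_le.2 ?_
      -- the elements of the blocks before the block k
      have hF : (ww B G κ '' {p | p.1 < k ∧ p.2.1 < G p.1}).Finite := by
        apply Set.Finite.image
        refine (Finset.finite_toSet (Finset.range k ×ˢ
          (Finset.range (∑ i ∈ Finset.range k, G i) ×ˢ (Finset.univ : Finset Bool)))).subset ?_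
        rintro p ⟨q1, q2⟩
        rw [Finset.mem_coe, Finset.mem_product, Finset.mem_product, Finset.mem_range (m := p.2.1)]
        have q3 : p.1 ∈ Finset.range k := Finset.mem_range.2 q1
        exact ⟨q3, lt_of_lt_of_le q2
          (Finset.single_le_sum (f := G) (fun _ _ => Nat.zero_le _) q3), Finset.mem_univ _⟩
      refine ⟨hF.toFinset, fun n => ?_⟩
      have hsub : GA B G κ 0 \ (hF.toFinset : Set ℕ) ⊆ GA B G κ k := by
        rintro a ⟨⟨p, hp, rfl⟩, ha⟩
        refine ⟨p, ⟨?_, hp.2⟩, rfl⟩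
        by_contra hlt
        apply ha
        rw [Set.Finite.coe_toFinset]
        exact ⟨p, ⟨by omega, hp.2⟩, rfl⟩
      refine (rep_mono hsub k n).trans ?_
      have h2 := rep_GA (G := G) (i₀ := k) (h := k) hκ (by
          intro i hi
          rw [hBdef]
          simp only
          have : 2 * κ i * k ≤ 2 * κ i * (i + 1) := Nat.mul_le_mul_left _ (by omega)
          omega)
        (fun m => if m = 0 then 1 else (γ m).toNat) (by
          intro m hm
          rcases Nat.eq_zero_or_pos m with h0 | h0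
          · rw [h0]; simp
          · rw [if_neg (by omega)]
            have h3 := ENat.natCast_toNat (hfinite k htop m h0 hm)
            have h4 := hpos m h0
            rw [← h3] at h4
            exact_mod_cast h4) (by
          intro i m him
          have hki := hκ1 i
          rw [if_neg (show κ i + m ≠ 0 by omega)]
          have h3 := ENat.natCast_toNat (hfinite k htop (κ i + m) (by omega) him)
          have h4 : (G i : ℕ∞) ≤ γ (κ i) := by rw [hGc]; exact min_le_left _ _
          rcases Nat.eq_zero_or_pos m with h0 | h0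
          · rw [h0] at h3 ⊢
            rw [if_pos rfl, mul_one]
            rw [add_zero] at h3 ⊢
            rw [← h3] at h4
            exact_mod_cast h4
          · rw [if_neg (by omega)]
            have h5 := ENat.natCast_toNat (hfinite k htop m h0 (by omega))
            have h6 : ((G i * (γ m).toNat : ℕ) : ℕ∞) ≤ ((γ (κ i + m)).toNat : ℕ∞) := by
              rw [h3]
              push_cast
              rw [h5]
              exact (mul_le_mul_left h4 _).trans (hmul (κ i) m hki h0)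
            exact_mod_cast h6) n
      rw [if_neg (show k ≠ 0 by omega), hc] at h2
      simpa using h2
  · exact enat_le fun a ha => le_essMax.2 (hess k hk a ha)

/-- the sequences of the essential maxima -/
theorem essMax_iff (γ : ℕ → ℕ∞) :
    (∃ A : Set ℕ, A.Infinite ∧ ∀ k, 1 ≤ k → essMax A k = γ k) ↔
      (γ 1 = 1 ∧ ∀ k l, 1 ≤ k → 1 ≤ l → γ k * γ l ≤ γ (k + l)) := by
  constructor
  · rintro ⟨A, hA, hE⟩
    refine ⟨by rw [← hE 1 le_rfl]; exact essMax_one hA, ?_⟩
    intro k l hk hl
    rw [← hE k hk, ← hE l hl, ← hE (k + l) (by omega)]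
    exact essMax_mul A k l
  · rintro ⟨h1, hmul⟩
    exact realize γ h1 hmul

/-- the sharp threshold -/
theorem threshold {h k g C : ℕ} (hk : 2 ≤ k) (hkh : k ≤ h) :
    (∀ A : Set ℕ, (∃ n₀, ∀ n, n₀ ≤ n → rep A h n ≤ C) → essMax A k ≤ g) ↔
      C < (g + 1) ^ (h / k) := by
  constructor
  · intro hall
    by_contra hC
    push Not at hC
    obtain ⟨A, _, e2⟩ := realize (fun m => (((g + 1) ^ (m / k) : ℕ) : ℕ∞))
      (by
        show (((g + 1) ^ (1 / k) : ℕ) : ℕ∞) = 1
        rw [Nat.div_eq_of_lt (by omega), pow_zero]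
        rfl)
      (by
        intro a b _ _
        show (((g + 1) ^ (a / k) : ℕ) : ℕ∞) * (((g + 1) ^ (b / k) : ℕ) : ℕ∞) ≤
          (((g + 1) ^ ((a + b) / k) : ℕ) : ℕ∞)
        have h1 : (g + 1) ^ (a / k) * (g + 1) ^ (b / k) ≤ (g + 1) ^ ((a + b) / k) := by
          rw [← pow_add]
          exact Nat.pow_le_pow_right (by omega) Nat.div_add_div_le_add_div
        exact_mod_cast h1)
    obtain ⟨F, hF⟩ := essMax_le.1 (e2 h (by omega)).le
    have h1 := hall (A \ F) ⟨0, fun n _ => (hF n).trans hC⟩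
    obtain ⟨F', hF'⟩ := essMax_le.1 h1
    have h2 : Ess A k ((g + 1) ^ (k / k)) := le_essMax.1 (e2 k (by omega)).ge
    obtain ⟨n, hn⟩ := h2 (F ∪ F')
    rw [Finset.coe_union, ← Set.sdiff_sdiff, Nat.div_self (by omega), pow_one] at hn
    have := hF' n
    omega
  · rintro hC A ⟨n₀, hA⟩
    exact essMax_le.2 (almost (by omega) hkh hC hA)

end Pool.Agent.H601.GV
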