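import Pool.Agent.H601.GV.Fd
import Pool.Agent.H601.GV.Main

/-! The combinatorial part -/

set_option autoImplicit false

namespace Pool.Agent.H601.GV

open Finset Pool.Agent.H601

theorem sum_image_le' {ι : Type*} [DecidableEq ι] (P : Finset ι) (φ : ι → ℕ) (g : ℕ → ℝ)
    (hg : ∀ n, 0 ≤ g n) : ∑ n ∈ P.image φ, g n ≤ ∑ p ∈ P, g (φ p) := by
  rw [sum_comp g φ]
  refine sum_le_sum fun n hn => ?_
  rw [nsmul_eq_mul]
  obtain ⟨p, hp, rfl⟩ := mem_image.1 hn
  have : 1 ≤ (P.filter (fun a => φ a = φ p)).card :=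
    card_pos.2 ⟨p, mem_filter.2 ⟨hp, rfl⟩⟩
  have h1 : (1 : ℝ) ≤ ((P.filter (fun a => φ a = φ p)).card : ℝ) := by exact_mod_cast this
  have h2 := hg (φ p)
  nlinarith

/-- uniqueness of the representations -/
theorem uniq_of_rep_le {B : Set ℕ} {h : ℕ} (hB : ∀ n, rep B h n ≤ 1) {s t : Multiset ℕ}
    (hs : Multiset.card s = h) (ht : Multiset.card t = h) (hsB : ∀ a ∈ s, a ∈ B)
    (htB : ∀ a ∈ t, a ∈ B) (hst : s.sum = t.sum) : s = t := by
  have h1 := hB t.sum
  unfold rep at h1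
  exact (Set.ncard_le_one (reps_finite B h t.sum)).1 h1 s ⟨hs, hsB, hst⟩ t ⟨ht, htB, rfl⟩

theorem tt_le {B : Set ℕ} {h : ℕ} (hB : ∀ n, rep B h n ≤ 1) {S : Finset ℕ}
    (hS : ∀ b ∈ S, b ∈ B) (n : ℕ) : tt S h n ≤ h.factorial := by
  unfold tt
  have hc : ((S.sym h).filter (fun k => k.val.sum = n)).card ≤ 1 := by
    rw [card_le_one]
    intro s hs t ht
    rw [mem_filter] at hs ht
    apply Subtype.ext
    exact uniq_of_rep_le hB s.2 t.2 (fun a ha => hS a (mem_sym_iff.1 hs.1 a ha))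
      (fun a ha => hS a (mem_sym_iff.1 ht.1 a ha)) (hs.2.trans ht.2.symm)
  calc ∑ k ∈ (S.sym h).filter (fun k => k.val.sum = n), k.val.countPerms
      ≤ ∑ k ∈ (S.sym h).filter (fun k => k.val.sum = n), h.factorial := by
        refine sum_le_sum fun k _ => ?_
        have := countPerms_le k.val
        rwa [k.2] at this
    _ = ((S.sym h).filter (fun k => k.val.sum = n)).card * h.factorial := by
        rw [sum_const, smul_eq_mul]
    _ ≤ 1 * h.factorial := by gcongr
    _ = h.factorial := one_mul _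

theorem one_le_tt {S : Finset ℕ} {h n : ℕ} {s : Multiset ℕ} (hs : Multiset.card s = h)
    (hsS : ∀ a ∈ s, a ∈ S) (hn : s.sum = n) : s.countPerms ≤ tt S h n := by
  unfold tt
  obtain ⟨k0, hk0⟩ : ∃ k0 : Sym ℕ h, k0.val = s := ⟨⟨s, hs⟩, rfl⟩
  have hmem : k0 ∈ (S.sym h).filter (fun k => k.val.sum = n) := by
    rw [mem_filter, mem_sym_iff, hk0]
    refine ⟨fun a ha => hsS a ?_, hn⟩
    rw [← hk0]
    exact ha
  have := single_le_sum (f := fun k : Sym ℕ h => k.val.countPerms) (fun _ _ => Nat.zero_le _) hmem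
  simp only [hk0] at this
  exact this

/-- the elements `< L` of `A` -/
noncomputable def cut (A : Set ℕ) (L : ℕ) : Finset ℕ :=
  @Finset.filter ℕ (fun a => a ∈ A) (Classical.decPred _) (range L)

theorem mem_cut {A : Set ℕ} {L a : ℕ} : a ∈ cut A L ↔ a < L ∧ a ∈ A := by
  unfold cut
  exact (@Finset.mem_filter ℕ _ (Classical.decPred _) _ _).trans (by rw [mem_range])

/-- the index set of the exceptional numbers -/
noncomputable def PP (A : Set ℕ) (F : Finset ℕ) (h L : ℕ) :
    Finset ((_ : Sym ℕ (h - 1)) × ℕ) :=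
  ((cut A L).sym (h - 1)).sigma (fun k => F ∪ k.val.toFinset)

theorem exceptional {A : Set ℕ} {F : Finset ℕ} {h n₀ L n : ℕ} (hh : 2 ≤ h)
    (hA : ∀ n, n₀ ≤ n → 1 ≤ rep A h n) (hB : ∀ n, rep (A \ F) h n ≤ 1) (hn : n₀ ≤ n)
    (hnL : n < L) :
    tt (cut (A \ F) L) h n = h.factorial ∨
      n ∈ (PP A F h L).image (fun p => p.2 + p.1.val.sum) := by
  obtain ⟨s, h1, h2, h3⟩ := exists_of_rep_pos (hA n hn)
  have hlt : ∀ a ∈ s, a < L := fun a ha => by
    have := Multiset.le_sum_of_mem ha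
    omega
  have main : ∀ a ∈ s, a ∈ F ∪ (s.erase a).toFinset →
      n ∈ (PP A F h L).image (fun p => p.2 + p.1.val.sum) := by
    intro a ha haF
    have hc : Multiset.card (s.erase a) = h - 1 := by
      rw [Multiset.card_erase_of_mem ha, h1]; rfl
    rw [mem_image]
    refine ⟨⟨⟨s.erase a, hc⟩, a⟩, ?_, ?_⟩
    · unfold PP
      rw [mem_sigma, mem_sym_iff]
      refine ⟨fun b hb => ?_, haF⟩
      have hb' : b ∈ s := Multiset.mem_of_mem_erase (show b ∈ s.erase a from hb)
      exact mem_cut.2 ⟨hlt b hb', h2 b hb'⟩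
    · have : a + (s.erase a).sum = s.sum := by
        rw [← Multiset.sum_cons, Multiset.cons_erase ha]
      exact this.trans h3
  by_cases hF : ∃ a ∈ s, a ∈ F
  · obtain ⟨a, ha, haF⟩ := hF
    exact Or.inr (main a ha (mem_union_left _ haF))
  · push Not at hF
    by_cases hnd : s.Nodup
    · left
      apply le_antisymm (tt_le hB (fun b hb => (mem_cut.1 hb).2) n)
      have := one_le_tt (S := cut (A \ F) L) h1
        (fun a ha => mem_cut.2 ⟨hlt a ha, h2 a ha, fun haF => hF a ha (by simpa using haF)⟩) h3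
      rwa [countPerms_nodup hnd, h1] at this
    · right
      rw [Multiset.nodup_iff_count_le_one] at hnd
      push Not at hnd
      obtain ⟨a, ha⟩ := hnd
      have has : a ∈ s := Multiset.count_pos.1 (by omega)
      refine main a has (mem_union_right _ ?_)
      rw [Multiset.mem_toFinset, ← Multiset.count_pos, Multiset.count_erase_self]
      omega

/-- the sum over the exceptional numbers -/
theorem exc_sum {A : Set ℕ} {F : Finset ℕ} {h L : ℕ} (hh : 2 ≤ h) {x : ℝ} (hx : 0 ≤ x)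
    (hx1 : x ≤ 1) :
    ∑ n ∈ (PP A F h L).image (fun p => p.2 + p.1.val.sum), x ^ n
      ≤ (F.card + h) * (∑ a ∈ cut A L, x ^ a) ^ (h - 1) := by
  classical
  refine (sum_image_le' _ _ (fun n => x ^ n) (fun n => by positivity)).trans ?_
  unfold PP
  rw [sum_sigma]
  rw [Finset.sum_pow, mul_sum]
  refine sum_le_sum fun k hk => ?_
  rw [map_pow_prod]
  have h1 : ∀ a ∈ F ∪ k.val.toFinset, x ^ (a + k.val.sum) ≤ x ^ k.val.sum := by
    intro a _
    exact pow_le_pow_of_le_one hx hx1 (by omega)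
  have h2 : (F ∪ k.val.toFinset).card ≤ F.card + h := by
    refine (card_union_le _ _).trans ?_
    have := Multiset.toFinset_card_le k.val
    rw [k.2] at this
    omega
  have h3 : (1 : ℝ) ≤ (k.val.countPerms : ℝ) := by exact_mod_cast countPerms_pos k.val
  calc ∑ a ∈ F ∪ k.val.toFinset, x ^ (a + k.val.sum)
      ≤ ∑ a ∈ F ∪ k.val.toFinset, x ^ k.val.sum := sum_le_sum h1
    _ = ((F ∪ k.val.toFinset).card : ℝ) * x ^ k.val.sum := by rw [sum_const, nsmul_eq_mul]
    _ ≤ ((F.card + h : ℕ) : ℝ) * x ^ k.val.sum := by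
        have : (((F ∪ k.val.toFinset).card : ℕ) : ℝ) ≤ ((F.card + h : ℕ) : ℝ) := by
          exact_mod_cast h2
        gcongr
    _ = (F.card + h) * (1 * x ^ k.val.sum) := by push_cast; ring
    _ ≤ (F.card + h) * (k.val.countPerms * x ^ k.val.sum) := by gcongr

end Pool.Agent.H601.GV
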