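import Pool.Agent.H601.GV.Fe

/-! One step -/

set_option autoImplicit false

namespace Pool.Agent.H601.GV

open Finset Pool.Agent.H601

theorem pairs {B : Set ℕ} {h : ℕ} (hh : 2 ≤ h) (hB : ∀ n, rep B h n ≤ 1) {n m : ℕ} (hn : n ∈ B)
    (hn1 : n + 1 ∈ B) (hm : m ∈ B) (hm1 : m + 1 ∈ B) : n = m := by
  have h1 : ({n, m + 1} : Multiset ℕ) + Multiset.replicate (h - 2) n
      = ({n + 1, m} : Multiset ℕ) + Multiset.replicate (h - 2) n := by
    apply uniq_of_rep_le hB
    · rw [Multiset.card_add, Multiset.card_replicate, Multiset.card_pair]; omega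
    · rw [Multiset.card_add, Multiset.card_replicate, Multiset.card_pair]; omega
    · intro a ha
      rw [Multiset.mem_add] at ha
      rcases ha with ha | ha
      · simp only [Multiset.insert_eq_cons, Multiset.mem_cons, Multiset.mem_singleton] at ha
        rcases ha with rfl | rfl <;> assumption
      · rw [Multiset.eq_of_mem_replicate ha]; exact hn
    · intro a ha
      rw [Multiset.mem_add] at ha
      rcases ha with ha | ha
      · simp only [Multiset.insert_eq_cons, Multiset.mem_cons, Multiset.mem_singleton] at ha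
        rcases ha with rfl | rfl <;> assumption
      · rw [Multiset.eq_of_mem_replicate ha]; exact hn
    · rw [Multiset.sum_add, Multiset.sum_add]
      simp only [Multiset.insert_eq_cons, Multiset.sum_cons, Multiset.sum_singleton]
      omega
  have h2 := add_right_cancel h1
  have h3 : n ∈ ({n + 1, m} : Multiset ℕ) := by
    rw [← h2]
    simp
  simp only [Multiset.insert_eq_cons, Multiset.mem_cons, Multiset.mem_singleton] at h3
  omega

theorem geo {x : ℝ} (hx : 0 ≤ x) (K : ℕ) : (1 - x) * ∑ i ∈ range K, x ^ i ≤ 1 := by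
  rw [mul_neg_geom_sum]
  have : 0 ≤ x ^ K := by positivity
  linarith

theorem stepF {A : Set ℕ} {F : Finset ℕ} {h n₀ m : ℕ} (hh : 2 ≤ h)
    (hA : ∀ n, n₀ ≤ n → 1 ≤ rep A h n) (hB : ∀ n, rep (A \ F) h n ≤ 1) (hm : 1 ≤ m)
    (hmn : n₀ ≤ m) :
    ∃ X Y W T : ℝ, 0 ≤ X ∧ X ≤ Y ∧ 0 ≤ T ∧ (m : ℝ) / 32 ≤ X ^ h ∧
      Y ≤ W + F.card ∧ 0 ≤ W ∧ W ^ h ≤ h.factorial * (2 * m) ∧
      X - F.card - 1 ≤ 8 * T ^ 2 ∧
      4 * T ^ h ≤ 12 * h.factorial
        + 4 * √((h.factorial : ℝ) ^ 2 * (n₀ + (F.card + h) * Y ^ (h - 1))) := by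
  classical
  have hm' : (1 : ℝ) ≤ m := by exact_mod_cast hm
  obtain ⟨x, hxdef⟩ : ∃ x : ℝ, x = 1 - 1 / (2 * m) := ⟨_, rfl⟩
  have hx1' : 1 - x = 1 / (2 * m) := by rw [hxdef]; ring
  have h12 : (1 : ℝ) / (2 * m) ≤ 1 / 2 := by
    apply one_div_le_one_div_of_le (by norm_num)
    linarith
  have hpos : (0 : ℝ) < 1 / (2 * m) := by positivity
  have hx0 : 0 < x := by linarith
  have hx1 : x < 1 := by linarith
  have hxm : 1 / 2 ≤ x ^ m := by
    have := one_add_mul_le_pow (a := -(1 / (2 * (m : ℝ)))) (by linarith) m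
    have e : 1 + -(1 / (2 * (m : ℝ))) = x := by rw [hxdef]; ring
    rw [e] at this
    refine le_trans (le_of_eq ?_) this
    field_simp
    ring
  obtain ⟨L0, hL0⟩ := exists_pow_lt_of_lt_one (show 0 < 1 - x by linarith) hx1
  obtain ⟨L, hL⟩ : ∃ L, L = max L0 (n₀ + 2 * m) := ⟨_, rfl⟩
  have hL1 : n₀ + 2 * m ≤ L := by omega
  have hL2 : x ^ L ≤ 1 - x :=
    (pow_le_pow_of_le_one hx0.le hx1.le (by omega)).trans hL0.le
  obtain ⟨M', hM'⟩ : ∃ M', M' = h * L + L := ⟨_, rfl⟩
  have hM1 : h * L < M' + 1 := by omega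
  have hM2 : L ≤ M' := by omega
  have hS : ∀ b ∈ cut (A \ F) L, b < L := fun b hb => (mem_cut.1 hb).1
  have hSA : ∀ b ∈ cut A L, b < L := fun b hb => (mem_cut.1 hb).1
  have htt : ∀ n, (tt (cut (A \ F) L) h n : ℝ) ≤ h.factorial := fun n => by
    exact_mod_cast tt_le hB (fun b hb => (mem_cut.1 hb).2) n
  have hfac : (0 : ℝ) < h.factorial := by exact_mod_cast h.factorial_pos
  have hgeo : ∀ K, ∑ i ∈ range K, x ^ i ≤ 2 * m := by
    intro K
    have h1 := geo hx0.le K
    rw [hx1'] at h1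
    have h2 : ∑ i ∈ range K, x ^ i = (2 * m) * (1 / (2 * m) * ∑ i ∈ range K, x ^ i) := by
      field_simp
    rw [h2]
    calc (2 * (m : ℝ)) * (1 / (2 * m) * ∑ i ∈ range K, x ^ i) ≤ (2 * m) * 1 := by gcongr
      _ = 2 * m := by ring
  -- the sets
  have hsub : cut A L ⊆ cut (A \ F) L ∪ F := by
    intro a ha
    rw [mem_cut] at ha
    rw [mem_union, mem_cut]
    by_cases haF : a ∈ F
    · exact Or.inr haF
    · exact Or.inl ⟨ha.1, ha.2, by simpa using haF⟩
  have hsum : ∀ y : ℝ, 0 ≤ y → y ≤ 1 →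
      ∑ a ∈ cut A L, y ^ a ≤ ∑ b ∈ cut (A \ F) L, y ^ b + F.card := by
    intro y hy hy1
    calc ∑ a ∈ cut A L, y ^ a ≤ ∑ a ∈ cut (A \ F) L ∪ F, y ^ a :=
          sum_le_sum_of_subset_of_nonneg hsub fun _ _ _ => by positivity
      _ ≤ ∑ b ∈ cut (A \ F) L, y ^ b + ∑ b ∈ F, y ^ b := by
          rw [← sum_union_inter]
          have : 0 ≤ ∑ a ∈ cut (A \ F) L ∩ F, y ^ a := sum_nonneg fun _ _ => by positivity
          linarith
      _ ≤ ∑ b ∈ cut (A \ F) L, y ^ b + ∑ b ∈ F, (1 : ℝ) := by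
          gcongr
          exact pow_le_one₀ hy hy1
      _ = _ := by rw [sum_const, nsmul_eq_mul, mul_one]
  obtain ⟨s, hs⟩ : ∃ s, s = ∑ n ∈ range (M' + 1), gg (cut (A \ F) L) x n ^ 2 := ⟨_, rfl⟩
  have hs0 : 0 ≤ s := by rw [hs]; exact sum_nonneg fun _ _ => sq_nonneg _
  have hT2 : 8 * √(s / 8) ^ 2 = s := by
    rw [Real.sq_sqrt (by positivity)]; ring
  refine ⟨∑ a ∈ cut A L, (x ^ 2) ^ a, ∑ a ∈ cut A L, x ^ a, ∑ b ∈ cut (A \ F) L, x ^ b,
    √(s / 8), sum_nonneg fun _ _ => by positivity, ?_, Real.sqrt_nonneg _, ?_,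
    hsum x hx0.le hx1.le, sum_nonneg fun _ _ => by positivity, ?_, ?_, ?_⟩
  · refine sum_le_sum fun a _ => ?_
    rw [← pow_mul]
    exact pow_le_pow_of_le_one hx0.le hx1.le (by omega)
  · rw [pow_eq hSA hM1]
    have h1 : ∀ n ∈ Ico n₀ (n₀ + 2 * m), (1 : ℝ) / 64
        ≤ (tt (cut A L) h n : ℝ) * (x ^ 2) ^ n := by
      intro n hn
      rw [mem_Ico] at hn
      obtain ⟨σ, h1, h2, h3⟩ := exists_of_rep_pos (hA n hn.1)
      have h4 := one_le_tt (S := cut A L) h1 (fun a ha => mem_cut.2 ⟨by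
        have := Multiset.le_sum_of_mem ha
        omega, h2 a ha⟩) h3
      have h5 : (1 : ℝ) ≤ (tt (cut A L) h n : ℝ) := by
        exact_mod_cast (countPerms_pos σ).trans h4
      have h6 : (1 : ℝ) / 64 ≤ (x ^ 2) ^ n := by
        calc (1 : ℝ) / 64 = (1 / 2) ^ 6 := by norm_num
          _ ≤ (x ^ m) ^ 6 := by gcongr
          _ = x ^ (6 * m) := by rw [← pow_mul, mul_comm]
          _ ≤ x ^ (2 * n) := pow_le_pow_of_le_one hx0.le hx1.le (by omega)
          _ = (x ^ 2) ^ n := by rw [← pow_mul]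
      nlinarith
    calc (m : ℝ) / 32 = ∑ n ∈ Ico n₀ (n₀ + 2 * m), (1 : ℝ) / 64 := by
          rw [sum_const, Nat.card_Ico, nsmul_eq_mul, Nat.add_sub_cancel_left]
          push_cast
          ring
      _ ≤ ∑ n ∈ Ico n₀ (n₀ + 2 * m), (tt (cut A L) h n : ℝ) * (x ^ 2) ^ n := sum_le_sum h1
      _ ≤ _ := by
          apply sum_le_sum_of_subset_of_nonneg
          · intro n hn
            rw [mem_Ico] at hn
            rw [mem_range]
            omega
          · intros; positivity
  · rw [pow_eq hS hM1]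
    calc ∑ n ∈ range (M' + 1), (tt (cut (A \ F) L) h n : ℝ) * x ^ n
        ≤ ∑ n ∈ range (M' + 1), (h.factorial : ℝ) * x ^ n := by
          refine sum_le_sum fun n _ => ?_
          have := htt n
          gcongr
      _ = h.factorial * ∑ n ∈ range (M' + 1), x ^ n := by rw [mul_sum]
      _ ≤ _ := by
          have := hgeo (M' + 1)
          gcongr
  · rw [hT2]
    have h1 := hsum (x ^ 2) (by positivity) (pow_le_one₀ hx0.le hx1.le)
    have h2 := gg_lower (M := M' + 1) hS (by omega) hx0.le hx1.le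
      (fun n m hn hn1 hm hm1 => pairs hh hB (mem_cut.1 hn).2 (mem_cut.1 hn1).2 (mem_cut.1 hm).2
        (mem_cut.1 hm1).2)
    rw [← hs] at h2
    have h3 : ∑ b ∈ cut (A \ F) L, x ^ (2 * b) = ∑ b ∈ cut (A \ F) L, (x ^ 2) ^ b :=
      sum_congr rfl fun b _ => by rw [← pow_mul]
    rw [h3] at h2
    linarith
  · have h1 := avg_ineq hh hS hM1 hM2 hx0.le hx1 hfac.le (Real.sqrt_nonneg (s / 8))
      (by rw [hT2, hs])
    refine h1.trans ?_
    have hR : ∑ n ∈ Ico L (M' + 1), (tt (cut (A \ F) L) h n : ℝ) * x ^ n ≤ h.factorial := by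
      calc ∑ n ∈ Ico L (M' + 1), (tt (cut (A \ F) L) h n : ℝ) * x ^ n
          ≤ ∑ n ∈ Ico L (M' + 1), (h.factorial : ℝ) * x ^ n := by
            refine sum_le_sum fun n _ => ?_
            have := htt n
            gcongr
        _ = h.factorial * (x ^ L * ∑ i ∈ range (M' + 1 - L), x ^ i) := by
            rw [sum_Ico_eq_sum_range, mul_sum, mul_sum]
            exact sum_congr rfl fun i _ => by rw [pow_add]
        _ ≤ h.factorial * ((1 - x) * ∑ i ∈ range (M' + 1 - L), x ^ i) := by
            have : 0 ≤ ∑ i ∈ range (M' + 1 - L), x ^ i := sum_nonneg fun _ _ => by positivity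
            gcongr
        _ ≤ h.factorial * 1 := by
            have := geo hx0.le (M' + 1 - L)
            gcongr
        _ = _ := mul_one _
    have hD : ∑ n ∈ range (M' + 1), (if n < L then ((tt (cut (A \ F) L) h n : ℝ) - h.factorial)
          * x ^ n else 0) ^ 2
        ≤ (h.factorial : ℝ) ^ 2 * (n₀ + (F.card + h) * (∑ a ∈ cut A L, x ^ a) ^ (h - 1)) := by
      set I := (PP A F h L).image (fun p => p.2 + p.1.val.sum) with hI
      have hterm : ∀ n ∈ range (M' + 1),
          (if n < L then ((tt (cut (A \ F) L) h n : ℝ) - h.factorial) * x ^ n else 0) ^ 2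
          ≤ (h.factorial : ℝ) ^ 2 * ((if n < n₀ then 1 else 0) + (if n ∈ I then x ^ n else 0)) := by
        intro n _
        have hr0 : (0 : ℝ) ≤ (if n < n₀ then 1 else 0) + (if n ∈ I then x ^ n else 0) := by
          positivity
        by_cases hnL : n < L
        · rw [if_pos hnL]
          have hb : (((tt (cut (A \ F) L) h n : ℝ) - h.factorial) * x ^ n) ^ 2
              ≤ (h.factorial : ℝ) ^ 2 * x ^ n := by
            have e1 : ((tt (cut (A \ F) L) h n : ℝ) - h.factorial) ^ 2 ≤ (h.factorial : ℝ) ^ 2 := by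
              have := htt n
              have h0 : (0 : ℝ) ≤ tt (cut (A \ F) L) h n := by positivity
              nlinarith
            have e2 : (x ^ n) ^ 2 ≤ x ^ n := by
              have := pow_le_one₀ hx0.le hx1.le (n := n)
              have h0 : 0 ≤ x ^ n := by positivity
              nlinarith
            rw [mul_pow]
            gcongr
          by_cases hn0 : n < n₀
          · rw [if_pos hn0]
            refine hb.trans ?_
            have := pow_le_one₀ hx0.le hx1.le (n := n)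
            have h0 : (0 : ℝ) ≤ (if n ∈ I then x ^ n else 0) := by positivity
            gcongr
            linarith
          · rcases exceptional hh hA hB (not_lt.1 hn0) hnL with h2 | h2
            · rw [h2, sub_self, zero_mul, zero_pow (by norm_num)]
              positivity
            · rw [if_neg hn0, if_pos h2, zero_add]
              exact hb
        · rw [if_neg hnL, zero_pow (by norm_num)]
          positivity
      refine (sum_le_sum hterm).trans ?_
      rw [← mul_sum, sum_add_distrib]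
      have e1 : ∑ n ∈ range (M' + 1), (if n < n₀ then (1 : ℝ) else 0) ≤ n₀ := by
        rw [← sum_filter, sum_const, nsmul_eq_mul, mul_one]
        have : ((range (M' + 1)).filter (fun n => n < n₀)).card ≤ n₀ := by
          calc _ ≤ (range n₀).card := card_le_card fun n hn => by
                rw [mem_filter] at hn
                exact mem_range.2 hn.2
            _ = n₀ := card_range _
        exact_mod_cast this
      have e2 : ∑ n ∈ range (M' + 1), (if n ∈ I then x ^ n else 0)
          ≤ (F.card + h) * (∑ a ∈ cut A L, x ^ a) ^ (h - 1) := by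
        refine le_trans ?_ (exc_sum hh hx0.le hx1.le)
        rw [← sum_filter]
        apply sum_le_sum_of_subset_of_nonneg
        · intro n hn
          rw [mem_filter] at hn
          exact hn.2
        · intros; positivity
      gcongr
    have hsq := Real.sqrt_le_sqrt hD
    linarith

end Pool.Agent.H601.GV
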