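import Pool.Agent.H601.GV.Ff

/-!
# An asymptotic basis of order `h ≥ 2` is not a `B_h`-set up to finitely many elements
-/

set_option autoImplicit false

namespace Pool.Agent.H601.GV

open Finset Filter Pool.Agent.H601

theorem not_Bh {A : Set ℕ} {F : Finset ℕ} {h n₀ : ℕ} (hh : 2 ≤ h)
    (hA : ∀ n, n₀ ≤ n → 1 ≤ rep A h n) (hB : ∀ n, rep (A \ F) h n ≤ 1) : False := by
  obtain ⟨K, hK⟩ : ∃ K : ℝ, K = h.factorial := ⟨_, rfl⟩
  have hK1 : 1 ≤ K := by rw [hK]; exact_mod_cast Nat.one_le_iff_ne_zero.2 h.factorial_ne_zero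
  obtain ⟨f, hf⟩ : ∃ f : ℝ, f = F.card := ⟨_, rfl⟩
  have hf0 : 0 ≤ f := by rw [hf]; positivity
  obtain ⟨q, hq⟩ : ∃ q : ℝ, q = h := ⟨_, rfl⟩
  have hq2 : 2 ≤ q := by rw [hq]; exact_mod_cast hh
  -- constants
  obtain ⟨C1, hC1⟩ : ∃ C1 : ℝ, C1 = 2 ^ (h - 1) * (2 * K + f ^ h) := ⟨_, rfl⟩
  have hC1pos : 0 < C1 := by rw [hC1]; positivity
  obtain ⟨E, hE⟩ : ∃ E : ℝ, E = 128 * 16 ^ h * K ^ 2 * (f + q) * C1 + 2 * (f + 1) := ⟨_, rfl⟩
  have hEpos : 0 < E := by rw [hE]; positivity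
  have hE2 : 2 * (f + 1) ≤ E := by
    rw [hE]
    have : 0 ≤ 128 * 16 ^ h * K ^ 2 * (f + q) * C1 := by positivity
    linarith
  have hE1 : 128 * 16 ^ h * K ^ 2 * (f + q) * C1 ≤ E := by rw [hE]; linarith
  obtain ⟨m, hm⟩ := exists_nat_gt (max (max (n₀ + 1 : ℝ) (32 * E ^ h))
    (4 * 16 ^ h * (288 * K ^ 2 + 32 * K ^ 2 * n₀)))
  have hm1 : (n₀ + 1 : ℝ) < m := lt_of_le_of_lt ((le_max_left _ _).trans (le_max_left _ _)) hm
  have hm2 : 32 * E ^ h < m := lt_of_le_of_lt ((le_max_right _ _).trans (le_max_left _ _)) hm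
  have hm3 : 4 * 16 ^ h * (288 * K ^ 2 + 32 * K ^ 2 * n₀) < (m : ℝ) :=
    lt_of_le_of_lt (le_max_right _ _) hm
  have hmn : n₀ + 1 < m := by exact_mod_cast hm1
  have hmpos : (1 : ℝ) ≤ m := by exact_mod_cast (show 1 ≤ m by omega)
  obtain ⟨X, Y, W, T, hX0, hXY, hT0, hX, hYW, hW0, hW, hT, hfin⟩ :=
    stepF hh hA hB (show 1 ≤ m by omega) (by omega)
  rw [← hK] at hW hfin
  rw [← hf] at hYW hT hfin
  rw [← hq] at hfin
  have hY0 : 0 ≤ Y := hX0.trans hXY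
  -- `X ≥ E`
  have hXE : E ≤ X := by
    by_contra hlt
    push Not at hlt
    have : X ^ h ≤ E ^ h := by gcongr
    linarith
  have hYE : E ≤ Y := hXE.trans hXY
  -- `Y ^ h ≤ C1 m`
  have hYh : Y ^ h ≤ C1 * m := by
    calc Y ^ h ≤ (W + f) ^ h := by gcongr
      _ ≤ 2 ^ (h - 1) * (W ^ h + f ^ h) := add_pow_le hW0 hf0 h
      _ ≤ 2 ^ (h - 1) * (K * (2 * m) + f ^ h * m) := by
          have : f ^ h ≤ f ^ h * m := by
            have h0 : 0 ≤ f ^ h := by positivity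
            nlinarith
          gcongr
      _ = C1 * m := by rw [hC1]; ring
  have hYh1 : E * Y ^ (h - 1) ≤ C1 * m := by
    calc E * Y ^ (h - 1) ≤ Y * Y ^ (h - 1) := by gcongr
      _ = Y ^ h := by rw [← pow_succ']; congr 1; omega
      _ ≤ C1 * m := hYh
  -- the main inequality
  have hT2 : X / 16 ≤ T ^ 2 := by linarith
  have hT3 : (m : ℝ) / 32 / 16 ^ h ≤ (T ^ h) ^ 2 := by
    calc (m : ℝ) / 32 / 16 ^ h ≤ X ^ h / 16 ^ h := by gcongr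
      _ = (X / 16) ^ h := by rw [div_pow]
      _ ≤ (T ^ 2) ^ h := by gcongr
      _ = (T ^ h) ^ 2 := by rw [← pow_mul, ← pow_mul, mul_comm]
  set D := K ^ 2 * (n₀ + (f + q) * Y ^ (h - 1)) with hD
  have hD0 : 0 ≤ D := by rw [hD]; positivity
  have hsq : 16 * (T ^ h) ^ 2 ≤ 288 * K ^ 2 + 32 * D := by
    have h1 : (4 * T ^ h) ^ 2 ≤ (12 * K + 4 * √D) ^ 2 := by gcongr
    have h2 : (√D) ^ 2 = D := Real.sq_sqrt hD0
    nlinarith [sq_nonneg (12 * K - 4 * √D)]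
  have hD1 : 32 * D ≤ 32 * K ^ 2 * n₀ + m / (4 * 16 ^ h) := by
    have h1 : 128 * 16 ^ h * K ^ 2 * (f + q) * C1 * Y ^ (h - 1) ≤ C1 * m :=
      le_trans (by gcongr) hYh1
    have h2 : 128 * 16 ^ h * K ^ 2 * (f + q) * Y ^ (h - 1) ≤ m := by
      have : C1 * (128 * 16 ^ h * K ^ 2 * (f + q) * Y ^ (h - 1)) ≤ C1 * m := by
        refine le_trans (le_of_eq ?_) h1
        ring
      exact le_of_mul_le_mul_left this hC1pos
    have h3 : 32 * (K ^ 2 * ((f + q) * Y ^ (h - 1))) ≤ m / (4 * 16 ^ h) := by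
      rw [le_div_iff₀ (by positivity)]
      refine le_trans (le_of_eq ?_) h2
      ring
    rw [hD]
    linarith
  have h5 : (m : ℝ) / (2 * 16 ^ h) ≤ 288 * K ^ 2 + 32 * K ^ 2 * n₀ + m / (4 * 16 ^ h) := by
    have e : (m : ℝ) / (2 * 16 ^ h) = 16 * (m / 32 / 16 ^ h) := by
      field_simp
      ring
    rw [e]
    linarith
  have h6 : (m : ℝ) / (4 * 16 ^ h) ≤ 288 * K ^ 2 + 32 * K ^ 2 * n₀ := by
    have e : (m : ℝ) / (2 * 16 ^ h) = m / (4 * 16 ^ h) + m / (4 * 16 ^ h) := by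
      field_simp
      ring
    linarith
  rw [div_le_iff₀ (by positivity)] at h6
  linarith

theorem two_le_essMax {A : Set ℕ} {h n₀ : ℕ} (hh : 2 ≤ h)
    (hA : ∀ n, n₀ ≤ n → 1 ≤ rep A h n) : 2 ≤ essMax A h := by
  by_contra hno
  have h1 : ¬ (((1 + 1 : ℕ) : ℕ∞) ≤ essMax A h) := by
    intro h2
    exact hno (by simpa using h2)
  rw [le_essMax] at h1
  unfold Ess at h1
  push Not at h1
  obtain ⟨F, hF⟩ := h1
  exact not_Bh hh hA (F := F) fun n => by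
    have := hF n
    omega

end Pool.Agent.H601.GV
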