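import Pool.Agent.H601.GV.Fd

/-! Averaging over the roots of unity, higher moments -/

set_option autoImplicit false

namespace Pool.Agent.H601.GV

open Finset ComplexConjugate

/-- Young's inequality -/
theorem young {h : ℕ} (hh : 2 ≤ h) {u s : ℝ} (hu : 0 ≤ u) (hs : 0 ≤ s) :
    (h : ℝ) * (u ^ (h - 1) * s) ≤ (h - 1 : ℝ) * u ^ h + s ^ h := by
  obtain ⟨k, rfl⟩ : ∃ k, h = k + 1 := ⟨h - 1, by omega⟩
  have hk : 1 ≤ k := by omega
  clear hh
  simp only [Nat.add_sub_cancel]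
  push_cast
  clear hk
  induction k with
  | zero => simp
  | succ k ih =>
    push_cast
    have h1 : 0 ≤ (u ^ (k + 1) - s ^ (k + 1)) * (u - s) := by
      rcases le_total u s with h | h
      · have : u ^ (k + 1) ≤ s ^ (k + 1) := by gcongr
        nlinarith
      · have : s ^ (k + 1) ≤ u ^ (k + 1) := by gcongr
        nlinarith
    have h2 := mul_le_mul_of_nonneg_left ih hu
    have e : ((k : ℝ) + 1 + 1 - 1) * u ^ (k + 1 + 1) + s ^ (k + 1 + 1)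
        - ((k : ℝ) + 1 + 1) * (u ^ (k + 1) * s)
        = (u * (((k : ℝ) + 1 - 1) * u ^ (k + 1) + s ^ (k + 1)) - u * (((k : ℝ) + 1) * (u ^ k * s)))
          + (u ^ (k + 1) - s ^ (k + 1)) * (u - s) := by ring
    linarith

/-- the mean of `1, z, …, z ^ (Q - 1)` -/
noncomputable def KK (Q : ℕ) (z : ℂ) : ℂ := (1 / (Q : ℂ)) * ∑ q ∈ range Q, z ^ q

theorem KK_le {Q : ℕ} (hQ : 1 ≤ Q) {z : ℂ} (hz : ‖z‖ = 1) : ‖KK Q z‖ ≤ 1 := by
  have hQ' : (0 : ℝ) < Q := by exact_mod_cast hQ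
  unfold KK
  rw [norm_mul, norm_div, norm_one, Complex.norm_natCast]
  have : ‖∑ q ∈ range Q, z ^ q‖ ≤ Q := by
    refine (norm_sum_le _ _).trans ?_
    simp [hz]
  calc 1 / (Q : ℝ) * ‖∑ q ∈ range Q, z ^ q‖ ≤ 1 / (Q : ℝ) * Q := by gcongr
    _ = 1 := by field_simp

theorem one_sub_pow_le {z : ℂ} (hz : ‖z‖ = 1) (q : ℕ) : ‖1 - z ^ q‖ ≤ q * ‖1 - z‖ := by
  rw [← mul_neg_geom_sum, norm_mul, mul_comm]
  have : ‖∑ i ∈ range q, z ^ i‖ ≤ q := by
    refine (norm_sum_le _ _).trans ?_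
    simp [hz]
  gcongr

theorem W_le {Q : ℕ} (hQ : 1 ≤ Q) {z : ℂ} (hz : ‖z‖ = 1) :
    1 - ‖KK Q z‖ ^ 2 ≤ 2 * Q * ‖1 - z‖ := by
  have hQ' : (0 : ℝ) < Q := by exact_mod_cast hQ
  have h1 := KK_le hQ hz
  have h2 : ‖1 - KK Q z‖ ≤ Q * ‖1 - z‖ := by
    have e : 1 - KK Q z = (1 / (Q : ℂ)) * ∑ q ∈ range Q, (1 - z ^ q) := by
      unfold KK
      rw [sum_sub_distrib, mul_sub, sum_const, card_range, nsmul_eq_mul, mul_one]
      congr 1
      have hQc : (Q : ℂ) ≠ 0 := by exact_mod_cast (show Q ≠ 0 by omega)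
      rw [one_div, inv_mul_cancel₀ hQc]
    rw [e, norm_mul, norm_div, norm_one, Complex.norm_natCast]
    have : ‖∑ q ∈ range Q, (1 - z ^ q)‖ ≤ Q * (Q * ‖1 - z‖) := by
      refine (norm_sum_le _ _).trans ?_
      calc ∑ q ∈ range Q, ‖1 - z ^ q‖ ≤ ∑ q ∈ range Q, (Q * ‖1 - z‖) := by
            refine sum_le_sum fun q hq => (one_sub_pow_le hz q).trans ?_
            have : (q : ℝ) ≤ Q := by exact_mod_cast (mem_range.1 hq).le
            gcongr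
        _ = _ := by rw [sum_const, card_range, nsmul_eq_mul]
    calc 1 / (Q : ℝ) * ‖∑ q ∈ range Q, (1 - z ^ q)‖ ≤ 1 / (Q : ℝ) * (Q * (Q * ‖1 - z‖)) := by
          gcongr
      _ = _ := by field_simp
  have h3 : 1 - ‖KK Q z‖ ≤ ‖1 - KK Q z‖ := by
    have := norm_sub_norm_le (1 : ℂ) (KK Q z)
    rwa [norm_one] at this
  have h4 : 0 ≤ ‖KK Q z‖ := norm_nonneg _
  nlinarith

theorem KK_sum {M Q : ℕ} {ζ : ℂ} (hζ : IsPrimitiveRoot ζ M) (hM : M ≠ 0) (hQ : 1 ≤ Q)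
    (hQM : Q ≤ M) : ∑ j ∈ range M, ‖KK Q (ζ ^ j)‖ ^ 2 = M / Q := by
  have hQ' : (0 : ℝ) < Q := by exact_mod_cast hQ
  have := parseval hζ hM (fun n => if n < Q then 1 / (Q : ℂ) else 0)
  have e1 : ∀ j, ∑ n ∈ range M, (if n < Q then 1 / (Q : ℂ) else 0) * (ζ ^ j) ^ n
      = KK Q (ζ ^ j) := by
    intro j
    unfold KK
    rw [← sum_range_add_sum_Ico _ hQM, mul_sum]
    have e0 : ∑ n ∈ Ico Q M, (if n < Q then 1 / (Q : ℂ) else 0) * (ζ ^ j) ^ n = 0 := by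
      refine sum_eq_zero fun n hn => ?_
      rw [if_neg (by rw [mem_Ico] at hn; omega), zero_mul]
    rw [e0, add_zero]
    exact sum_congr rfl fun n hn => by rw [if_pos (mem_range.1 hn)]
  rw [sum_congr rfl fun j _ => by rw [e1 j]] at this
  rw [this]
  have e2 : ∑ n ∈ range M, ‖(if n < Q then 1 / (Q : ℂ) else 0)‖ ^ 2 = 1 / Q := by
    rw [← sum_range_add_sum_Ico _ hQM]
    have e0 : ∑ n ∈ Ico Q M, ‖(if n < Q then 1 / (Q : ℂ) else 0)‖ ^ 2 = 0 := by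
      refine sum_eq_zero fun n hn => ?_
      rw [if_neg (by rw [mem_Ico] at hn; omega), norm_zero, zero_pow (by norm_num)]
    rw [e0, add_zero]
    have e3 : ∀ n ∈ range Q, ‖(if n < Q then 1 / (Q : ℂ) else 0)‖ ^ 2 = (1 / (Q : ℝ)) ^ 2 := by
      intro n hn
      rw [if_pos (mem_range.1 hn), norm_div, norm_one, Complex.norm_natCast]
    rw [sum_congr rfl e3, sum_const, card_range, nsmul_eq_mul]
    field_simp
  rw [e2]
  ring

end Pool.Agent.H601.GV
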