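import Pool.Agent.H601.GV.Ga

/-! The main inequality with higher moments -/

set_option autoImplicit false

namespace Pool.Agent.H601.GV

open Finset ComplexConjugate

/-- the pointwise upper bound -/
theorem upper_pt2 {S : Finset ℕ} {h L M Q : ℕ} (hQ : 1 ≤ Q) (hS : ∀ b ∈ S, b < L)
    (hM : h * L < M) (hLM : L ≤ M)
    {x c K : ℝ} (hx : 0 ≤ x) (hx1 : x < 1) (hc : 0 ≤ c) (hK : 0 ≤ K) {z : ℂ} (hz : ‖z‖ = 1)
    (hR : ∑ n ∈ Ico L M, (tt S h n : ℝ) * x ^ n ≤ K) :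
    (1 - ‖KK Q z‖ ^ 2) * (‖∑ b ∈ S, ((x : ℂ) * z) ^ b‖ ^ 2) ^ h
      ≤ 11 / 10 * ‖∑ n ∈ range M, ((if n < L then ((tt S h n : ℝ) - c) * x ^ n else 0 : ℝ) : ℂ)
          * z ^ n‖ ^ 2
        + 176 * c ^ 2 * Q * ‖∑ n ∈ range M, ((if n < L then x ^ n else 0 : ℝ) : ℂ) * z ^ n‖
        + 22 * K ^ 2 := by
  have hxz : ‖(x : ℂ) * z‖ = x := by
    rw [norm_mul, hz, mul_one, Complex.norm_real, Real.norm_of_nonneg hx]
  have hKK := KK_le hQ hz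
  have hKK0 : 0 ≤ ‖KK Q z‖ := norm_nonneg _
  have hW0 : 0 ≤ 1 - ‖KK Q z‖ ^ 2 := by nlinarith
  have hW1 : 1 - ‖KK Q z‖ ^ 2 ≤ 1 := by nlinarith
  have hg : ∑ n ∈ range M, ((if n < L then x ^ n else 0 : ℝ) : ℂ) * z ^ n
      = ∑ n ∈ range L, ((x : ℂ) * z) ^ n := by
    rw [← sum_range_add_sum_Ico _ hLM]
    have e0 : ∑ n ∈ Ico L M, ((if n < L then x ^ n else 0 : ℝ) : ℂ) * z ^ n = 0 := by
      refine sum_eq_zero fun n hn => ?_
      rw [if_neg (by rw [mem_Ico] at hn; omega)]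
      simp
    rw [e0, add_zero]
    refine sum_congr rfl fun n hn => ?_
    rw [if_pos (mem_range.1 hn), mul_pow]
    push_cast
    ring
  rw [hg]
  -- the geometric sum
  have hgeo : ‖1 - z‖ * ‖∑ n ∈ range L, ((x : ℂ) * z) ^ n‖ ≤ 4 := by
    have h1 : ‖1 - z‖ ≤ 2 * ‖1 - (x : ℂ) * z‖ := by
      have a1 : 1 - x ≤ ‖1 - (x : ℂ) * z‖ := by
        have := norm_sub_norm_le (1 : ℂ) ((x : ℂ) * z)
        rw [norm_one, hxz] at this
        exact this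
      have a2 : ‖1 - z‖ ≤ ‖1 - (x : ℂ) * z‖ + (1 - x) := by
        have e : (1 : ℂ) - z = (1 - (x : ℂ) * z) - ((1 - x : ℝ) : ℂ) * z := by
          push_cast; ring
        rw [e]
        refine (norm_sub_le _ _).trans ?_
        rw [norm_mul, hz, mul_one, Complex.norm_real, Real.norm_of_nonneg (by linarith)]
      linarith
    have h2 : ‖1 - (x : ℂ) * z‖ * ‖∑ n ∈ range L, ((x : ℂ) * z) ^ n‖ ≤ 2 := by
      rw [← norm_mul, mul_neg_geom_sum]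
      refine (norm_sub_le _ _).trans ?_
      rw [norm_one, norm_pow, hxz]
      have := pow_le_one₀ hx hx1.le (n := L)
      linarith
    calc ‖1 - z‖ * ‖∑ n ∈ range L, ((x : ℂ) * z) ^ n‖
        ≤ 2 * ‖1 - (x : ℂ) * z‖ * ‖∑ n ∈ range L, ((x : ℂ) * z) ^ n‖ := by gcongr
      _ = 2 * (‖1 - (x : ℂ) * z‖ * ‖∑ n ∈ range L, ((x : ℂ) * z) ^ n‖) := by ring
      _ ≤ 4 := by linarith
  have hdec : (∑ b ∈ S, ((x : ℂ) * z) ^ b) ^ h
      = (c : ℂ) * ∑ n ∈ range L, ((x : ℂ) * z) ^ n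
        + ∑ n ∈ range M, ((if n < L then ((tt S h n : ℝ) - c) * x ^ n else 0 : ℝ) : ℂ) * z ^ n
        + ∑ n ∈ Ico L M, (tt S h n : ℂ) * ((x : ℂ) * z) ^ n := by
    rw [pow_eq hS hM, ← sum_range_add_sum_Ico _ hLM]
    congr 1
    rw [← sum_range_add_sum_Ico (fun n => ((if n < L then ((tt S h n : ℝ) - c) * x ^ n else 0 : ℝ) : ℂ)
      * z ^ n) hLM]
    have e0 : ∑ n ∈ Ico L M, ((if n < L then ((tt S h n : ℝ) - c) * x ^ n else 0 : ℝ) : ℂ)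
        * z ^ n = 0 := by
      refine sum_eq_zero fun n hn => ?_
      rw [if_neg (by rw [mem_Ico] at hn; omega)]
      simp
    rw [e0, add_zero, mul_sum, ← sum_add_distrib]
    refine sum_congr rfl fun n hn => ?_
    rw [if_pos (mem_range.1 hn), mul_pow]
    push_cast
    ring
  rw [← pow_mul, mul_comm 2 h, pow_mul, ← norm_pow (∑ b ∈ S, ((x : ℂ) * z) ^ b) h, hdec]
  have hWg : (1 - ‖KK Q z‖ ^ 2) * ‖∑ n ∈ range L, ((x : ℂ) * z) ^ n‖ ^ 2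
      ≤ 8 * Q * ‖∑ n ∈ range L, ((x : ℂ) * z) ^ n‖ := by
    calc (1 - ‖KK Q z‖ ^ 2) * ‖∑ n ∈ range L, ((x : ℂ) * z) ^ n‖ ^ 2
        ≤ (2 * Q * ‖1 - z‖) * ‖∑ n ∈ range L, ((x : ℂ) * z) ^ n‖ ^ 2 := by
          have := W_le hQ hz
          gcongr
      _ = 2 * Q * (‖1 - z‖ * ‖∑ n ∈ range L, ((x : ℂ) * z) ^ n‖)
          * ‖∑ n ∈ range L, ((x : ℂ) * z) ^ n‖ := by ring
      _ ≤ 2 * Q * 4 * ‖∑ n ∈ range L, ((x : ℂ) * z) ^ n‖ := by gcongr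
      _ = _ := by ring
  have hWt : ‖∑ n ∈ Ico L M, (tt S h n : ℂ) * ((x : ℂ) * z) ^ n‖ ≤ K := by
    refine ((norm_sum_le _ _).trans (sum_le_sum fun n _ => ?_)).trans hR
    rw [norm_mul, norm_pow, hxz]
    simp
  set g := ∑ n ∈ range L, ((x : ℂ) * z) ^ n with hgdef
  set V := ∑ n ∈ range M, ((if n < L then ((tt S h n : ℝ) - c) * x ^ n else 0 : ℝ) : ℂ) * z ^ n
    with hV
  set τ := ∑ n ∈ Ico L M, (tt S h n : ℂ) * ((x : ℂ) * z) ^ n with hτ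
  set W := 1 - ‖KK Q z‖ ^ 2 with hW
  have h3 : ‖(c : ℂ) * g + V + τ‖ ≤ c * ‖g‖ + ‖V‖ + K := by
    refine norm_add₃_le.trans ?_
    rw [norm_mul, Complex.norm_real, Real.norm_of_nonneg hc]
    linarith
  have h4 : ‖(c : ℂ) * g + V + τ‖ ^ 2 ≤ 11 / 10 * ‖V‖ ^ 2 + 22 * c ^ 2 * ‖g‖ ^ 2 + 22 * K ^ 2 := by
    have h5 : ‖(c : ℂ) * g + V + τ‖ ^ 2 ≤ (c * ‖g‖ + ‖V‖ + K) ^ 2 := by gcongr
    refine h5.trans ?_
    have h6 := sq_nonneg (‖V‖ - 10 * (c * ‖g‖ + K))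
    have h7 := sq_nonneg (c * ‖g‖ - K)
    nlinarith
  calc W * ‖(c : ℂ) * g + V + τ‖ ^ 2
      ≤ W * (11 / 10 * ‖V‖ ^ 2 + 22 * c ^ 2 * ‖g‖ ^ 2 + 22 * K ^ 2) := by gcongr
    _ = 11 / 10 * (W * ‖V‖ ^ 2) + 22 * c ^ 2 * (W * ‖g‖ ^ 2) + W * (22 * K ^ 2) := by ring
    _ ≤ 11 / 10 * (1 * ‖V‖ ^ 2) + 22 * c ^ 2 * (8 * Q * ‖g‖) + 1 * (22 * K ^ 2) := by gcongr
    _ = _ := by ring

theorem avg2 {S : Finset ℕ} {h L M Q : ℕ} (hh : 2 ≤ h) (hQ : 1 ≤ Q) (hQM : Q ≤ M)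
    (hS : ∀ b ∈ S, b < L) (hM : h * L < M) (hLM : L ≤ M) {x c K N s σ : ℝ} (hx : 0 ≤ x)
    (hx1 : x < 1) (hc : 0 ≤ c) (hK : ∀ n, (tt S h n : ℝ) ≤ K)
    (hN : ∀ k, ∑ i ∈ range k, x ^ i ≤ N)
    (hR : ∑ n ∈ Ico L M, (tt S h n : ℝ) * x ^ n ≤ K) (hs : 0 ≤ s) (hσ : 0 < σ)
    (hsσ : s ^ (h - 1) ≤ ∑ n ∈ range M, ((tt S (h - 1) n : ℝ) * x ^ n) ^ 2
      - (K ^ 2 * N / σ + σ ^ (h - 1) / Q)) :
    s ^ h ≤ 11 / 10 * ∑ n ∈ range M, (if n < L then ((tt S h n : ℝ) - c) * x ^ n else 0) ^ 2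
      + 176 * c ^ 2 * Q * √N + 22 * K ^ 2 := by
  have hM0 : M ≠ 0 := by omega
  have hh1 : (1 : ℝ) < h := by exact_mod_cast (show 1 < h by omega)
  have hK0 : 0 ≤ K := le_trans (by positivity) (hK 0)
  have hN0 : 0 ≤ N := by simpa using hN 0
  have hQ' : (0 : ℝ) < Q := by exact_mod_cast hQ
  obtain ⟨ζ, hζ⟩ : ∃ ζ : ℂ, IsPrimitiveRoot ζ M := ⟨_, Complex.isPrimitiveRoot_exp M hM0⟩
  have h1 : ‖ζ‖ = 1 := hζ.norm'_eq_one hM0
  have hz : ∀ j, ‖ζ ^ j‖ = 1 := fun j => by rw [norm_pow, h1, one_pow]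
  have hMpos : (0 : ℝ) < M := by exact_mod_cast Nat.pos_of_ne_zero hM0
  obtain ⟨u, hu⟩ : ∃ u : ℕ → ℝ, ∀ j, u j = ‖∑ b ∈ S, ((x : ℂ) * ζ ^ j) ^ b‖ ^ 2 :=
    ⟨_, fun _ => rfl⟩
  have hu0 : ∀ j, 0 ≤ u j := fun j => by rw [hu]; positivity
  have hnr : ∀ r : ℝ, ‖(r : ℂ)‖ ^ 2 = r ^ 2 := fun r => by
    rw [Complex.norm_real, Real.norm_eq_abs, sq_abs]
  -- the moments
  have hmom : ∀ i, i * L < M → ∑ j ∈ range M, u j ^ i
      = M * ∑ n ∈ range M, ((tt S i n : ℝ) * x ^ n) ^ 2 := by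
    intro i hi
    have := parseval hζ hM0 (fun n => (((tt S i n : ℝ) * x ^ n : ℝ) : ℂ))
    rw [sum_congr rfl fun n _ => hnr _] at this
    rw [← this]
    refine sum_congr rfl fun j _ => ?_
    rw [hu, ← pow_mul, mul_comm 2 i, pow_mul, ← norm_pow _ i, pow_eq hS hi]
    congr 2
    refine sum_congr rfl fun n _ => ?_
    rw [mul_pow]
    push_cast
    ring
  have hm1 := hmom (h - 1) (lt_of_le_of_lt (Nat.mul_le_mul_right L (Nat.sub_le h 1)) hM)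
  have hm2 := hmom h hM
  have hm3 : ∑ j ∈ range M, u j ^ h ≤ M * (K ^ 2 * N) := by
    rw [hm2]
    have : ∑ n ∈ range M, ((tt S h n : ℝ) * x ^ n) ^ 2 ≤ K ^ 2 * N := by
      calc ∑ n ∈ range M, ((tt S h n : ℝ) * x ^ n) ^ 2 ≤ ∑ n ∈ range M, K ^ 2 * x ^ n := by
            refine sum_le_sum fun n _ => ?_
            rw [mul_pow]
            have e1 := hK n
            have e2 : (x ^ n) ^ 2 ≤ x ^ n := by
              have := pow_le_one₀ hx hx1.le (n := n)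
              have h0 : 0 ≤ x ^ n := by positivity
              nlinarith
            gcongr
        _ = K ^ 2 * ∑ n ∈ range M, x ^ n := by rw [mul_sum]
        _ ≤ K ^ 2 * N := by
            have := hN M
            gcongr
    gcongr
  -- upper bound
  set D := ∑ n ∈ range M, (if n < L then ((tt S h n : ℝ) - c) * x ^ n else 0) ^ 2 with hD
  have hup : ∑ j ∈ range M, (1 - ‖KK Q (ζ ^ j)‖ ^ 2) * u j ^ h
      ≤ M * (11 / 10 * D + 176 * c ^ 2 * Q * √N + 22 * K ^ 2) := by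
    have e1 := sum_le_sum fun j (_ : j ∈ range M) =>
      upper_pt2 (h := h) (M := M) hQ hS hM hLM hx hx1 hc hK0 (hz j) hR
    simp only [← hu] at e1
    refine e1.trans ?_
    rw [sum_add_distrib, sum_add_distrib, sum_const, card_range, nsmul_eq_mul, ← mul_sum,
      ← mul_sum]
    have e2 := parseval hζ hM0
      (fun n => ((if n < L then ((tt S h n : ℝ) - c) * x ^ n else 0 : ℝ) : ℂ))
    rw [sum_congr (s₁ := range M) rfl fun n _ => hnr _] at e2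
    rw [e2]
    set E := ∑ j ∈ range M,
      ‖∑ n ∈ range M, ((if n < L then x ^ n else 0 : ℝ) : ℂ) * (ζ ^ j) ^ n‖ with hE
    have hE1 : E ≤ M * √N := by
      have a1 : E ^ 2 ≤ (M * √N) ^ 2 := by
        have a2 := sq_sum_le_card_mul_sum_sq (s := range M) (f := fun j =>
          ‖∑ n ∈ range M, ((if n < L then x ^ n else 0 : ℝ) : ℂ) * (ζ ^ j) ^ n‖)
        have a3 := parseval hζ hM0 (fun n => ((if n < L then x ^ n else 0 : ℝ) : ℂ))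
        rw [sum_congr (s₁ := range M) rfl fun n _ => hnr _] at a3
        rw [a3, card_range] at a2
        rw [mul_pow, Real.sq_sqrt hN0]
        refine a2.trans ?_
        have a4 : ∑ n ∈ range M, (if n < L then x ^ n else 0) ^ 2 ≤ N := by
          refine le_trans (sum_le_sum fun n _ => ?_) (hN M)
          split_ifs
          · have := pow_le_one₀ hx hx1.le (n := n)
            have h0 : 0 ≤ x ^ n := by positivity
            nlinarith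
          · rw [zero_pow (by norm_num)]
            positivity
        calc (M : ℝ) * (M * ∑ n ∈ range M, (if n < L then x ^ n else 0) ^ 2)
            ≤ M * (M * N) := by gcongr
          _ = _ := by ring
      exact (abs_le_of_sq_le_sq' a1 (by positivity)).2
    have hE2 : 176 * c ^ 2 * Q * E ≤ 176 * c ^ 2 * Q * (M * √N) := by gcongr
    linarith
  -- lower bound
  have hlow : (M : ℝ) * ((h : ℝ) * s * s ^ (h - 1) - s ^ h)
      ≤ (h - 1 : ℝ) * ∑ j ∈ range M, (1 - ‖KK Q (ζ ^ j)‖ ^ 2) * u j ^ h := by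
    have hW0 : ∀ j, 0 ≤ 1 - ‖KK Q (ζ ^ j)‖ ^ 2 := fun j => by
      have h1 := KK_le hQ (hz j)
      have h2 : 0 ≤ ‖KK Q (ζ ^ j)‖ := norm_nonneg _
      nlinarith
    have e1 : ∀ j ∈ range M, (h : ℝ) * s * ((1 - ‖KK Q (ζ ^ j)‖ ^ 2) * u j ^ (h - 1)) - s ^ h
        ≤ (h - 1 : ℝ) * ((1 - ‖KK Q (ζ ^ j)‖ ^ 2) * u j ^ h) := by
      intro j _
      have y := young hh (hu0 j) hs
      have w0 := hW0 j
      have w1 : 1 - ‖KK Q (ζ ^ j)‖ ^ 2 ≤ 1 := by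
        have : 0 ≤ ‖KK Q (ζ ^ j)‖ ^ 2 := by positivity
        linarith
      have y2 := mul_le_mul_of_nonneg_left y w0
      have y3 : (1 - ‖KK Q (ζ ^ j)‖ ^ 2) * s ^ h ≤ 1 * s ^ h := by gcongr
      nlinarith
    have e2 := sum_le_sum e1
    rw [sum_sub_distrib, ← mul_sum, ← mul_sum, sum_const, card_range, nsmul_eq_mul] at e2
    have e3 : (M : ℝ) * s ^ (h - 1)
        ≤ ∑ j ∈ range M, (1 - ‖KK Q (ζ ^ j)‖ ^ 2) * u j ^ (h - 1) := by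
      have f1 : ∑ j ∈ range M, (1 - ‖KK Q (ζ ^ j)‖ ^ 2) * u j ^ (h - 1)
          = ∑ j ∈ range M, u j ^ (h - 1)
            - ∑ j ∈ range M, ‖KK Q (ζ ^ j)‖ ^ 2 * u j ^ (h - 1) := by
        rw [← sum_sub_distrib]
        exact sum_congr rfl fun j _ => by ring
      have f2 : ∑ j ∈ range M, ‖KK Q (ζ ^ j)‖ ^ 2 * u j ^ (h - 1)
          ≤ (∑ j ∈ range M, u j ^ h) / σ + σ ^ (h - 1) * (M / Q) := by
        rw [← KK_sum hζ hM0 hQ hQM, sum_div, mul_sum, ← sum_add_distrib]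
        refine sum_le_sum fun j _ => ?_
        have y := young hh (hu0 j) hσ.le
        have k1 := KK_le hQ (hz j)
        have k0 : 0 ≤ ‖KK Q (ζ ^ j)‖ := norm_nonneg _
        have k2 : ‖KK Q (ζ ^ j)‖ ^ 2 ≤ 1 := by nlinarith
        have k3 : 0 ≤ ‖KK Q (ζ ^ j)‖ ^ 2 := by positivity
        have e : σ ^ h = σ ^ (h - 1) * σ := by rw [← pow_succ]; congr 1; omega
        have y1 : u j ^ (h - 1) ≤ u j ^ h / σ + σ ^ (h - 1) := by
          have p1 : 0 ≤ u j ^ h := pow_nonneg (hu0 j) _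
          have p2 : 0 ≤ σ ^ h := by positivity
          have y2 : (h : ℝ) * (u j ^ (h - 1) * σ) ≤ h * (u j ^ h + σ ^ h) := by
            have q : 0 ≤ ((h : ℝ) - 1) * σ ^ h := mul_nonneg (by linarith) p2
            linarith
          have y3 : u j ^ (h - 1) * σ ≤ u j ^ h + σ ^ h :=
            le_of_mul_le_mul_left y2 (by linarith)
          rw [← mul_le_mul_iff_left₀ hσ, add_mul, div_mul_cancel₀ _ hσ.ne']
          linarith
        calc ‖KK Q (ζ ^ j)‖ ^ 2 * u j ^ (h - 1)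
            ≤ ‖KK Q (ζ ^ j)‖ ^ 2 * (u j ^ h / σ + σ ^ (h - 1)) := by gcongr
          _ = ‖KK Q (ζ ^ j)‖ ^ 2 * (u j ^ h / σ) + σ ^ (h - 1) * ‖KK Q (ζ ^ j)‖ ^ 2 := by ring
          _ ≤ 1 * (u j ^ h / σ) + σ ^ (h - 1) * ‖KK Q (ζ ^ j)‖ ^ 2 := by
              have p1 : 0 ≤ u j ^ h := pow_nonneg (hu0 j) _
              gcongr
          _ = _ := by rw [one_mul]
      have f3 : (∑ j ∈ range M, u j ^ h) / σ ≤ M * (K ^ 2 * N) / σ := by gcongr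
      rw [f1, hm1]
      have f4 := mul_le_mul_of_nonneg_left hsσ hMpos.le
      have f5 : (M : ℝ) * (∑ n ∈ range M, ((tt S (h - 1) n : ℝ) * x ^ n) ^ 2
        - (K ^ 2 * N / σ + σ ^ (h - 1) / Q))
        = M * ∑ n ∈ range M, ((tt S (h - 1) n : ℝ) * x ^ n) ^ 2
          - (M * (K ^ 2 * N) / σ + σ ^ (h - 1) * (M / Q)) := by ring
      rw [f5] at f4
      linarith
    refine le_trans ?_ e2
    have e4 : (h : ℝ) * s * (M * s ^ (h - 1))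
        ≤ h * s * ∑ j ∈ range M, (1 - ‖KK Q (ζ ^ j)‖ ^ 2) * u j ^ (h - 1) := by gcongr
    linarith
  have e : (h : ℝ) * s * s ^ (h - 1) - s ^ h = (h - 1) * s ^ h := by
    have : s ^ h = s * s ^ (h - 1) := by rw [← pow_succ']; congr 1; omega
    rw [this]; ring
  rw [e] at hlow
  have e2 : (h - 1 : ℝ) * ∑ j ∈ range M, (1 - ‖KK Q (ζ ^ j)‖ ^ 2) * u j ^ h
      ≤ (h - 1 : ℝ) * (M * (11 / 10 * D + 176 * c ^ 2 * Q * √N + 22 * K ^ 2)) := by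
    have : (0 : ℝ) ≤ h - 1 := by linarith
    gcongr
  have e3 : ((h - 1 : ℝ) * M) * s ^ h
      ≤ ((h - 1 : ℝ) * M) * (11 / 10 * D + 176 * c ^ 2 * Q * √N + 22 * K ^ 2) := by
    linarith
  exact le_of_mul_le_mul_left e3 (by
    have : (0 : ℝ) < h - 1 := by linarith
    positivity)

end Pool.Agent.H601.GV
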