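import Pool.Agent.H601.GV.Fe

/-! The combinatorial part for `r ≤ 2` -/

set_option autoImplicit false

namespace Pool.Agent.H601.GV

open Finset Pool.Agent.H601

theorem tt_le2 {B : Set ℕ} {h C : ℕ} (hB : ∀ n, rep B h n ≤ C) {S : Finset ℕ}
    (hS : ∀ b ∈ S, b ∈ B) (n : ℕ) : tt S h n ≤ C * h.factorial := by
  unfold tt
  have hc : ((S.sym h).filter (fun k => k.val.sum = n)).card ≤ C := by
    refine le_trans ?_ (hB n)
    unfold rep
    have himg : (((S.sym h).filter (fun k => k.val.sum = n)).image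
        (fun k : Sym ℕ h => (k.val : Multiset ℕ))).card
        = ((S.sym h).filter (fun k => k.val.sum = n)).card :=
      card_image_of_injective _ (fun a b hab => Subtype.ext hab)
    rw [← himg, ← Set.ncard_coe_finset]
    refine Set.ncard_le_ncard ?_ (reps_finite B h n)
    intro s hs
    rw [mem_coe, mem_image] at hs
    obtain ⟨k, hk, rfl⟩ := hs
    have hk' := mem_filter.1 hk
    exact ⟨k.2, fun a ha => hS a (mem_sym_iff.1 hk'.1 a ha), hk'.2⟩
  calc ∑ k ∈ (S.sym h).filter (fun k => k.val.sum = n), k.val.countPerms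
      ≤ ∑ k ∈ (S.sym h).filter (fun k => k.val.sum = n), h.factorial := by
        refine sum_le_sum fun k _ => ?_
        have := countPerms_le k.val
        rwa [k.2] at this
    _ = ((S.sym h).filter (fun k => k.val.sum = n)).card * h.factorial := by
        rw [sum_const, smul_eq_mul]
    _ ≤ C * h.factorial := by gcongr

theorem exceptional2 {A : Set ℕ} {F : Finset ℕ} {h n₀ L n : ℕ}
    (hA : ∀ n, n₀ ≤ n → 1 ≤ rep A h n) (hn : n₀ ≤ n) (hnL : n < L) :
    h.factorial ≤ tt (cut (A \ F) L) h n ∨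
      n ∈ (PP A F h L).image (fun p => p.2 + p.1.val.sum) := by
  obtain ⟨s, h1, h2, h3⟩ := exists_of_rep_pos (hA n hn)
  have hlt : ∀ a ∈ s, a < L := fun a ha => by
    have := Multiset.le_sum_of_mem ha
    omega
  have main : ∀ a ∈ s, a ∈ F ∪ (s.erase a).toFinset →
      n ∈ (PP A F h L).image (fun p => p.2 + p.1.val.sum) := by
    intro a ha haF
    have hc : Multiset.card (s.erase a) = h - 1 := by
      rw [Multiset.card_erase_of_mem ha, h1]; rfl
    rw [mem_image]
    refine ⟨⟨⟨s.erase a, hc⟩, a⟩, ?_, ?_⟩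
    · unfold PP
      rw [mem_sigma, mem_sym_iff]
      refine ⟨fun b hb => ?_, haF⟩
      have hb' : b ∈ s := Multiset.mem_of_mem_erase (show b ∈ s.erase a from hb)
      exact mem_cut.2 ⟨hlt b hb', h2 b hb'⟩
    · have : a + (s.erase a).sum = s.sum := by
        rw [← Multiset.sum_cons, Multiset.cons_erase ha]
      exact this.trans h3
  by_cases hF : ∃ a ∈ s, a ∈ F
  · obtain ⟨a, ha, haF⟩ := hF
    exact Or.inr (main a ha (mem_union_left _ haF))
  · push Not at hF
    by_cases hnd : s.Nodup
    · left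
      have := one_le_tt (S := cut (A \ F) L) h1
        (fun a ha => mem_cut.2 ⟨hlt a ha, h2 a ha, fun haF => hF a ha (by simpa using haF)⟩) h3
      rwa [countPerms_nodup hnd, h1] at this
    · right
      rw [Multiset.nodup_iff_count_le_one] at hnd
      push Not at hnd
      obtain ⟨a, ha⟩ := hnd
      have has : a ∈ s := Multiset.count_pos.1 (by omega)
      refine main a has (mem_union_right _ ?_)
      rw [Multiset.mem_toFinset, ← Multiset.count_pos, Multiset.count_erase_self]
      omega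

/-- the contribution of the multisets with repeated elements -/
theorem rep_sum (S : Finset ℕ) {k : ℕ} (hk : 1 ≤ k) {y : ℝ} (hy : 0 ≤ y) (hy1 : y ≤ 1) :
    ∑ s ∈ (S.sym k).filter (fun s => ¬ s.val.Nodup), (s.val.countPerms : ℝ) * y ^ s.val.sum
      ≤ (k.factorial * k) * (∑ a ∈ S, y ^ a) ^ (k - 1) := by
  classical
  -- choose a repeated element
  have hch : ∀ s : Sym ℕ k, ∃ a : ℕ, ¬ s.val.Nodup → a ∈ s.val ∧ a ∈ s.val.erase a := by
    intro s
    by_cases hnd : s.val.Nodup
    · exact ⟨0, fun h => absurd hnd h⟩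
    · have hnd' := hnd
      rw [Multiset.nodup_iff_count_le_one] at hnd'
      push Not at hnd'
      obtain ⟨a, ha⟩ := hnd'
      refine ⟨a, fun _ => ⟨Multiset.count_pos.1 (by omega), ?_⟩⟩
      rw [← Multiset.count_pos, Multiset.count_erase_self]
      omega
  choose c hc using hch
  let T : Finset (Multiset ℕ × ℕ) :=
    ((S.sym (k - 1)).image (fun t => t.val)).biUnion
      (fun t => t.toFinset.image (fun a => (t, a)))
  have hmaps : ∀ s ∈ (S.sym k).filter (fun s => ¬ s.val.Nodup),
      (s.val.erase (c s), c s) ∈ T := by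
    intro s hs
    have hs' := mem_filter.1 hs
    obtain ⟨h1, h2⟩ := hc s hs'.2
    have hcard : Multiset.card (s.val.erase (c s)) = k - 1 := by
      rw [Multiset.card_erase_of_mem h1, s.2]; rfl
    rw [mem_biUnion]
    refine ⟨s.val.erase (c s), ?_, ?_⟩
    · rw [mem_image]
      obtain ⟨t0, ht0⟩ : ∃ t0 : Sym ℕ (k - 1), t0.val = s.val.erase (c s) := ⟨⟨_, hcard⟩, rfl⟩
      refine ⟨t0, ?_, ht0⟩
      rw [mem_sym_iff]
      intro b hb
      have hb' : b ∈ t0.val := hb
      rw [ht0] at hb'
      exact mem_sym_iff.1 hs'.1 b (Multiset.mem_of_mem_erase hb')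
    · rw [mem_image]
      exact ⟨c s, Multiset.mem_toFinset.2 h2, rfl⟩
  have hinj : Set.InjOn (fun s : Sym ℕ k => (s.val.erase (c s), c s))
      ((S.sym k).filter (fun s => ¬ s.val.Nodup) : Finset (Sym ℕ k)) := by
    intro s hs t ht hst
    have hs' := (mem_filter.1 (mem_coe.1 hs)).2
    have ht' := (mem_filter.1 (mem_coe.1 ht)).2
    simp only [Prod.mk.injEq] at hst
    apply Subtype.ext
    rw [← Multiset.cons_erase (hc s hs').1, ← Multiset.cons_erase (hc t ht').1, hst.1, hst.2]
  have h1 : ∑ s ∈ (S.sym k).filter (fun s => ¬ s.val.Nodup),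
      (s.val.countPerms : ℝ) * y ^ s.val.sum
      ≤ ∑ s ∈ (S.sym k).filter (fun s => ¬ s.val.Nodup),
        (k.factorial : ℝ) * y ^ (s.val.erase (c s)).sum := by
    refine sum_le_sum fun s hs => ?_
    have hs' := (mem_filter.1 hs).2
    have e1 : (s.val.countPerms : ℝ) ≤ k.factorial := by
      have := countPerms_le s.val
      rw [s.2] at this
      exact_mod_cast this
    have e2 : y ^ s.val.sum ≤ y ^ (s.val.erase (c s)).sum := by
      apply pow_le_pow_of_le_one hy hy1
      have : c s + (s.val.erase (c s)).sum = s.val.sum := by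
        rw [← Multiset.sum_cons, Multiset.cons_erase (hc s hs').1]
      omega
    gcongr
  refine h1.trans ?_
  have h2 : ∑ s ∈ (S.sym k).filter (fun s => ¬ s.val.Nodup),
        (k.factorial : ℝ) * y ^ (s.val.erase (c s)).sum
      ≤ ∑ p ∈ T, (k.factorial : ℝ) * y ^ p.1.sum := by
    rw [← sum_image (f := fun p : Multiset ℕ × ℕ => (k.factorial : ℝ) * y ^ p.1.sum) hinj]
    apply sum_le_sum_of_subset_of_nonneg
    · intro p hp
      obtain ⟨s, hs, rfl⟩ := mem_image.1 hp
      exact hmaps s hs
    · intros; positivity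
  refine h2.trans ?_
  have h3 : ∑ p ∈ T, (k.factorial : ℝ) * y ^ p.1.sum
      ≤ ∑ t ∈ (S.sym (k - 1)).image (fun t => t.val),
        ∑ p ∈ t.toFinset.image (fun a => (t, a)), (k.factorial : ℝ) * y ^ p.1.sum := by
    apply le_of_eq
    apply sum_biUnion
    intro t _ t' _ htt'
    rw [Function.onFun, disjoint_left]
    intro p hp hp'
    obtain ⟨a, _, rfl⟩ := mem_image.1 hp
    obtain ⟨a', _, h'⟩ := mem_image.1 hp'
    simp only [Prod.mk.injEq] at h'
    exact htt' h'.1.symm
  refine h3.trans ?_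
  rw [sum_image (s := S.sym (k - 1)) (g := fun t : Sym ℕ (k - 1) => t.val)
    (fun a _ b _ hab => Subtype.ext hab), Finset.sum_pow, mul_sum]
  refine sum_le_sum fun t ht => ?_
  rw [map_pow_prod]
  have h4 : ∀ τ : Multiset ℕ, ∑ p ∈ τ.toFinset.image (fun a => (τ, a)),
      (k.factorial : ℝ) * y ^ p.1.sum
      = (τ.toFinset.card : ℝ) * (k.factorial * y ^ τ.sum) := by
    intro τ
    rw [sum_image (fun a _ b _ hab => by simpa using hab)]
    show ∑ _a ∈ τ.toFinset, ((k.factorial : ℝ) * y ^ τ.sum) = _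
    rw [sum_const, nsmul_eq_mul]
  rw [h4 t.val]
  have h5 : (t.val.toFinset.card : ℝ) ≤ k := by
    have := Multiset.toFinset_card_le t.val
    rw [t.2] at this
    exact_mod_cast (show t.val.toFinset.card ≤ k by omega)
  have h6 : (1 : ℝ) ≤ (t.val.countPerms : ℝ) := by exact_mod_cast countPerms_pos t.val
  calc (t.val.toFinset.card : ℝ) * (k.factorial * y ^ t.val.sum)
      ≤ k * (k.factorial * y ^ t.val.sum) := by gcongr
    _ = k.factorial * k * (1 * y ^ t.val.sum) := by ring
    _ ≤ k.factorial * k * (t.val.countPerms * y ^ t.val.sum) := by gcongr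

/-- lower bound for the moments -/
theorem mom_lower {S : Finset ℕ} {k L M : ℕ} (hk : 1 ≤ k) (hS : ∀ b ∈ S, b < L) (hM : k * L < M)
    {x : ℝ} (hx : 0 ≤ x) (hx1 : x ≤ 1) :
    (k.factorial : ℝ) * ((∑ a ∈ S, (x ^ 2) ^ a) ^ k
      - (k.factorial * k) * (∑ a ∈ S, (x ^ 2) ^ a) ^ (k - 1))
      ≤ ∑ n ∈ range M, ((tt S k n : ℝ) * x ^ n) ^ 2 := by
  classical
  have hy : 0 ≤ x ^ 2 := by positivity
  have hy1 : x ^ 2 ≤ 1 := pow_le_one₀ hx hx1
  have h0 := rep_sum S hk hy hy1
  have h1 : (∑ a ∈ S, (x ^ 2) ^ a) ^ k - ∑ s ∈ (S.sym k).filter (fun s => ¬ s.val.Nodup),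
      (s.val.countPerms : ℝ) * (x ^ 2) ^ s.val.sum
      = ∑ s ∈ (S.sym k).filter (fun s => s.val.Nodup),
      (s.val.countPerms : ℝ) * (x ^ 2) ^ s.val.sum := by
    rw [Finset.sum_pow, ← sum_filter_add_sum_filter_not (S.sym k) (fun s => s.val.Nodup)]
    simp only [map_pow_prod]
    ring
  have h2 : (k.factorial : ℝ) * ∑ s ∈ (S.sym k).filter (fun s => s.val.Nodup),
      (s.val.countPerms : ℝ) * (x ^ 2) ^ s.val.sum
      ≤ ∑ n ∈ range M, ((tt S k n : ℝ) * x ^ n) ^ 2 := by
    rw [← Finset.sum_fiberwise_of_maps_to (s := (S.sym k).filter (fun s => s.val.Nodup))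
      (t := range M) (g := fun s => s.val.sum), mul_sum]
    · refine sum_le_sum fun n _ => ?_
      have e1 : ∀ s ∈ ((S.sym k).filter (fun s => s.val.Nodup)).filter (fun s => s.val.sum = n),
          (s.val.countPerms : ℝ) * (x ^ 2) ^ s.val.sum = s.val.countPerms * (x ^ n) ^ 2 := by
        intro s hs
        rw [(mem_filter.1 hs).2, ← pow_mul, ← pow_mul, mul_comm 2 n]
      rw [sum_congr rfl e1, ← sum_mul]
      by_cases hne : (((S.sym k).filter (fun s => s.val.Nodup)).filter
          (fun s => s.val.sum = n)).Nonempty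
      · obtain ⟨s, hs⟩ := hne
        have hs1 := mem_filter.1 hs
        have hs2 := mem_filter.1 hs1.1
        have e2 : (k.factorial : ℝ) ≤ tt S k n := by
          have := one_le_tt (S := S) s.2 (fun a ha => mem_sym_iff.1 hs2.1 a ha) hs1.2
          rw [countPerms_nodup hs2.2, s.2] at this
          exact_mod_cast this
        have e3 : ∑ s ∈ ((S.sym k).filter (fun s => s.val.Nodup)).filter
            (fun s => s.val.sum = n), (s.val.countPerms : ℝ) ≤ tt S k n := by
          unfold tt
          rw [Nat.cast_sum]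
          apply sum_le_sum_of_subset_of_nonneg
          · intro s hs
            have hs1 := mem_filter.1 hs
            exact mem_filter.2 ⟨(mem_filter.1 hs1.1).1, hs1.2⟩
          · intros; positivity
        calc (k.factorial : ℝ) * ((∑ s ∈ ((S.sym k).filter (fun s => s.val.Nodup)).filter
            (fun s => s.val.sum = n), (s.val.countPerms : ℝ)) * (x ^ n) ^ 2)
            ≤ tt S k n * (tt S k n * (x ^ n) ^ 2) := by gcongr
          _ = _ := by ring
      · rw [not_nonempty_iff_eq_empty] at hne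
        rw [hne, sum_empty, zero_mul, mul_zero]
        positivity
    · intro s hs
      have hs' := mem_filter.1 hs
      rw [mem_range]
      refine lt_of_le_of_lt (sum_le s.val (fun b hb => hS b ?_) s.2) hM
      exact Finset.mem_sym_iff.1 hs'.1 b hb
  rw [← h1] at h2
  refine le_trans ?_ h2
  have hf : (0 : ℝ) ≤ k.factorial := by positivity
  exact mul_le_mul_of_nonneg_left (by linarith) hf

end Pool.Agent.H601.GV
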