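import Pool.Agent.H601.GV.Gb
import Pool.Agent.H601.GV.Gc
import Pool.Agent.H601.GV.Ff

/-! One step -/

set_option autoImplicit false

namespace Pool.Agent.H601.GV

open Finset Pool.Agent.H601

theorem stepG {A : Set ℕ} {F : Finset ℕ} {h n₀ m Q : ℕ} (hh : 2 ≤ h)
    (hA : ∀ n, n₀ ≤ n → 1 ≤ rep A h n) (hB : ∀ n, rep (A \ F) h n ≤ 2) (hm : 1 ≤ m)
    (hmn : n₀ ≤ m) (hQ : 1 ≤ Q) :
    ∃ a X Y W G : ℝ, 0 ≤ a ∧ 0 ≤ X ∧ X ≤ Y ∧ (m : ℝ) / 32 ≤ X ^ h ∧
      Y ≤ W + F.card ∧ 0 ≤ W ∧ W ^ h ≤ 2 * h.factorial * (2 * m) ∧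
      X ≤ a + F.card ∧ (m : ℝ) / 32 ≤ G ∧
      h.factorial * (G - (n₀ + (F.card + h) * Y ^ (h - 1))) ≤ a ^ h ∧
      ∀ s σ : ℝ, 0 ≤ s → 0 < σ →
        s ^ (h - 1) ≤ (h - 1).factorial * (a ^ (h - 1)
          - ((h - 1).factorial * (h - 1 : ℕ)) * a ^ (h - 1 - 1))
          - ((2 * h.factorial : ℝ) ^ 2 * (2 * m) / σ + σ ^ (h - 1) / Q) →
        s ^ h ≤ 11 / 10 * ((h.factorial : ℝ) ^ 2 / 4 * G
          + (2 * h.factorial : ℝ) ^ 2 * (n₀ + (F.card + h) * Y ^ (h - 1)))
          + 176 * (3 / 2 * h.factorial : ℝ) ^ 2 * Q * √(2 * m)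
          + 22 * (2 * h.factorial : ℝ) ^ 2 := by
  classical
  have hm' : (1 : ℝ) ≤ m := by exact_mod_cast hm
  obtain ⟨x, hxdef⟩ : ∃ x : ℝ, x = 1 - 1 / (2 * m) := ⟨_, rfl⟩
  have hx1' : 1 - x = 1 / (2 * m) := by rw [hxdef]; ring
  have h12 : (1 : ℝ) / (2 * m) ≤ 1 / 2 := by
    apply one_div_le_one_div_of_le (by norm_num)
    linarith
  have hpos : (0 : ℝ) < 1 / (2 * m) := by positivity
  have hx0 : 0 < x := by linarith
  have hx1 : x < 1 := by linarith
  have hxm : 1 / 2 ≤ x ^ m := by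
    have := one_add_mul_le_pow (a := -(1 / (2 * (m : ℝ)))) (by linarith) m
    have e : 1 + -(1 / (2 * (m : ℝ))) = x := by rw [hxdef]; ring
    rw [e] at this
    refine le_trans (le_of_eq ?_) this
    field_simp
    ring
  obtain ⟨L0, hL0⟩ := exists_pow_lt_of_lt_one (show 0 < 1 - x by linarith) hx1
  obtain ⟨L, hL⟩ : ∃ L, L = max (max L0 Q) (n₀ + 2 * m) := ⟨_, rfl⟩
  have hL1 : n₀ + 2 * m ≤ L := by omega
  have hLQ : Q ≤ L := by omega
  have hL2 : x ^ L ≤ 1 - x :=
    (pow_le_pow_of_le_one hx0.le hx1.le (by omega)).trans hL0.le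
  obtain ⟨M, hM'⟩ : ∃ M, M = h * L + L + 1 := ⟨_, rfl⟩
  have hM1 : h * L < M := by omega
  have hM2 : L ≤ M := by omega
  have hM3 : (h - 1) * L < M := lt_of_le_of_lt (Nat.mul_le_mul_right L (Nat.sub_le h 1)) hM1
  have hS : ∀ b ∈ cut (A \ F) L, b < L := fun b hb => (mem_cut.1 hb).1
  have hSA : ∀ b ∈ cut A L, b < L := fun b hb => (mem_cut.1 hb).1
  have htt : ∀ n, (tt (cut (A \ F) L) h n : ℝ) ≤ 2 * h.factorial := fun n => by
    exact_mod_cast tt_le2 hB (fun b hb => (mem_cut.1 hb).2) n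
  have hfac : (0 : ℝ) < h.factorial := by exact_mod_cast h.factorial_pos
  have hgeo : ∀ K, ∑ i ∈ range K, x ^ i ≤ 2 * m := by
    intro K
    have h1 := geo hx0.le K
    rw [hx1'] at h1
    have h2 : ∑ i ∈ range K, x ^ i = (2 * m) * (1 / (2 * m) * ∑ i ∈ range K, x ^ i) := by
      field_simp
    rw [h2]
    calc (2 * (m : ℝ)) * (1 / (2 * m) * ∑ i ∈ range K, x ^ i) ≤ (2 * m) * 1 := by gcongr
      _ = 2 * m := by ring
  -- the sets
  have hsub : cut A L ⊆ cut (A \ F) L ∪ F := by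
    intro a ha
    rw [mem_cut] at ha
    rw [mem_union, mem_cut]
    by_cases haF : a ∈ F
    · exact Or.inr haF
    · exact Or.inl ⟨ha.1, ha.2, by simpa using haF⟩
  have hsum : ∀ y : ℝ, 0 ≤ y → y ≤ 1 →
      ∑ a ∈ cut A L, y ^ a ≤ ∑ b ∈ cut (A \ F) L, y ^ b + F.card := by
    intro y hy hy1
    calc ∑ a ∈ cut A L, y ^ a ≤ ∑ a ∈ cut (A \ F) L ∪ F, y ^ a :=
          sum_le_sum_of_subset_of_nonneg hsub fun _ _ _ => by positivity
      _ ≤ ∑ b ∈ cut (A \ F) L, y ^ b + ∑ b ∈ F, y ^ b := by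
          rw [← sum_union_inter]
          have : 0 ≤ ∑ a ∈ cut (A \ F) L ∩ F, y ^ a := sum_nonneg fun _ _ => by positivity
          linarith
      _ ≤ ∑ b ∈ cut (A \ F) L, y ^ b + ∑ b ∈ F, (1 : ℝ) := by
          gcongr
          exact pow_le_one₀ hy hy1
      _ = _ := by rw [sum_const, nsmul_eq_mul, mul_one]
  have h64 : ∀ n, n < n₀ + 2 * m → (1 : ℝ) / 64 ≤ (x ^ 2) ^ n := by
    intro n hn
    calc (1 : ℝ) / 64 = (1 / 2) ^ 6 := by norm_num
      _ ≤ (x ^ m) ^ 6 := by gcongr
      _ = x ^ (6 * m) := by rw [← pow_mul, mul_comm]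
      _ ≤ x ^ (2 * n) := pow_le_pow_of_le_one hx0.le hx1.le (by omega)
      _ = (x ^ 2) ^ n := by rw [← pow_mul]
  -- the exceptional set
  set I := (PP A F h L).image (fun p => p.2 + p.1.val.sum) with hI
  set Y := ∑ a ∈ cut A L, x ^ a with hY
  have hIsum : ∀ K, ∑ n ∈ range K, ((if n < n₀ then (1 : ℝ) else 0) + (if n ∈ I then x ^ n else 0))
      ≤ n₀ + (F.card + h) * Y ^ (h - 1) := by
    intro K
    rw [sum_add_distrib]
    have e1 : ∑ n ∈ range K, (if n < n₀ then (1 : ℝ) else 0) ≤ n₀ := by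
      rw [← sum_filter, sum_const, nsmul_eq_mul, mul_one]
      have : ((range K).filter (fun n => n < n₀)).card ≤ n₀ := by
        calc _ ≤ (range n₀).card := card_le_card fun n hn => by
              rw [mem_filter] at hn
              exact mem_range.2 hn.2
          _ = n₀ := card_range _
      exact_mod_cast this
    have e2 : ∑ n ∈ range K, (if n ∈ I then x ^ n else 0)
        ≤ (F.card + h) * Y ^ (h - 1) := by
      refine le_trans ?_ (exc_sum hh hx0.le hx1.le)
      rw [← sum_filter]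
      apply sum_le_sum_of_subset_of_nonneg
      · intro n hn
        rw [mem_filter] at hn
        exact hn.2
      · intros; positivity
    linarith
  have hcase : ∀ n, n < L → (h.factorial : ℝ) ≤ tt (cut (A \ F) L) h n ∨
      x ^ n ≤ (if n < n₀ then (1 : ℝ) else 0) + (if n ∈ I then x ^ n else 0) := by
    intro n hnL
    by_cases hn0 : n < n₀
    · right
      rw [if_pos hn0]
      have := pow_le_one₀ hx0.le hx1.le (n := n)
      have h0 : (0 : ℝ) ≤ (if n ∈ I then x ^ n else 0) := by positivity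
      linarith
    · rcases exceptional2 (F := F) hA (not_lt.1 hn0) hnL with h2 | h2
      · left
        exact_mod_cast h2
      · right
        rw [if_neg hn0, if_pos h2, zero_add]
  have hsq1 : ∀ n, (x ^ 2) ^ n ≤ x ^ n := fun n => by
    rw [← pow_mul]
    exact pow_le_pow_of_le_one hx0.le hx1.le (by omega)
  refine ⟨∑ b ∈ cut (A \ F) L, (x ^ 2) ^ b, ∑ a ∈ cut A L, (x ^ 2) ^ a, Y,
    ∑ b ∈ cut (A \ F) L, x ^ b, ∑ n ∈ range L, (x ^ 2) ^ n,
    sum_nonneg fun _ _ => by positivity, sum_nonneg fun _ _ => by positivity,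
    sum_le_sum fun a _ => hsq1 a, ?_,
    hsum x hx0.le hx1.le, sum_nonneg fun _ _ => by positivity, ?_,
    hsum (x ^ 2) (by positivity) (pow_le_one₀ hx0.le hx1.le), ?_, ?_, ?_⟩
  · rw [pow_eq hSA hM1]
    have h1 : ∀ n ∈ Ico n₀ (n₀ + 2 * m), (1 : ℝ) / 64
        ≤ (tt (cut A L) h n : ℝ) * (x ^ 2) ^ n := by
      intro n hn
      rw [mem_Ico] at hn
      obtain ⟨σ, h1, h2, h3⟩ := exists_of_rep_pos (hA n hn.1)
      have h4 := one_le_tt (S := cut A L) h1 (fun a ha => mem_cut.2 ⟨by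
        have := Multiset.le_sum_of_mem ha
        omega, h2 a ha⟩) h3
      have h5 : (1 : ℝ) ≤ (tt (cut A L) h n : ℝ) := by
        exact_mod_cast (countPerms_pos σ).trans h4
      have h6 := h64 n hn.2
      nlinarith
    calc (m : ℝ) / 32 = ∑ n ∈ Ico n₀ (n₀ + 2 * m), (1 : ℝ) / 64 := by
          rw [sum_const, Nat.card_Ico, nsmul_eq_mul, Nat.add_sub_cancel_left]
          push_cast
          ring
      _ ≤ ∑ n ∈ Ico n₀ (n₀ + 2 * m), (tt (cut A L) h n : ℝ) * (x ^ 2) ^ n := sum_le_sum h1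
      _ ≤ _ := by
          apply sum_le_sum_of_subset_of_nonneg
          · intro n hn
            rw [mem_Ico] at hn
            rw [mem_range]
            omega
          · intros; positivity
  · rw [pow_eq hS hM1]
    calc ∑ n ∈ range M, (tt (cut (A \ F) L) h n : ℝ) * x ^ n
        ≤ ∑ n ∈ range M, (2 * h.factorial : ℝ) * x ^ n := by
          refine sum_le_sum fun n _ => ?_
          have := htt n
          gcongr
      _ = 2 * h.factorial * ∑ n ∈ range M, x ^ n := by rw [mul_sum]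
      _ ≤ _ := by
          have := hgeo M
          gcongr
  · calc (m : ℝ) / 32 = ∑ n ∈ range (2 * m), (1 : ℝ) / 64 := by
          rw [sum_const, card_range, nsmul_eq_mul]
          push_cast
          ring
      _ ≤ ∑ n ∈ range (2 * m), (x ^ 2) ^ n :=
          sum_le_sum fun n hn => h64 n (by rw [mem_range] at hn; omega)
      _ ≤ _ := by
          apply sum_le_sum_of_subset_of_nonneg
          · intro n hn
            rw [mem_range] at hn ⊢
            omega
          · intros; positivity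
  · rw [pow_eq hS hM1]
    have h1 : ∑ n ∈ range L, (h.factorial : ℝ) * ((x ^ 2) ^ n
        - ((if n < n₀ then (1 : ℝ) else 0) + (if n ∈ I then x ^ n else 0)))
        ≤ ∑ n ∈ range L, (tt (cut (A \ F) L) h n : ℝ) * (x ^ 2) ^ n := by
      refine sum_le_sum fun n hn => ?_
      have hr0 : (0 : ℝ) ≤ (if n < n₀ then 1 else 0) + (if n ∈ I then x ^ n else 0) := by
        positivity
      have hp : 0 ≤ (x ^ 2) ^ n := by positivity
      rcases hcase n (mem_range.1 hn) with h2 | h2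
      · have h3 : (h.factorial : ℝ) * (x ^ 2) ^ n ≤ tt (cut (A \ F) L) h n * (x ^ 2) ^ n := by
          gcongr
        have h4 : 0 ≤ (h.factorial : ℝ)
          * ((if n < n₀ then 1 else 0) + (if n ∈ I then x ^ n else 0)) := by positivity
        rw [mul_sub]
        linarith
      · have h3 : (h.factorial : ℝ) * ((x ^ 2) ^ n
            - ((if n < n₀ then (1 : ℝ) else 0) + (if n ∈ I then x ^ n else 0))) ≤ 0 := by
          apply mul_nonpos_of_nonneg_of_nonpos hfac.le
          have := hsq1 n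
          linarith
        have h4 : 0 ≤ (tt (cut (A \ F) L) h n : ℝ) * (x ^ 2) ^ n := by positivity
        linarith
    have h2 : ∑ n ∈ range L, (tt (cut (A \ F) L) h n : ℝ) * (x ^ 2) ^ n
        ≤ ∑ n ∈ range M, (tt (cut (A \ F) L) h n : ℝ) * (x ^ 2) ^ n := by
      apply sum_le_sum_of_subset_of_nonneg
      · intro n hn
        rw [mem_range] at hn ⊢
        omega
      · intros; positivity
    refine le_trans ?_ (h1.trans h2)
    rw [← mul_sum, sum_sub_distrib]
    have h3 := hIsum L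
    exact mul_le_mul_of_nonneg_left (by linarith) hfac.le
  · intro s σ hs hσ hsσ
    have hR : ∑ n ∈ Ico L M, (tt (cut (A \ F) L) h n : ℝ) * x ^ n ≤ 2 * h.factorial := by
      calc ∑ n ∈ Ico L M, (tt (cut (A \ F) L) h n : ℝ) * x ^ n
          ≤ ∑ n ∈ Ico L M, (2 * h.factorial : ℝ) * x ^ n := by
            refine sum_le_sum fun n _ => ?_
            have := htt n
            gcongr
        _ = 2 * h.factorial * (x ^ L * ∑ i ∈ range (M - L), x ^ i) := by
            rw [sum_Ico_eq_sum_range, mul_sum, mul_sum]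
            exact sum_congr rfl fun i _ => by rw [pow_add]
        _ ≤ 2 * h.factorial * ((1 - x) * ∑ i ∈ range (M - L), x ^ i) := by
            have : 0 ≤ ∑ i ∈ range (M - L), x ^ i := sum_nonneg fun _ _ => by positivity
            gcongr
        _ ≤ 2 * h.factorial * 1 := by
            have := geo hx0.le (M - L)
            gcongr
        _ = _ := mul_one _
    have h1 := avg2 (Q := Q) (N := 2 * m) (c := 3 / 2 * h.factorial) (K := 2 * h.factorial)
      (s := s) (σ := σ) hh hQ (by omega) hS hM1 hM2 hx0.le hx1 (by positivity) htt hgeo hR hs hσ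
      (hsσ.trans (sub_le_sub_right (mom_lower (by omega) hS hM3 hx0.le hx1.le) _))
    refine h1.trans ?_
    have hD : ∑ n ∈ range M, (if n < L then ((tt (cut (A \ F) L) h n : ℝ) - 3 / 2 * h.factorial)
          * x ^ n else 0) ^ 2
        ≤ (h.factorial : ℝ) ^ 2 / 4 * (∑ n ∈ range L, (x ^ 2) ^ n)
          + (2 * h.factorial : ℝ) ^ 2 * (n₀ + (F.card + h) * Y ^ (h - 1)) := by
      rw [← sum_range_add_sum_Ico _ hM2]
      have e0 : ∑ n ∈ Ico L M, (if n < L then ((tt (cut (A \ F) L) h n : ℝ)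
          - 3 / 2 * h.factorial) * x ^ n else 0) ^ 2 = 0 := by
        refine sum_eq_zero fun n hn => ?_
        rw [if_neg (by rw [mem_Ico] at hn; omega), zero_pow (by norm_num)]
      rw [e0, add_zero]
      have hterm : ∀ n ∈ range L,
          (if n < L then ((tt (cut (A \ F) L) h n : ℝ) - 3 / 2 * h.factorial) * x ^ n else 0) ^ 2
          ≤ (h.factorial : ℝ) ^ 2 / 4 * (x ^ 2) ^ n + (2 * h.factorial : ℝ) ^ 2
            * ((if n < n₀ then 1 else 0) + (if n ∈ I then x ^ n else 0)) := by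
        intro n hn
        have hr0 : (0 : ℝ) ≤ (if n < n₀ then 1 else 0) + (if n ∈ I then x ^ n else 0) := by
          positivity
        rw [if_pos (mem_range.1 hn)]
        have ht0 : (0 : ℝ) ≤ tt (cut (A \ F) L) h n := by positivity
        have ht1 := htt n
        have hp : 0 ≤ (x ^ 2) ^ n := by positivity
        have e : (((tt (cut (A \ F) L) h n : ℝ) - 3 / 2 * h.factorial) * x ^ n) ^ 2
            = ((tt (cut (A \ F) L) h n : ℝ) - 3 / 2 * h.factorial) ^ 2 * (x ^ 2) ^ n := by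
          rw [mul_pow, ← pow_mul, ← pow_mul, mul_comm n 2]
        rw [e]
        rcases hcase n (mem_range.1 hn) with h2 | h2
        · have h3 : ((tt (cut (A \ F) L) h n : ℝ) - 3 / 2 * h.factorial) ^ 2
              ≤ (h.factorial : ℝ) ^ 2 / 4 := by nlinarith
          have h4 : 0 ≤ (2 * h.factorial : ℝ) ^ 2
            * ((if n < n₀ then 1 else 0) + (if n ∈ I then x ^ n else 0)) := by positivity
          have h5 := mul_le_mul_of_nonneg_right h3 hp
          linarith
        · have h3 : ((tt (cut (A \ F) L) h n : ℝ) - 3 / 2 * h.factorial) ^ 2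
              ≤ (2 * h.factorial : ℝ) ^ 2 := by nlinarith
          have h4 : (x ^ 2) ^ n ≤ (if n < n₀ then 1 else 0) + (if n ∈ I then x ^ n else 0) :=
            (hsq1 n).trans h2
          have h5 : ((tt (cut (A \ F) L) h n : ℝ) - 3 / 2 * h.factorial) ^ 2 * (x ^ 2) ^ n
              ≤ (2 * h.factorial : ℝ) ^ 2
                * ((if n < n₀ then 1 else 0) + (if n ∈ I then x ^ n else 0)) := by gcongr
          have h6 : 0 ≤ (h.factorial : ℝ) ^ 2 / 4 * (x ^ 2) ^ n := by positivity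
          linarith
      refine (sum_le_sum hterm).trans ?_
      rw [sum_add_distrib, ← mul_sum, ← mul_sum]
      have := hIsum L
      gcongr
    linarith

end Pool.Agent.H601.GV
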