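import Pool.Agent.H601.GV.Gd
import Pool.Agent.H601.GV.Fg

/-!
# The essential maximum `e_h` of an asymptotic basis of order `h ≥ 2` is at least 3
-/

set_option autoImplicit false

namespace Pool.Agent.H601.GV

open Finset Filter Pool.Agent.H601

/-- `(0.3 h) ^ (h - 1) < (h - 1)!`, with `h = k + 1` -/
theorem fact_lower (k : ℕ) : (3 / 10 : ℝ) ^ (k + 1) * (k + 2 : ℝ) ^ (k + 1) < (k + 1).factorial := by
  induction k with
  | zero => norm_num
  | succ k ih =>
    have hk : (0 : ℝ) < (k : ℝ) + 2 := by positivity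
    -- `((k + 3) / (k + 2)) ^ (k + 2) ≤ e ≤ 10 / 3`
    have h1 : ((k : ℝ) + 3) ^ (k + 2) ≤ 10 / 3 * ((k : ℝ) + 2) ^ (k + 2) := by
      have e1 : ((k : ℝ) + 3) = (k + 2) * (1 + 1 / (k + 2)) := by field_simp; ring
      rw [e1, mul_pow, mul_comm]
      have e2 : (1 + 1 / ((k : ℝ) + 2)) ^ (k + 2) ≤ 10 / 3 := by
        have e3 : 1 + 1 / ((k : ℝ) + 2) ≤ Real.exp (1 / ((k : ℝ) + 2)) := by
          have := Real.add_one_le_exp (1 / ((k : ℝ) + 2))
          linarith
        calc (1 + 1 / ((k : ℝ) + 2)) ^ (k + 2) ≤ (Real.exp (1 / ((k : ℝ) + 2))) ^ (k + 2) := by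
              gcongr
          _ = Real.exp 1 := by
              rw [← Real.exp_nat_mul]
              congr 1
              push_cast
              field_simp
          _ ≤ 10 / 3 := by
              have := Real.exp_one_lt_d9
              linarith
      gcongr
    have h2 : ((k + 1 + 1).factorial : ℝ) = (k + 2) * (k + 1).factorial := by
      rw [Nat.factorial_succ]
      push_cast
      ring
    rw [h2]
    push_cast
    have e : (k : ℝ) + 1 + 2 = k + 3 := by ring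
    rw [e]
    calc (3 / 10 : ℝ) ^ (k + 1 + 1) * ((k : ℝ) + 3) ^ (k + 1 + 1)
        ≤ (3 / 10 : ℝ) ^ (k + 1 + 1) * (10 / 3 * ((k : ℝ) + 2) ^ (k + 2)) := by gcongr
      _ = ((k : ℝ) + 2) * ((3 / 10 : ℝ) ^ (k + 1) * ((k : ℝ) + 2) ^ (k + 1)) := by ring
      _ < ((k : ℝ) + 2) * (k + 1).factorial := by gcongr

/-- the choice of `lam` -/
theorem exists_lam {h : ℕ} (hh : 2 ≤ h) : ∃ lam : ℝ, 0 < lam ∧ lam ^ h = 3 / 10 * h.factorial ∧
    lam ^ (h - 1) < (h - 1).factorial := by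
  obtain ⟨k, rfl⟩ : ∃ k, h = k + 2 := ⟨h - 2, by omega⟩
  have hf : (0 : ℝ) < (k + 2).factorial := by exact_mod_cast (k + 2).factorial_pos
  have hf1 : (0 : ℝ) < (k + 1).factorial := by exact_mod_cast (k + 1).factorial_pos
  obtain ⟨lam, hl⟩ : ∃ lam : ℝ, lam = (3 / 10 * ((k + 2).factorial : ℝ)) ^ (((k + 2 : ℕ) : ℝ)⁻¹) :=
    ⟨_, rfl⟩
  have hl0 : 0 < lam := by rw [hl]; positivity
  have hlh : lam ^ (k + 2) = 3 / 10 * (k + 2).factorial := by
    rw [hl]
    exact Real.rpow_inv_natCast_pow (by positivity) (by omega)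
  refine ⟨lam, hl0, hlh, ?_⟩
  have e : k + 2 - 1 = k + 1 := by omega
  rw [e]
  by_contra hno
  push Not at hno
  have h1 : ((k + 1).factorial : ℝ) ^ (k + 2) ≤ (lam ^ (k + 1)) ^ (k + 2) := by gcongr
  rw [← pow_mul, mul_comm, pow_mul, hlh] at h1
  have h2 : ((k + 2).factorial : ℝ) = (k + 2) * (k + 1).factorial := by
    rw [Nat.factorial_succ]
    push_cast
    ring
  rw [h2] at h1
  have h3 : (3 / 10 * (((k : ℝ) + 2) * (k + 1).factorial)) ^ (k + 1)
      < ((k + 1).factorial : ℝ) ^ (k + 2) := by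
    calc (3 / 10 * (((k : ℝ) + 2) * (k + 1).factorial)) ^ (k + 1)
        = ((3 / 10 : ℝ) ^ (k + 1) * (k + 2 : ℝ) ^ (k + 1)) * ((k + 1).factorial : ℝ) ^ (k + 1) := by
          rw [mul_pow, mul_pow]; ring
      _ < (k + 1).factorial * ((k + 1).factorial : ℝ) ^ (k + 1) := by
          have := fact_lower k
          gcongr
      _ = _ := by ring
  linarith

end Pool.Agent.H601.GV
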