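import Pool.Agent.H601.GV.Ge

/-!
# The essential maximum `e_h` of an asymptotic basis of order `h ≥ 2` is at least 3
-/

set_option autoImplicit false

namespace Pool.Agent.H601.GV

open Finset Filter Pool.Agent.H601

theorem not_rep_le_two {A : Set ℕ} {F : Finset ℕ} {h n₀ : ℕ} (hh : 2 ≤ h)
    (hA : ∀ n, n₀ ≤ n → 1 ≤ rep A h n) (hB : ∀ n, rep (A \ F) h n ≤ 2) : False := by
  obtain ⟨H, hH⟩ : ∃ H : ℝ, H = h.factorial := ⟨_, rfl⟩
  have hHp : 1 ≤ H := by rw [hH]; exact_mod_cast Nat.one_le_iff_ne_zero.2 h.factorial_ne_zero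
  obtain ⟨H1, hH1⟩ : ∃ H1 : ℝ, H1 = (h - 1).factorial := ⟨_, rfl⟩
  have hH1p : 0 < H1 := by rw [hH1]; exact_mod_cast (h - 1).factorial_pos
  obtain ⟨f, hf⟩ : ∃ f : ℝ, f = F.card := ⟨_, rfl⟩
  have hf0 : 0 ≤ f := by rw [hf]; positivity
  obtain ⟨q, hq⟩ : ∃ q : ℝ, q = h := ⟨_, rfl⟩
  have hq2 : 2 ≤ q := by rw [hq]; exact_mod_cast hh
  obtain ⟨q1, hq1⟩ : ∃ q1 : ℝ, q1 = (h - 1 : ℕ) := ⟨_, rfl⟩
  have hq10 : 0 ≤ q1 := by rw [hq1]; positivity
  obtain ⟨lam, hlam0, hlam, hlam1⟩ := exists_lam hh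
  rw [← hH] at hlam
  rw [← hH1] at hlam1
  obtain ⟨g0, hg0⟩ : ∃ g0 : ℝ, g0 = H1 - lam ^ (h - 1) := ⟨_, rfl⟩
  have hg0p : 0 < g0 := by rw [hg0]; linarith
  obtain ⟨Lam, hLam⟩ : ∃ Lam : ℝ, Lam = 384 * (2 * H) ^ 2 / g0 := ⟨_, rfl⟩
  have hLam0 : 0 < Lam := by rw [hLam]; positivity
  have hLamg : g0 * Lam = 384 * (2 * H) ^ 2 := by rw [hLam]; field_simp
  obtain ⟨Q, hQ⟩ := exists_nat_gt (max 1 (3 * Lam ^ (h - 1) / g0))
  have hQ1 : (1 : ℝ) < Q := lt_of_le_of_lt (le_max_left _ _) hQ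
  have hQ2 : 3 * Lam ^ (h - 1) / g0 < Q := lt_of_le_of_lt (le_max_right _ _) hQ
  have hQ3 : 1 ≤ Q := by
    have : 1 < Q := by exact_mod_cast hQ1
    omega
  have hQp : (0 : ℝ) < Q := by linarith
  -- constants
  obtain ⟨C1, hC1⟩ : ∃ C1 : ℝ, C1 = 2 ^ (h - 1) * (4 * H + f ^ h) := ⟨_, rfl⟩
  have hC1pos : 0 < C1 := by rw [hC1]; positivity
  obtain ⟨E, hE⟩ : ∃ E : ℝ, E = 20000 * (f + q) * C1 + (f + 3 * (H1 * (H1 * q1)) / g0 + 1) :=
    ⟨_, rfl⟩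
  have hE1 : 20000 * (f + q) * C1 ≤ E := by
    rw [hE]
    have : 0 ≤ f + 3 * (H1 * (H1 * q1)) / g0 + 1 := by positivity
    linarith
  have hE2 : f + 3 * (H1 * (H1 * q1)) / g0 + 1 ≤ E := by
    rw [hE]
    have : 0 ≤ 20000 * (f + q) * C1 := by positivity
    linarith
  have hEpos : 0 < E := by
    have : 0 ≤ f + 3 * (H1 * (H1 * q1)) / g0 := by positivity
    linarith
  obtain ⟨m, hm⟩ := exists_nat_gt (max (max (20000 * n₀ + 1000000 : ℝ) (32 * E ^ h))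
    (2 * (3960000 * Q) ^ 2))
  have hm1 : (20000 * n₀ + 1000000 : ℝ) < m :=
    lt_of_le_of_lt ((le_max_left _ _).trans (le_max_left _ _)) hm
  have hm2 : 32 * E ^ h < m := lt_of_le_of_lt ((le_max_right _ _).trans (le_max_left _ _)) hm
  have hm3 : 2 * (3960000 * (Q : ℝ)) ^ 2 < (m : ℝ) := lt_of_le_of_lt (le_max_right _ _) hm
  have hmn : 20000 * n₀ + 1000000 < m := by exact_mod_cast hm1
  have hmpos : (1 : ℝ) ≤ m := by exact_mod_cast (show 1 ≤ m by omega)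
  obtain ⟨a, X, Y, W, G, ha0, hX0, hXY, hX, hYW, hW0, hW, hXa, hG, haG, hfin⟩ :=
    stepG (Q := Q) hh hA hB (show 1 ≤ m by omega) (by omega) hQ3
  rw [← hH] at hW haG
  rw [← hf] at hYW hXa haG
  rw [← hq] at haG
  have hfin2 := hfin (lam * a) (Lam * a)
  rw [← hH, ← hf, ← hq, ← hH1, ← hq1] at hfin2
  have hY0 : 0 ≤ Y := hX0.trans hXY
  -- `X ≥ E`
  have hXE : E ≤ X := by
    by_contra hlt
    push Not at hlt
    have : X ^ h ≤ E ^ h := by gcongr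
    linarith
  have hYE : E ≤ Y := hXE.trans hXY
  have haE : 3 * (H1 * (H1 * q1)) / g0 + 1 ≤ a := by linarith
  have hap : 0 < a := by
    have : 0 ≤ 3 * (H1 * (H1 * q1)) / g0 := by positivity
    linarith
  -- `Y ^ h ≤ C1 m`
  have hYh : Y ^ h ≤ C1 * m := by
    calc Y ^ h ≤ (W + f) ^ h := by gcongr
      _ ≤ 2 ^ (h - 1) * (W ^ h + f ^ h) := add_pow_le hW0 hf0 h
      _ ≤ 2 ^ (h - 1) * (2 * H * (2 * m) + f ^ h * m) := by
          have : f ^ h ≤ f ^ h * m := by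
            have h0 : 0 ≤ f ^ h := by positivity
            nlinarith
          gcongr
      _ = C1 * m := by rw [hC1]; ring
  have hYh1 : E * Y ^ (h - 1) ≤ C1 * m := by
    calc E * Y ^ (h - 1) ≤ Y * Y ^ (h - 1) := by gcongr
      _ = Y ^ h := by rw [← pow_succ']; congr 1; omega
      _ ≤ C1 * m := hYh
  obtain ⟨Ex, hEx⟩ : ∃ Ex : ℝ, Ex = n₀ + (f + q) * Y ^ (h - 1) := ⟨_, rfl⟩
  have hEx1 : Ex ≤ m / 10000 := by
    have h1 : 20000 * (f + q) * C1 * Y ^ (h - 1) ≤ C1 * m := le_trans (by gcongr) hYh1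
    have h2 : 20000 * (f + q) * Y ^ (h - 1) ≤ m := by
      have : C1 * (20000 * (f + q) * Y ^ (h - 1)) ≤ C1 * m := by
        refine le_trans (le_of_eq ?_) h1
        ring
      exact le_of_mul_le_mul_left this hC1pos
    rw [hEx]
    linarith
  have hEx0 : 0 ≤ Ex := by rw [hEx]; positivity
  rw [← hEx] at haG hfin2
  have hGE : (m : ℝ) / 64 ≤ G - Ex := by linarith
  have ham : (m : ℝ) / 64 ≤ a ^ h := by
    have : 1 * (G - Ex) ≤ H * (G - Ex) := by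
      have : 0 ≤ G - Ex := le_trans (by positivity) hGE
      gcongr
    linarith
  have hah : a ^ h = a * a ^ (h - 1) := by rw [← pow_succ']; congr 1; omega
  have hah1 : a ^ (h - 1) = a * a ^ (h - 1 - 1) := by rw [← pow_succ']; congr 1; omega
  have hp1 : 0 < a ^ (h - 1) := by positivity
  have hp2 : 0 < a ^ (h - 1 - 1) := by positivity
  -- the hypothesis
  have hyp : (lam * a) ^ (h - 1) ≤ H1 * (a ^ (h - 1) - H1 * q1 * a ^ (h - 1 - 1))
      - ((2 * H) ^ 2 * (2 * m) / (Lam * a) + (Lam * a) ^ (h - 1) / Q) := by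
    have i1 : H1 * (H1 * q1 * a ^ (h - 1 - 1)) ≤ g0 / 3 * a ^ (h - 1) := by
      have h1 : 3 * (H1 * (H1 * q1)) ≤ g0 * a := by
        have h2 : 3 * (H1 * (H1 * q1)) / g0 ≤ a := by linarith
        rw [div_le_iff₀ hg0p] at h2
        linarith
      rw [hah1]
      have := mul_le_mul_of_nonneg_right h1 hp2.le
      linarith
    have i2 : (2 * H) ^ 2 * (2 * m) / (Lam * a) ≤ g0 / 3 * a ^ (h - 1) := by
      rw [div_le_iff₀ (by positivity)]
      have h1 : g0 / 3 * a ^ (h - 1) * (Lam * a) = g0 * Lam / 3 * a ^ h := by rw [hah]; ring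
      rw [h1, hLamg]
      have h2 : 384 * (2 * H) ^ 2 / 3 * (m / 64) ≤ 384 * (2 * H) ^ 2 / 3 * a ^ h := by gcongr
      linarith
    have i3 : (Lam * a) ^ (h - 1) / Q ≤ g0 / 3 * a ^ (h - 1) := by
      rw [div_le_iff₀ hQp, mul_pow]
      have h1 : Lam ^ (h - 1) ≤ g0 / 3 * Q := by
        rw [div_lt_iff₀ hg0p] at hQ2
        linarith
      have := mul_le_mul_of_nonneg_right h1 hp1.le
      linarith
    have e : (lam * a) ^ (h - 1) = (H1 - g0) * a ^ (h - 1) := by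
      rw [mul_pow, hg0]; ring
    rw [e]
    linarith
  have hend := hfin2 (by positivity) (by positivity) hyp
  have e1 : (lam * a) ^ h = 3 / 10 * H * a ^ h := by rw [mul_pow, hlam]
  rw [e1] at hend
  have h1 : 3 / 10 * H * (H * (G - Ex)) ≤ 3 / 10 * H * a ^ h := by gcongr
  have hsqrt : √(2 * (m : ℝ)) ≤ m / (3960000 * Q) := by
    rw [Real.sqrt_le_iff]
    refine ⟨by positivity, ?_⟩
    rw [div_pow, le_div_iff₀ (by positivity)]
    nlinarith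
  have hsqrt2 : 396 * (Q : ℝ) * √(2 * (m : ℝ)) ≤ m / 10000 := by
    calc 396 * (Q : ℝ) * √(2 * (m : ℝ)) ≤ 396 * (Q : ℝ) * (m / (3960000 * Q)) := by gcongr
      _ = m / 10000 := by field_simp; ring
  have h2 : H ^ 2 * (3 / 10 * (G - Ex)) ≤ H ^ 2 * (11 / 40 * G + 44 / 10 * Ex
      + 396 * Q * √(2 * (m : ℝ)) + 88) := by
    have e2 : H ^ 2 * (11 / 40 * G + 44 / 10 * Ex + 396 * Q * √(2 * (m : ℝ)) + 88)
        = 11 / 10 * (H ^ 2 / 4 * G + (2 * H) ^ 2 * Ex)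
          + 176 * (3 / 2 * H) ^ 2 * Q * √(2 * m) + 22 * (2 * H) ^ 2 := by ring
    rw [e2]
    have e3 : H ^ 2 * (3 / 10 * (G - Ex)) = 3 / 10 * H * (H * (G - Ex)) := by ring
    rw [e3]
    linarith
  have h3 := le_of_mul_le_mul_left h2 (by positivity)
  linarith

theorem three_le_essMax {A : Set ℕ} {h n₀ : ℕ} (hh : 2 ≤ h)
    (hA : ∀ n, n₀ ≤ n → 1 ≤ rep A h n) : 3 ≤ essMax A h := by
  by_contra hno
  have h1 : ¬ (((3 : ℕ) : ℕ∞) ≤ essMax A h) := by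
    intro h2
    exact hno (by simpa using h2)
  rw [le_essMax] at h1
  unfold Ess at h1
  push Not at h1
  obtain ⟨F, hF⟩ := h1
  exact not_rep_le_two hh hA (F := F) fun n => by
    have := hF n
    omega

end Pool.Agent.H601.GV
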