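import Pool.Agent.H601.Rep

/-!
# Sets whose blocks have prescribed types

The block `i` has the type `κ i`: its elements are `D i * B i ^ j` and
`D i * (B i ^ G i - (κ i - 1) * B i ^ j)`, `0 ≤ j < G i`, where `D (i + 1) = D i * B i ^ (G i + 1)`. The
only relations of small order are the equalities of the `κ i`-fold sums
`D i * (B i ^ G i - (κ i - 1) * B i ^ j) + (κ i - 1) * (D i * B i ^ j)`, `0 ≤ j < G i`.
-/

set_option autoImplicit false

namespace Pool.Agent.H601.GV

open Finset Pool.Agent.H601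

/-- The scales. -/
def DD (B G : ℕ → ℕ) (i : ℕ) : ℕ := ∏ j ∈ range i, B j ^ (G j + 1)

/-- The elements. -/
def ww (B G κ : ℕ → ℕ) (p : ℕ × ℕ × Bool) : ℕ :=
  DD B G p.1 *
    (if p.2.2 then B p.1 ^ G p.1 - (κ p.1 - 1) * B p.1 ^ p.2.1 else B p.1 ^ p.2.1)

theorem digitsV : ∀ (M : ℕ) (b c : ℕ → ℤ), (∀ i, 0 < b i) → (∀ j < M, |c j| < b j) →
    ∑ j ∈ range M, c j * ∏ i ∈ range j, b i = 0 → ∀ j < M, c j = 0 := by
  intro M
  induction M with
  | zero => intro b c _ _ _ j hj; omega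
  | succ M ih =>
    intro b c hb hc hs j hj
    rw [Finset.sum_range_succ'] at hs
    have h1 : ∑ k ∈ range M, c (k + 1) * ∏ i ∈ range (k + 1), b i =
        b 0 * ∑ k ∈ range M, c (k + 1) * ∏ i ∈ range k, b (i + 1) := by
      rw [Finset.mul_sum]
      apply Finset.sum_congr rfl
      intro k _
      rw [Finset.prod_range_succ']
      ring
    rw [h1, Finset.prod_range_zero, mul_one] at hs
    have h2 : c 0 = 0 := by
      apply Int.eq_zero_of_abs_lt_dvd (m := b 0) _ (hc 0 (by omega))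
      exact ⟨-∑ k ∈ range M, c (k + 1) * ∏ i ∈ range k, b (i + 1), by linarith⟩
    rw [h2, add_zero] at hs
    have h3 : ∑ k ∈ range M, c (k + 1) * ∏ i ∈ range k, b (i + 1) = 0 := by
      rcases mul_eq_zero.1 hs with h4 | h4
      · have := hb 0
        omega
      · exact h4
    rcases j with _ | j
    · exact h2
    · exact ih (fun i => b (i + 1)) (fun k => c (k + 1)) (fun i => hb _)
        (fun k hk => hc _ (by omega)) h3 j (by omega)

theorem digitsC (M : ℕ) (b : ℤ) (c : ℕ → ℤ) (hb : 0 < b) (hc : ∀ j < M, |c j| < b)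
    (hs : ∑ j ∈ range M, c j * b ^ j = 0) : ∀ j < M, c j = 0 := by
  apply digitsV M (fun _ => b) c (fun _ => hb) hc
  rw [← hs]
  apply Finset.sum_congr rfl
  intro j _
  rw [Finset.prod_const, Finset.card_range]

theorem bound {D : ℤ} (hD : 0 < D) : ∀ (M : ℕ) (c : ℕ → ℤ), (∀ j < M, |c j| < D) →
    |∑ j ∈ range M, c j * D ^ j| < D ^ M := by
  intro M
  induction M with
  | zero => intro c _; simp
  | succ M ih =>
    intro c hc
    rw [Finset.sum_range_succ]
    have h1 := ih c (fun k hk => hc k (by omega))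
    have h2 := hc M (by omega)
    have h3 : (0 : ℤ) < D ^ M := by positivity
    have h4 : |c M * D ^ M| ≤ (D - 1) * D ^ M := by
      rw [abs_mul, abs_of_pos h3]
      exact mul_le_mul_of_nonneg_right (by omega) h3.le
    calc |∑ x ∈ range M, c x * D ^ x + c M * D ^ M| ≤
        |∑ x ∈ range M, c x * D ^ x| + |c M * D ^ M| := abs_add_le _ _
      _ < D ^ M + (D - 1) * D ^ M := by linarith
      _ = D ^ (M + 1) := by ring

/-- the digits -/
def dg (k G : ℕ) (σ : Multiset (ℕ × ℕ × Bool)) (i l : ℕ) : ℤ :=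
  if l < G then (σ.count (i, l, false) : ℤ) - ((k : ℤ) - 1) * σ.count (i, l, true)
  else ∑ j ∈ range G, (σ.count (i, j, true) : ℤ)

/-- the allowed indices from the block `i₀` on -/
def Al (G : ℕ → ℕ) (i₀ : ℕ) : Set (ℕ × ℕ × Bool) := {p | i₀ ≤ p.1 ∧ p.2.1 < G p.1}

section
variable {B G κ : ℕ → ℕ} {i₀ h : ℕ}

theorem pow_lt' (hκ : ∀ i, 1 ≤ κ i ∧ κ i < B i) (i j j' : ℕ) (hj : j < G i) (hj' : j' < G i) :
    B i ^ j + (κ i - 1) * B i ^ j' < B i ^ G i := by
  obtain ⟨hk, hkB⟩ := hκ i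
  have hB0 : 0 < B i := by omega
  obtain ⟨g, hg⟩ : ∃ g, G i = g + 1 := ⟨G i - 1, by omega⟩
  have h1 : B i ^ j ≤ B i ^ g := Nat.pow_le_pow_right hB0 (by omega)
  have h2 : B i ^ j' ≤ B i ^ g := Nat.pow_le_pow_right hB0 (by omega)
  have h3 : 0 < B i ^ g := Nat.pow_pos hB0
  rw [hg]
  calc B i ^ j + (κ i - 1) * B i ^ j' ≤ B i ^ g + (κ i - 1) * B i ^ g :=
        Nat.add_le_add h1 (Nat.mul_le_mul_left _ h2)
    _ = (κ i - 1 + 1) * B i ^ g := by ring
    _ = κ i * B i ^ g := by rw [Nat.sub_add_cancel hk]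
    _ < B i * B i ^ g := Nat.mul_lt_mul_of_pos_right (by omega) h3
    _ = B i ^ (g + 1) := by rw [pow_succ]; ring

theorem ww_true (hκ : ∀ i, 1 ≤ κ i ∧ κ i < B i) (i j : ℕ) (hj : j < G i) :
    ((ww B G κ (i, j, true) : ℕ) : ℤ) =
      (DD B G i : ℤ) * ((B i : ℤ) ^ G i - ((κ i : ℤ) - 1) * (B i : ℤ) ^ j) := by
  have h1 : (κ i - 1) * B i ^ j ≤ B i ^ G i := by
    have := pow_lt' hκ i j j hj hj
    omega
  unfold ww
  simp only [if_true]
  push_cast [Nat.cast_sub h1, Nat.cast_sub (hκ i).1]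
  ring

theorem ww_false (i j : ℕ) :
    ((ww B G κ (i, j, false) : ℕ) : ℤ) = (DD B G i : ℤ) * (B i : ℤ) ^ j := by
  unfold ww
  simp

theorem block_eq (hκ : ∀ i, 1 ≤ κ i ∧ κ i < B i) (σ : Multiset (ℕ × ℕ × Bool))
    (hσ : ∀ p ∈ σ, p ∈ Al G i₀) (i N : ℕ) (hN : G i ≤ N) :
    ((∑ j ∈ range N, ∑ b : Bool, σ.count (i, j, b) * ww B G κ (i, j, b) : ℕ) : ℤ) =
      (∑ l ∈ range (G i + 1), dg (κ i) (G i) σ i l * (B i : ℤ) ^ l) * (DD B G i : ℤ) := by
  have h1 : ∑ j ∈ range N, ∑ b : Bool, σ.count (i, j, b) * ww B G κ (i, j, b) =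
      ∑ j ∈ range (G i), ∑ b : Bool, σ.count (i, j, b) * ww B G κ (i, j, b) := by
    symm
    apply Finset.sum_subset
    · intro j hj
      rw [Finset.mem_range] at hj ⊢
      omega
    · intro j _ hj
      rw [Finset.mem_range] at hj
      apply Finset.sum_eq_zero
      intro b _
      rw [Multiset.count_eq_zero.2 (fun hm => hj (hσ _ hm).2), zero_mul]
  rw [h1, Finset.sum_range_succ]
  push_cast
  have h2 : dg (κ i) (G i) σ i (G i) = ∑ j ∈ range (G i), (σ.count (i, j, true) : ℤ) := by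
    unfold dg
    rw [if_neg (lt_irrefl _)]
  rw [h2, add_mul, Finset.sum_mul, Finset.sum_mul, Finset.sum_mul, ← Finset.sum_add_distrib]
  apply Finset.sum_congr rfl
  intro j hj
  rw [Finset.mem_range] at hj
  rw [Fintype.sum_bool, ww_true hκ i j hj, ww_false]
  unfold dg
  rw [if_pos hj]
  ring

theorem sum_eq (hκ : ∀ i, 1 ≤ κ i ∧ κ i < B i) (σ : Multiset (ℕ × ℕ × Bool))
    (hσ : ∀ p ∈ σ, p ∈ Al G i₀) (M : ℕ) (hM : ∀ p ∈ σ, p.1 < M) :
    (((σ.map (ww B G κ)).sum : ℕ) : ℤ) =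
      ∑ i ∈ range M, (∑ l ∈ range (G i + 1), dg (κ i) (G i) σ i l * (B i : ℤ) ^ l) *
        (DD B G i : ℤ) := by
  set N := ∑ i ∈ range M, G i with hN
  have h1 : (σ.map (ww B G κ)).sum =
      ∑ m ∈ range M ×ˢ (range N ×ˢ (Finset.univ : Finset Bool)), σ.count m * ww B G κ m := by
    rw [Finset.sum_multiset_map_count]
    simp only [smul_eq_mul]
    apply Finset.sum_subset
    · intro p hp
      rw [Multiset.mem_toFinset] at hp
      rw [Finset.mem_product, Finset.mem_range, Finset.mem_product, Finset.mem_range]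
      refine ⟨hM p hp, lt_of_lt_of_le (hσ p hp).2 ?_, Finset.mem_univ _⟩
      exact Finset.single_le_sum (f := G) (fun _ _ => Nat.zero_le _) (Finset.mem_range.2 (hM p hp))
    · intro p _ hp
      rw [Multiset.mem_toFinset, ← Multiset.count_eq_zero] at hp
      rw [hp, zero_mul]
  rw [h1, Finset.sum_product, Nat.cast_sum]
  apply Finset.sum_congr rfl
  intro i hi
  rw [Finset.sum_product]
  exact block_eq hκ σ hσ i N (Finset.single_le_sum (f := G) (fun _ _ => Nat.zero_le _) hi)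

theorem sum_count_le (σ : Multiset (ℕ × ℕ × Bool)) (i N : ℕ) :
    ∑ j ∈ range N, σ.count (i, j, true) ≤ Multiset.card σ := by
  classical
  rw [← Multiset.toFinset_sum_count_eq σ]
  have h1 : ∑ j ∈ range N, σ.count (i, j, true) =
      ∑ p ∈ (range N).image (fun j : ℕ => (i, j, true)), σ.count p := by
    rw [Finset.sum_image]
    intro a _ b _ hab
    simpa using hab
  rw [h1]
  apply Finset.sum_le_sum_of_ne_zero
  intro p _ hp
  rw [Multiset.mem_toFinset]
  exact Multiset.count_pos.1 (Nat.pos_of_ne_zero hp)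

theorem inv (hκ : ∀ i, 1 ≤ κ i ∧ κ i < B i) (hB : ∀ i, i₀ ≤ i → 2 * κ i * h < B i)
    (σ τ : Multiset (ℕ × ℕ × Bool)) (hσ : ∀ p ∈ σ, p ∈ Al G i₀) (hτ : ∀ p ∈ τ, p ∈ Al G i₀)
    (hσc : Multiset.card σ ≤ h)
    (hτc : Multiset.card τ ≤ h) (hsum : (σ.map (ww B G κ)).sum = (τ.map (ww B G κ)).sum) (i : ℕ) :
    (∀ j, σ.count (i, j, false) + (κ i - 1) * τ.count (i, j, true) =
      τ.count (i, j, false) + (κ i - 1) * σ.count (i, j, true)) ∧
    ∑ j ∈ range (G i), σ.count (i, j, true) = ∑ j ∈ range (G i), τ.count (i, j, true) := by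
  classical
  have hzero : ∀ u : Multiset (ℕ × ℕ × Bool), (∀ p ∈ u, p ∈ Al G i₀) → ∀ i j b,
      (i < i₀ ∨ G i ≤ j) → u.count (i, j, b) = 0 := by
    intro u hu i j b hij
    rw [Multiset.count_eq_zero]
    intro hm
    have h1 := hu _ hm
    have h2 : i₀ ≤ i := h1.1
    have h3 : j < G i := h1.2
    omega
  by_cases hi0 : i₀ ≤ i
  swap
  · have hi0' : i < i₀ := by omega
    constructor
    · intro j
      rw [hzero σ hσ i j _ (Or.inl hi0'), hzero σ hσ i j _ (Or.inl hi0'),
        hzero τ hτ i j _ (Or.inl hi0'), hzero τ hτ i j _ (Or.inl hi0')]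
    · apply Finset.sum_congr rfl
      intro j _
      rw [hzero σ hσ i j _ (Or.inl hi0'), hzero τ hτ i j _ (Or.inl hi0')]
  obtain ⟨M, hM1, hM2, hiM⟩ : ∃ M : ℕ, (∀ p ∈ σ, p.1 < M) ∧ (∀ p ∈ τ, p.1 < M) ∧ i < M := by
    refine ⟨max (((σ.toFinset ∪ τ.toFinset).sup Prod.fst) + 1) (i + 1), ?_, ?_, ?_⟩
    · intro p hp
      refine lt_of_lt_of_le (Nat.lt_succ_of_le ?_) (le_max_left _ _)
      exact Finset.le_sup (f := Prod.fst) (Finset.mem_union_left _ (Multiset.mem_toFinset.2 hp))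
    · intro p hp
      refine lt_of_lt_of_le (Nat.lt_succ_of_le ?_) (le_max_left _ _)
      exact Finset.le_sup (f := Prod.fst) (Finset.mem_union_right _ (Multiset.mem_toFinset.2 hp))
    · exact lt_of_lt_of_le (Nat.lt_succ_self i) (le_max_right _ _)
  have hB0 : ∀ i, (0 : ℤ) < B i := by
    intro i
    have := hκ i
    have : 0 < B i := by omega
    exact_mod_cast this
  have hh : (0 : ℤ) ≤ h := Int.natCast_nonneg h
  have hle : ∀ (u : Multiset (ℕ × ℕ × Bool)), Multiset.card u ≤ h → ∀ a,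
      (u.count a : ℤ) ≤ h := by
    intro u hu a
    have := Multiset.count_le_card a u
    omega
  have hbd : ∀ (i l : ℕ), l < G i + 1 →
      |dg (κ i) (G i) σ i l - dg (κ i) (G i) τ i l| < B i := by
    intro i l _
    obtain ⟨hk, hkK⟩ := hκ i
    by_cases hi : i₀ ≤ i
    swap
    · have hi' : i < i₀ := by omega
      have e0 : ∀ u : Multiset (ℕ × ℕ × Bool), (∀ p ∈ u, p ∈ Al G i₀) →
          dg (κ i) (G i) u i l = 0 := by
        intro u hu
        unfold dg
        split_ifs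
        · rw [hzero u hu i l _ (Or.inl hi'), hzero u hu i l _ (Or.inl hi')]
          simp
        · apply Finset.sum_eq_zero
          intro j _
          rw [hzero u hu i j _ (Or.inl hi')]
          simp
      rw [e0 σ hσ, e0 τ hτ, sub_zero, abs_zero]
      exact hB0 i
    have hkh : (κ i : ℤ) * h < B i := by
      have := hB i hi
      have : κ i * h < B i := by nlinarith
      exact_mod_cast this
    have hk' : (1 : ℤ) ≤ κ i := by exact_mod_cast hk
    unfold dg
    split_ifs with hl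
    · have c1 := hle σ hσc (i, l, false)
      have c2 := hle τ hτc (i, l, false)
      have c3 := hle σ hσc (i, l, true)
      have c4 := hle τ hτc (i, l, true)
      have c5 : (0 : ℤ) ≤ σ.count (i, l, false) := Int.natCast_nonneg _
      have c6 : (0 : ℤ) ≤ τ.count (i, l, false) := Int.natCast_nonneg _
      have c7 : (0 : ℤ) ≤ σ.count (i, l, true) := Int.natCast_nonneg _
      have c8 : (0 : ℤ) ≤ τ.count (i, l, true) := Int.natCast_nonneg _
      have k0 : (0 : ℤ) ≤ (κ i : ℤ) - 1 := by linarith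
      have d1 := mul_nonneg k0 c7
      have d2 := mul_nonneg k0 c8
      have d3 := mul_le_mul_of_nonneg_left c3 k0
      have d4 := mul_le_mul_of_nonneg_left c4 k0
      rw [abs_lt]
      constructor <;> linarith
    · have c1 : (∑ j ∈ range (G i), (σ.count (i, j, true) : ℤ)) ≤ h := by
        have := (sum_count_le σ i (G i)).trans hσc
        exact_mod_cast this
      have c2 : (∑ j ∈ range (G i), (τ.count (i, j, true) : ℤ)) ≤ h := by
        have := (sum_count_le τ i (G i)).trans hτc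
        exact_mod_cast this
      have c3 : 0 ≤ (∑ j ∈ range (G i), (σ.count (i, j, true) : ℤ)) :=
        Finset.sum_nonneg fun _ _ => Int.natCast_nonneg _
      have c4 : 0 ≤ (∑ j ∈ range (G i), (τ.count (i, j, true) : ℤ)) :=
        Finset.sum_nonneg fun _ _ => Int.natCast_nonneg _
      have c5 : (h : ℤ) ≤ κ i * h := by nlinarith
      rw [abs_lt]
      constructor <;> linarith
  have e1 := sum_eq hκ σ hσ M hM1
  have e2 := sum_eq hκ τ hτ M hM2
  rw [hsum] at e1
  have e3 : ∑ i ∈ range M, (∑ l ∈ range (G i + 1),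
      (dg (κ i) (G i) σ i l - dg (κ i) (G i) τ i l) * (B i : ℤ) ^ l) *
      ∏ j ∈ range i, (B j : ℤ) ^ (G j + 1) = 0 := by
    have e4 := e1.symm.trans e2
    rw [← sub_eq_zero, ← Finset.sum_sub_distrib] at e4
    rw [← e4]
    apply Finset.sum_congr rfl
    intro i _
    rw [← sub_mul, ← Finset.sum_sub_distrib]
    have e5 : (DD B G i : ℤ) = ∏ j ∈ range i, (B j : ℤ) ^ (G j + 1) := by
      unfold DD
      push_cast
      rfl
    rw [e5]
    congr 1
    apply Finset.sum_congr rfl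
    intro l _
    ring
  have e5 := digitsV M (fun j => (B j : ℤ) ^ (G j + 1))
    (fun i => ∑ l ∈ range (G i + 1),
      (dg (κ i) (G i) σ i l - dg (κ i) (G i) τ i l) * (B i : ℤ) ^ l)
    (fun j => pow_pos (hB0 j) _)
    (fun i _ => bound (hB0 i) (G i + 1) _ (fun l hl => hbd i l hl)) e3 i hiM
  have e6 := digitsC (G i + 1) (B i) (fun l => dg (κ i) (G i) σ i l - dg (κ i) (G i) τ i l)
    (hB0 i) (fun l hl => hbd i l hl) e5
  constructor
  · intro j
    by_cases hj : j < G i
    · have e7 := e6 j (by omega)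
      unfold dg at e7
      rw [if_pos hj, if_pos hj] at e7
      zify [(hκ i).1]
      linarith
    · have hj' : G i ≤ j := by omega
      rw [hzero σ hσ i j _ (Or.inr hj'), hzero σ hσ i j _ (Or.inr hj'),
        hzero τ hτ i j _ (Or.inr hj'), hzero τ hτ i j _ (Or.inr hj')]
  · have e7 := e6 (G i) (by omega)
    unfold dg at e7
    rw [if_neg (lt_irrefl _), if_neg (lt_irrefl _)] at e7
    zify
    linarith

/-! ### Sizes -/

theorem DD_pos (hκ : ∀ i, 1 ≤ κ i ∧ κ i < B i) (i : ℕ) : 0 < DD B G i :=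
  Finset.prod_pos fun j _ => Nat.pow_pos (by have := hκ j; omega)

theorem lt_DD (hκ : ∀ i, 1 ≤ κ i ∧ κ i < B i) (i : ℕ) : i < DD B G i := by
  induction i with
  | zero => exact DD_pos hκ 0
  | succ i ih =>
    have h1 : DD B G (i + 1) = DD B G i * B i ^ (G i + 1) := by
      unfold DD
      rw [Finset.prod_range_succ]
    have h2 : 2 ≤ B i ^ (G i + 1) := by
      have := hκ i
      calc 2 ≤ B i := by omega
        _ = B i ^ 1 := (pow_one _).symm
        _ ≤ B i ^ (G i + 1) := Nat.pow_le_pow_right (by omega) (by omega)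
    rw [h1]
    nlinarith

theorem size (hκ : ∀ i, 1 ≤ κ i ∧ κ i < B i) :
    (∀ p : ℕ × ℕ × Bool, p.2.1 < G p.1 → p.1 < ww B G κ p) ∧
    (∀ (i j j' : ℕ), ww B G κ (i, j, false) = ww B G κ (i, j', false) → j = j') ∧
    (∀ (i j j' : ℕ), j < G i → j' < G i → ww B G κ (i, j, false) ≠ ww B G κ (i, j', true)) ∧
    (∀ (i j : ℕ), j < G i → ww B G κ (i, j, true) + (κ i - 1) * ww B G κ (i, j, false) =
      DD B G i * B i ^ G i) := by
  refine ⟨?_, ?_, ?_, ?_⟩
  · rintro ⟨i, j, b⟩ hj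
    have hj' : j < G i := hj
    have h1 := lt_DD (G := G) hκ i
    have h2 : 1 ≤ (if b then B i ^ G i - (κ i - 1) * B i ^ j else B i ^ j) := by
      have h3 := pow_lt' hκ i j j hj' hj'
      have h4 : 0 < B i ^ j := Nat.pow_pos (by have := hκ i; omega)
      cases b
      · simp only [Bool.false_eq_true, if_false]
        omega
      · simp only [if_true]
        omega
    show i < DD B G i * (if b then B i ^ G i - (κ i - 1) * B i ^ j else B i ^ j)
    exact lt_of_lt_of_le h1 (Nat.le_mul_of_pos_right _ h2)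
  · intro i j j' h
    simp only [ww, Bool.false_eq_true, if_false] at h
    have h1 := Nat.eq_of_mul_eq_mul_left (DD_pos hκ i) h
    exact Nat.pow_right_injective (by have := hκ i; omega) h1
  · intro i j j' hj hj' h
    simp only [ww, Bool.false_eq_true, if_false, if_true] at h
    have h1 := Nat.eq_of_mul_eq_mul_left (DD_pos hκ i) h
    have h2 := pow_lt' hκ i j j' hj hj'
    omega
  · intro i j hj
    simp only [ww, Bool.false_eq_true, if_false, if_true]
    have h2 := pow_lt' hκ i j j hj hj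
    have h3 : B i ^ G i - (κ i - 1) * B i ^ j + (κ i - 1) * B i ^ j = B i ^ G i :=
      Nat.sub_add_cancel (by omega)
    calc DD B G i * (B i ^ G i - (κ i - 1) * B i ^ j) + (κ i - 1) * (DD B G i * B i ^ j) =
          DD B G i * (B i ^ G i - (κ i - 1) * B i ^ j + (κ i - 1) * B i ^ j) := by ring
      _ = DD B G i * B i ^ G i := by rw [h3]

end

end Pool.Agent.H601.GV
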