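import Pool.Agent.H601.GV.Up

/-!
# Essential representation numbers are supermultiplicative
-/

set_option autoImplicit false

namespace Pool.Agent.H601.GV

open Finset Pool.Agent.H601

theorem comb_le (A : Set ℕ) (F : Finset ℕ) (P : Finset (Multiset ℕ)) (k l n₁ n₂ : ℕ)
    (hP : ∀ s ∈ P, Multiset.card s = k ∧ (∀ a ∈ s, a ∈ A ∧ a ∈ F) ∧ s.sum = n₁) :
    P.card * rep (A \ F) l n₂ ≤ rep A (k + l) (n₁ + n₂) := by
  classical
  set T : Set (Multiset ℕ) :=
    {t | Multiset.card t = l ∧ (∀ a ∈ t, a ∈ A \ (F : Set ℕ)) ∧ t.sum = n₂} with hT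
  have h1 : P.card * rep (A \ F) l n₂ = ((P : Set (Multiset ℕ)) ×ˢ T).ncard := by
    rw [Set.ncard_prod, Set.ncard_coe_finset]
    rfl
  rw [h1]
  unfold rep
  have key : ∀ s ∈ P, ∀ t ∈ T, (s + t).filter (· ∈ F) = s := by
    intro s hs t ht
    rw [Multiset.filter_add, Multiset.filter_eq_self.2 fun a ha => ((hP s hs).2.1 a ha).2,
      Multiset.filter_eq_nil.2 fun a ha => fun hF => (ht.2.1 a ha).2 (by simpa using hF), add_zero]
  refine Set.ncard_le_ncard_of_injOn (fun p => p.1 + p.2) ?_ ?_ (reps_finite A (k + l) (n₁ + n₂))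
  · rintro ⟨s, t⟩ ⟨hs, ht⟩
    have hs' : s ∈ P := hs
    obtain ⟨a1, a2, a3⟩ := hP s hs'
    obtain ⟨b1, b2, b3⟩ := ht
    refine ⟨?_, ?_, ?_⟩
    · show Multiset.card (s + t) = k + l
      rw [Multiset.card_add, a1]
      exact congrArg _ b1
    · intro a ha
      have ha' : a ∈ s + t := ha
      rcases Multiset.mem_add.1 ha' with h | h
      · exact (a2 a h).1
      · exact (b2 a h).1
    · show (s + t).sum = n₁ + n₂
      rw [Multiset.sum_add, a3]
      exact congrArg _ b3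
  · rintro ⟨s, t⟩ ⟨hs, ht⟩ ⟨s', t'⟩ ⟨hs', ht'⟩ he
    have he' : s + t = s' + t' := he
    have h2 := key s hs t ht
    have h3 := key s' hs' t' ht'
    rw [he', h3] at h2
    subst h2
    rw [add_left_cancel he']

/-- after the removal of any finite set some number still has at least `g` representations -/
def Ess (A : Set ℕ) (k g : ℕ) : Prop := ∀ F : Finset ℕ, ∃ n, g ≤ rep (A \ F) k n

theorem exists_of_rep_pos {A : Set ℕ} {k n : ℕ} (h : 1 ≤ rep A k n) :
    ∃ s : Multiset ℕ, Multiset.card s = k ∧ (∀ a ∈ s, a ∈ A) ∧ s.sum = n := by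
  unfold rep at h
  have h1 := (Set.ncard_pos (reps_finite A k n)).1 h
  exact h1

theorem exists_mem_of_rep_pos {A : Set ℕ} {k n : ℕ} (hk : 1 ≤ k) (h : 1 ≤ rep A k n) :
    ∃ a ∈ A, a ≤ n := by
  obtain ⟨s, h1, h2, h3⟩ := exists_of_rep_pos h
  obtain ⟨a, ha⟩ := Multiset.exists_mem_of_ne_zero (s := s) (by
    intro h0
    rw [h0, Multiset.card_zero] at h1
    omega)
  exact ⟨a, h2 a ha, h3 ▸ Multiset.le_sum_of_mem ha⟩

theorem rep_add_le {A : Set ℕ} {a : ℕ} (ha : a ∈ A) (l r n : ℕ) :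
    rep A l n ≤ rep A (l + r) (n + r * a) := by
  unfold rep
  refine Set.ncard_le_ncard_of_injOn (fun s => s + Multiset.replicate r a) ?_ ?_
    (reps_finite A (l + r) (n + r * a))
  · rintro s ⟨h1, h2, h3⟩
    refine ⟨?_, ?_, ?_⟩
    · rw [Multiset.card_add, Multiset.card_replicate, h1]
    · intro b hb
      rw [Multiset.mem_add] at hb
      rcases hb with hb | hb
      · exact h2 b hb
      · rw [Multiset.eq_of_mem_replicate hb]; exact ha
    · rw [Multiset.sum_add, Multiset.sum_replicate, smul_eq_mul, h3]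
  · intro s _ t _ hst
    exact add_right_cancel hst

theorem ess_mul {A : Set ℕ} {k l a b : ℕ} (h1 : Ess A k a) (h2 : Ess A l b) :
    Ess A (k + l) (a * b) := by
  classical
  intro F
  obtain ⟨n₁, e1⟩ := h1 F
  obtain ⟨n₂, e2⟩ := h2 (F ∪ Finset.range (n₁ + 1))
  rw [Finset.coe_union, ← Set.sdiff_sdiff] at e2
  refine ⟨n₁ + n₂, ?_⟩
  have e3 := comb_le (A \ F) (Finset.range (n₁ + 1)) (reps_finite (A \ F) k n₁).toFinset k l n₁ n₂ (by
    intro s hs
    rw [Set.Finite.mem_toFinset] at hs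
    obtain ⟨f1, f2, f3⟩ := hs
    refine ⟨f1, fun x hx => ⟨f2 x hx, ?_⟩, f3⟩
    rw [Finset.mem_range]
    have := Multiset.le_sum_of_mem hx
    omega)
  rw [← Set.ncard_eq_toFinset_card _ (reps_finite (A \ F) k n₁)] at e3
  exact (Nat.mul_le_mul e1 e2).trans e3

theorem ess_one {A : Set ℕ} {k g : ℕ} (hk : 1 ≤ k) (hg : 1 ≤ g) (h1 : Ess A k g) (l : ℕ) :
    Ess A l 1 := by
  intro F
  obtain ⟨n, e1⟩ := h1 F
  obtain ⟨a, ha, _⟩ := exists_mem_of_rep_pos hk (hg.trans e1)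
  refine ⟨0 + l * a, ?_⟩
  have h2 := rep_add_le ha 0 l 0
  rw [zero_add] at h2
  refine le_trans ?_ h2
  unfold rep
  rw [Nat.one_le_iff_ne_zero, ← Nat.pos_iff_ne_zero, Set.ncard_pos (reps_finite _ _ _)]
  exact ⟨0, by simp⟩

theorem ess_pow {A : Set ℕ} {k g : ℕ} (hk : 1 ≤ k) (hg : 1 ≤ g)
    (h1 : Ess A k g) (m : ℕ) : Ess A (k * m) (g ^ m) := by
  induction m with
  | zero => rw [Nat.mul_zero, pow_zero]; exact ess_one hk hg h1 0
  | succ m ih => rw [Nat.mul_succ, pow_succ]; exact ess_mul ih h1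

theorem ess_unb {A : Set ℕ} {h g : ℕ} (hh : 1 ≤ h) (hg : 1 ≤ g) (h1 : Ess A h g) (n₀ : ℕ) :
    ∃ n, n₀ ≤ n ∧ g ≤ rep A h n := by
  obtain ⟨n, e1⟩ := h1 (Finset.range n₀)
  obtain ⟨a, ha, hn⟩ := exists_mem_of_rep_pos hh (hg.trans e1)
  refine ⟨n, ?_, e1.trans (rep_mono Set.sdiff_subset h n)⟩
  have := ha.2
  rw [Finset.mem_coe, Finset.mem_range] at this
  omega

theorem almost {A : Set ℕ} {h k g C n₀ : ℕ} (hk : 1 ≤ k) (hkh : k ≤ h)
    (hC : C < (g + 1) ^ (h / k)) (hA : ∀ n, n₀ ≤ n → rep A h n ≤ C) :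
    ∃ F : Finset ℕ, ∀ n, rep (A \ F) k n ≤ g := by
  by_contra hno
  push Not at hno
  have h1 : Ess A k (g + 1) := fun F => (hno F).imp fun n hn => hn
  have h2 := ess_mul (ess_pow hk (by omega) h1 (h / k))
    (ess_one hk (by omega) h1 (h - k * (h / k)))
  rw [Nat.add_sub_cancel' (Nat.mul_div_le h k), mul_one] at h2
  obtain ⟨n, h3, h4⟩ := ess_unb (by omega) (Nat.one_le_pow _ _ (by omega)) h2 n₀
  have := hA n h3
  omega

theorem quant {k g : ℕ} : ∀ (m : ℕ) (A : Set ℕ),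
    (∀ F : Finset ℕ, F.card ≤ (g + 1) * k * m → ∃ n, g + 1 ≤ rep (A \ F) k n) →
    ∃ n, (g + 1) ^ (m + 1) ≤ rep A (k * (m + 1)) n := by
  classical
  intro m
  induction m with
  | zero =>
    intro A hA
    obtain ⟨n, hn⟩ := hA ∅ (by simp)
    rw [Finset.coe_empty, Set.sdiff_empty] at hn
    exact ⟨n, by simpa using hn⟩
  | succ m ih =>
    intro A hA
    obtain ⟨n₁, hn₁⟩ := hA ∅ (by simp)
    rw [Finset.coe_empty, Set.sdiff_empty] at hn₁
    unfold rep at hn₁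
    rw [Set.ncard_eq_toFinset_card _ (reps_finite A k n₁)] at hn₁
    obtain ⟨P, hP, hPc⟩ := Finset.exists_subset_card_eq hn₁
    have hP' : ∀ s ∈ P, Multiset.card s = k ∧ (∀ a ∈ s, a ∈ A) ∧ s.sum = n₁ := by
      intro s hs
      have := hP hs
      rwa [Set.Finite.mem_toFinset] at this
    set F₁ : Finset ℕ := P.biUnion (fun s => s.toFinset) with hF₁
    have hF₁c : F₁.card ≤ (g + 1) * k := by
      rw [hF₁]
      refine Finset.card_biUnion_le.trans ?_
      refine (Finset.sum_le_card_nsmul _ _ k (fun s hs => ?_)).trans ?_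
      · exact (Multiset.toFinset_card_le _).trans (hP' s hs).1.le
      · rw [hPc, smul_eq_mul]
    obtain ⟨n₂, hn₂⟩ := ih (A \ F₁) (by
      intro F hF
      obtain ⟨n, hn⟩ := hA (F₁ ∪ F) (by
        refine (Finset.card_union_le _ _).trans ?_
        rw [Nat.mul_succ]
        omega)
      rw [Finset.coe_union, ← Set.sdiff_sdiff] at hn
      exact ⟨n, hn⟩)
    refine ⟨n₁ + n₂, ?_⟩
    have h1 := comb_le A F₁ P k (k * (m + 1)) n₁ n₂ (by
      intro s hs
      obtain ⟨f1, f2, f3⟩ := hP' s hs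
      refine ⟨f1, fun x hx => ⟨f2 x hx, ?_⟩, f3⟩
      rw [hF₁, Finset.mem_biUnion]
      exact ⟨s, hs, by rwa [Multiset.mem_toFinset]⟩)
    rw [hPc] at h1
    rw [show k * (m + 1 + 1) = k + k * (m + 1) by ring, pow_succ, mul_comm]
    exact (Nat.mul_le_mul_left _ hn₂).trans h1

theorem almost_quant {A : Set ℕ} {h k g m : ℕ} (hk : 1 ≤ k)
    (hkm : k * (m + 1) ≤ h) (hA : ∀ n, rep A h n < (g + 1) ^ (m + 1)) :
    ∃ F : Finset ℕ, F.card ≤ (g + 1) * k * m ∧ ∀ n, rep (A \ F) k n ≤ g := by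
  by_contra hno
  push Not at hno
  obtain ⟨n, hn⟩ := quant (k := k) (g := g) m A
    (fun F hF => (hno F hF).imp fun n hn => hn)
  obtain ⟨a, ha, _⟩ := exists_mem_of_rep_pos (A := A) (k := k * (m + 1)) (n := n)
    (Nat.mul_pos hk (Nat.succ_pos m)) ((Nat.one_le_pow _ _ (by omega)).trans hn)
  have h1 := rep_add_le ha (k * (m + 1)) (h - k * (m + 1)) n
  rw [Nat.add_sub_cancel' hkm] at h1
  have := hA (n + (h - k * (m + 1)) * a)
  omega

end Pool.Agent.H601.GV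

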