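import Pool.Agent.H601.GV.Inv

/-!
# Sets with prescribed maxima of the representation functions: upper and lower bounds
-/

set_option autoImplicit false

namespace Pool.Agent.H601.GV

open Finset Pool.Agent.H601

/-- Multisets of `h` indices in `Q` with the weighted sum `n`. -/
def NN {ι : Type} (Q : Set ι) (w : ι → ℕ) (h n : ℕ) : Set (Multiset ι) :=
  {σ | Multiset.card σ = h ∧ (∀ p ∈ σ, p ∈ Q) ∧ (σ.map w).sum = n}

theorem ms_finite {ι : Type} [DecidableEq ι] (P : Finset ι) (h : ℕ) :
    {s : Multiset ι | Multiset.card s = h ∧ ∀ a ∈ s, a ∈ P}.Finite := by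
  have hsub : {s : Multiset ι | Multiset.card s = h ∧ ∀ a ∈ s, a ∈ P} ⊆
      ((Fintype.piFinset (fun _ : Fin h => P)).image
        (fun f => ((List.ofFn f : List ι) : Multiset ι)) : Finset (Multiset ι)) := by
    rintro s ⟨h1, h2⟩
    rw [Finset.mem_coe, Finset.mem_image]
    induction s using Quotient.inductionOn with
    | h l =>
      have h3 : l.length = h := h1
      subst h3
      refine ⟨l.get, ?_, ?_⟩
      · rw [Fintype.mem_piFinset]
        intro i
        exact h2 _ (by simp)
      · simp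
  exact (Finset.finite_toSet _).subset hsub

theorem NN_finite (G : ℕ → ℕ) (i₀ : ℕ) (w : ℕ × ℕ × Bool → ℕ)
    (hw : ∀ p ∈ Al G i₀, p.1 < w p) (h n : ℕ) : (NN (Al G i₀) w h n).Finite := by
  classical
  refine (ms_finite (Finset.range (n + 1) ×ˢ (Finset.range (∑ i ∈ Finset.range (n + 1), G i) ×ˢ
    (Finset.univ : Finset Bool))) h).subset ?_
  rintro σ ⟨h1, h0, h2⟩
  refine ⟨h1, fun p hp => ?_⟩
  have h3 := Multiset.le_sum_of_mem (Multiset.mem_map_of_mem w hp)
  have h4 := hw p (h0 p hp)
  have h5 : p.1 ∈ Finset.range (n + 1) := by rw [Finset.mem_range]; omega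
  rw [Finset.mem_product, Finset.mem_product, Finset.mem_range (m := p.2.1)]
  exact ⟨h5, lt_of_lt_of_le (h0 p hp).2
    (Finset.single_le_sum (f := G) (fun _ _ => Nat.zero_le _) h5), Finset.mem_univ _⟩

/-- the peeling induction -/
theorem peel {ι : Type} [DecidableEq ι] (Q : Set ι) (w : ι → ℕ) (h : ℕ) (γ : ℕ → ℕ)
    (hγ : ∀ m ≤ h, 1 ≤ γ m) (hfin : ∀ h n, (NN Q w h n).Finite)
    (hX : ∀ h' ≤ h, ∀ n, ∀ s ∈ NN Q w h' n, ∀ t ∈ NN Q w h' n, s ≠ t →
      ∃ (k G : ℕ) (X : Fin G → Multiset ι) (S : ℕ), 1 ≤ k ∧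
        (k ≤ h' → G * γ (h' - k) ≤ γ h') ∧
        (∀ j, Multiset.card (X j) = k ∧ ((X j).map w).sum = S) ∧
        ∀ u ∈ NN Q w h' n, ∃ j, X j ≤ u) :
    ∀ h' ≤ h, ∀ n, (NN Q w h' n).ncard ≤ γ h' := by
  intro h'
  induction h' using Nat.strong_induction_on with
  | _ h' ih =>
    intro hh n
    by_cases hsub : ∀ s ∈ NN Q w h' n, ∀ t ∈ NN Q w h' n, s = t
    · have h1 : (NN Q w h' n).ncard ≤ 1 := by
        rw [Set.ncard_le_one (hfin h' n)]
        exact fun a ha b hb => hsub a ha b hb
      exact h1.trans (hγ h' hh)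
    · push Not at hsub
      obtain ⟨s, hs, t, ht, hst⟩ := hsub
      obtain ⟨k, G, X, S, hk, hG, h1, h2⟩ := hX h' hh n s hs t ht hst
      have hkh : k ≤ h' := by
        obtain ⟨j, hj⟩ := h2 s hs
        have h3 := Multiset.card_le_card hj
        rw [(h1 j).1, hs.1] at h3
        exact h3
      have h3 := ih (h' - k) (by omega) (by omega) (n - S)
      rw [Set.ncard_eq_toFinset_card _ (hfin (h' - k) (n - S))] at h3
      rw [Set.ncard_eq_toFinset_card _ (hfin h' n)]
      have h4 : (hfin h' n).toFinset ⊆ (univ : Finset (Fin G)).biUnion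
          (fun j => (hfin (h' - k) (n - S)).toFinset.image (fun v => v + X j)) := by
        intro u hu
        rw [Set.Finite.mem_toFinset] at hu
        obtain ⟨j, hj⟩ := h2 u hu
        rw [Finset.mem_biUnion]
        refine ⟨j, mem_univ _, ?_⟩
        rw [Finset.mem_image]
        have e1 : u - X j + X j = u := Multiset.sub_add_cancel hj
        refine ⟨u - X j, ?_, e1⟩
        rw [Set.Finite.mem_toFinset]
        refine ⟨?_, ?_, ?_⟩
        · rw [Multiset.card_sub hj, hu.1, (h1 j).1]
        · intro p hp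
          exact hu.2.1 p (Multiset.mem_of_le (Multiset.sub_le_self u (X j)) hp)
        · have h5 : ((u - X j + X j).map w).sum = n := by rw [e1]; exact hu.2.2
          rw [Multiset.map_add, Multiset.sum_add, (h1 j).2] at h5
          omega
      refine (Finset.card_le_card h4).trans ?_
      refine (Finset.card_biUnion_le_card_mul _ _ (γ (h' - k)) fun j _ =>
        Finset.card_image_le.trans h3).trans ?_
      rw [Finset.card_univ, Fintype.card_fin]
      exact hG hkh

section
variable {B G κ : ℕ → ℕ} {i₀ h : ℕ}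

/-- two representations differ in the distribution of the full coincidences -/
theorem cover (hκ : ∀ i, 1 ≤ κ i ∧ κ i < B i) (hB : ∀ i, i₀ ≤ i → 2 * κ i * h < B i) :
    ∀ h' ≤ h, ∀ n, ∀ s ∈ NN (Al G i₀) (ww B G κ) h' n, ∀ t ∈ NN (Al G i₀) (ww B G κ) h' n, s ≠ t →
    ∃ (i : ℕ) (X : Fin (G i) → Multiset (ℕ × ℕ × Bool)) (S : ℕ),
      (∀ j, Multiset.card (X j) = κ i ∧ ((X j).map (ww B G κ)).sum = S) ∧
      ∀ u ∈ NN (Al G i₀) (ww B G κ) h' n, ∃ j, X j ≤ u := by
  classical
  intro h' hh' n s hs t ht hst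
  have hsize := (size (G := G) hκ).2.2.2
  have hinv : ∀ u ∈ NN (Al G i₀) (ww B G κ) h' n, ∀ v ∈ NN (Al G i₀) (ww B G κ) h' n, ∀ i,
      (∀ j, u.count (i, j, false) + (κ i - 1) * v.count (i, j, true) =
        v.count (i, j, false) + (κ i - 1) * u.count (i, j, true)) ∧
      ∑ j ∈ range (G i), u.count (i, j, true) = ∑ j ∈ range (G i), v.count (i, j, true) := by
    intro u hu v hv i
    exact inv hκ hB u v hu.2.1 hv.2.1 (by rw [hu.1]; exact hh') (by rw [hv.1]; exact hh')
      (by rw [hu.2.2, hv.2.2]) i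
  -- a block with different counts
  obtain ⟨i, j₀, hj₀, hij⟩ : ∃ i j₀, j₀ < G i ∧ t.count (i, j₀, true) < s.count (i, j₀, true) := by
    by_contra hno
    push Not at hno
    apply hst
    have e1 : ∀ i j, s.count (i, j, true) = t.count (i, j, true) := by
      intro i j
      by_cases hj : j < G i
      · have h1 := (hinv s hs t ht i).2
        exact (Finset.sum_eq_sum_iff_of_le
          (fun j hj => hno i j (Finset.mem_range.1 hj))).1 h1 j (Finset.mem_range.2 hj)
      · rw [Multiset.count_eq_zero.2 (fun hm => hj (hs.2.1 _ hm).2),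
          Multiset.count_eq_zero.2 (fun hm => hj (ht.2.1 _ hm).2)]
    ext ⟨i, j, b⟩
    cases b with
    | true => exact e1 i j
    | false =>
      have h1 := (hinv s hs t ht i).1 j
      rw [e1 i j] at h1
      omega
  refine ⟨i, fun j => {(i, (j : ℕ), true)} + Multiset.replicate (κ i - 1) (i, (j : ℕ), false),
    DD B G i * B i ^ G i, ?_, ?_⟩
  · intro j
    constructor
    · rw [Multiset.card_add, Multiset.card_singleton, Multiset.card_replicate]
      have := (hκ i).1
      omega
    · rw [Multiset.map_add, Multiset.sum_add, Multiset.map_singleton, Multiset.sum_singleton,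
        Multiset.map_replicate, Multiset.sum_replicate, smul_eq_mul]
      exact hsize i j j.2
  · intro u hu
    by_contra hno
    push Not at hno
    have key : ∀ j ∈ range (G i), ∀ v ∈ NN (Al G i₀) (ww B G κ) h' n,
        u.count (i, j, true) ≤ v.count (i, j, true) := by
      intro j hj v hv
      rw [Finset.mem_range] at hj
      by_contra hlt
      push Not at hlt
      apply hno ⟨j, hj⟩
      show ({(i, j, true)} + Multiset.replicate (κ i - 1) (i, j, false) :
        Multiset (ℕ × ℕ × Bool)) ≤ u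
      have h1 := (hinv u hu v hv i).1 j
      have h2 : (κ i - 1) * (v.count (i, j, true) + 1) ≤ (κ i - 1) * u.count (i, j, true) :=
        Nat.mul_le_mul_left _ hlt
      have h3 : κ i - 1 ≤ u.count (i, j, false) := by
        rw [Nat.mul_add, Nat.mul_one] at h2
        omega
      rw [Multiset.le_iff_count]
      intro a
      rw [Multiset.count_add, Multiset.count_singleton, Multiset.count_replicate]
      by_cases ha : a = (i, j, true)
      · subst ha
        rw [if_pos rfl, if_neg (by simp)]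
        omega
      · rw [if_neg ha]
        split_ifs with hb
        · subst hb; omega
        · omega
    have h1 : ∑ j ∈ range (G i), u.count (i, j, true) < ∑ j ∈ range (G i), s.count (i, j, true) :=
      Finset.sum_lt_sum (fun j hj => key j hj s hs) ⟨j₀, Finset.mem_range.2 hj₀,
        (key j₀ (Finset.mem_range.2 hj₀) t ht).trans_lt hij⟩
    exact absurd (hinv u hu s hs i).2 h1.ne

/-- the set -/
def GA (B G κ : ℕ → ℕ) (i₀ : ℕ) : Set ℕ := ww B G κ '' Al G i₀

theorem rep_GA (hκ : ∀ i, 1 ≤ κ i ∧ κ i < B i) (hB : ∀ i, i₀ ≤ i → 2 * κ i * h < B i)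
    (γ : ℕ → ℕ) (hγ : ∀ m ≤ h, 1 ≤ γ m)
    (hmul : ∀ i m, κ i + m ≤ h → G i * γ m ≤ γ (κ i + m)) (n : ℕ) :
    rep (GA B G κ i₀) h n ≤ γ h := by
  classical
  obtain ⟨z1, z2, z3, z4⟩ := size (G := G) hκ
  have hfin := NN_finite G i₀ (ww B G κ) (fun p hp => z1 p hp.2)
  refine le_trans ?_ (peel (Al G i₀) (ww B G κ) h γ hγ hfin ?_ h le_rfl n)
  · unfold rep
    have hsub : {s : Multiset ℕ | Multiset.card s = h ∧ (∀ a ∈ s, a ∈ GA B G κ i₀) ∧ s.sum = n} ⊆
        (fun σ : Multiset (ℕ × ℕ × Bool) => σ.map (ww B G κ)) ''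
          (NN (Al G i₀) (ww B G κ) h n) := by
      rintro s ⟨h1, h2, h3⟩
      obtain ⟨σ, hσ, rfl⟩ : ∃ σ : Multiset (ℕ × ℕ × Bool),
          (∀ p ∈ σ, p ∈ Al G i₀) ∧ σ.map (ww B G κ) = s := by
        have : ∀ s : Multiset ℕ, (∀ a ∈ s, a ∈ GA B G κ i₀) →
            ∃ σ : Multiset (ℕ × ℕ × Bool), (∀ p ∈ σ, p ∈ Al G i₀) ∧
              σ.map (ww B G κ) = s := by
          intro s
          induction s using Multiset.induction_on with
          | empty => intro _; exact ⟨0, by simp, rfl⟩
          | cons a s ih =>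
            intro hs
            obtain ⟨σ, hσ1, hσ2⟩ := ih (fun b hb => hs b (Multiset.mem_cons_of_mem hb))
            obtain ⟨p, hp1, hp2⟩ := hs a (Multiset.mem_cons_self a s)
            refine ⟨p ::ₘ σ, ?_, by rw [Multiset.map_cons, hσ2, hp2]⟩
            intro q hq
            rw [Multiset.mem_cons] at hq
            rcases hq with rfl | hq
            · exact hp1
            · exact hσ1 q hq
        exact this s h2
      rw [Multiset.card_map] at h1
      exact ⟨σ, ⟨h1, hσ, h3⟩, rfl⟩
    refine (Set.ncard_le_ncard hsub ((hfin h n).image _)).trans ?_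
    exact Set.ncard_image_le (hfin h n)
  · intro h'' hh'' n s hs t ht hst
    obtain ⟨i, X, S, h1, h2⟩ := cover hκ hB h'' hh'' n s hs t ht hst
    refine ⟨κ i, G i, X, S, (hκ i).1, ?_, h1, h2⟩
    intro hle
    have h3 := hmul i (h'' - κ i) (by omega)
    rwa [Nat.add_sub_cancel' hle] at h3

/-- there are `G i` representations of order `κ i` avoiding `F`, for every large `i` -/
theorem le_rep_GA (hκ : ∀ i, 1 ≤ κ i ∧ κ i < B i)
    (F : Finset ℕ) (i : ℕ) (hi : F.sup id < i) (hi₀ : i₀ ≤ i) (h1 : κ i = 1 → G i ≤ 1) :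
    G i ≤ rep (GA B G κ i₀ \ F) (κ i) (DD B G i * B i ^ G i) := by
  classical
  obtain ⟨z1, z2, z3, z4⟩ := size (G := G) hκ
  have hnot : ∀ (j : ℕ) (b : Bool), j < G i → ww B G κ (i, j, b) ∉ (F : Set ℕ) := by
    intro j b hj hc
    have h1 : ww B G κ (i, j, b) ≤ F.sup id := Finset.le_sup (f := id) hc
    have h2 := z1 (i, j, b) hj
    simp only at h2
    omega
  set Y : ℕ → Multiset ℕ := fun j =>
    {ww B G κ (i, j, true)} + Multiset.replicate (κ i - 1) (ww B G κ (i, j, false)) with hY
  have hinj : Set.InjOn Y (range (G i)) := by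
    intro j hj j' hj' hjj
    rw [Finset.mem_coe, Finset.mem_range] at hj hj'
    by_cases hk : κ i = 1
    · have h2 := h1 hk
      omega
    · have hk1 := (hκ i).1
      have h1 : ww B G κ (i, j, false) ∈ Y j := by
        rw [hY]
        simp only
        rw [Multiset.mem_add]
        right
        rw [Multiset.mem_replicate]
        exact ⟨by omega, rfl⟩
      rw [hjj, hY] at h1
      simp only at h1
      rw [Multiset.mem_add, Multiset.mem_singleton, Multiset.mem_replicate] at h1
      rcases h1 with h1 | h1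
      · exact absurd h1 (z3 i _ _ hj hj')
      · exact z2 i _ _ h1.2
  have h2 : ((range (G i)).image Y).card = G i := by
    rw [Finset.card_image_of_injOn hinj, Finset.card_range]
  refine h2.ge.trans ?_
  unfold rep
  rw [← Set.ncard_coe_finset]
  apply Set.ncard_le_ncard _ (reps_finite _ _ _)
  intro s hs
  rw [mem_coe, mem_image] at hs
  obtain ⟨j, hj, rfl⟩ := hs
  rw [Finset.mem_range] at hj
  refine ⟨?_, ?_, ?_⟩
  · rw [hY]
    simp only
    rw [Multiset.card_add, Multiset.card_singleton, Multiset.card_replicate]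
    have := (hκ i).1
    omega
  · intro a ha
    rw [hY] at ha
    simp only at ha
    rw [Multiset.mem_add, Multiset.mem_singleton, Multiset.mem_replicate] at ha
    rcases ha with ha | ha
    · rw [ha]; exact ⟨⟨_, ⟨hi₀, hj⟩, rfl⟩, hnot _ true hj⟩
    · rw [ha.2]; exact ⟨⟨_, ⟨hi₀, hj⟩, rfl⟩, hnot _ false hj⟩
  · rw [hY]
    simp only
    rw [Multiset.sum_add, Multiset.sum_singleton, Multiset.sum_replicate, smul_eq_mul]
    exact z4 i j hj

end

end Pool.Agent.H601.GV
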